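import Pool.Agent.T2h61.DO.Exi

/-!
# The ring `K[x; δ]` exists (task EXI)
-/

set_option autoImplicit false

namespace Pool.Agent.T2h61.DO.EXI

open Polynomial

variable {K : Type} [Field K] (δ : Derivation ℤ K K)

/-- the derivation on the coefficients -/
noncomputable def DD : Derivation ℤ K[X] K[X] :=
  @Differential.mapCoeffs K _ ⟨δ⟩

theorem DD_coeff (p : K[X]) (n : ℕ) : (DD δ p).coeff n = δ (p.coeff n) := rfl

/-- the operator `T` -/
noncomputable def TT : AddMonoid.End K[X] :=
  (AddMonoidHom.mulRight (X : K[X]) + (DD δ).toLinearMap.toAddMonoidHom : K[X] →+ K[X])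

theorem TT_apply (p : K[X]) : TT δ p = p * X + DD δ p := rfl

/-- multiplication by constants -/
noncomputable def LK (K : Type) [Field K] : K →+* AddMonoid.End K[X] := Module.toAddMonoidEnd K K[X]

theorem LK_apply (a : K) (p : K[X]) : LK K a p = a • p := rfl

theorem comm_rule (a : K) : TT δ * LK K a = LK K a * TT δ + LK K (δ a) := by
  refine AddMonoidHom.ext fun p => ?_
  change TT δ (LK K a p) = LK K a (TT δ p) + LK K (δ a) p
  rw [LK_apply, LK_apply, LK_apply, TT_apply, TT_apply]
  ext n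
  rw [coeff_add, DD_coeff, coeff_smul, coeff_add, coeff_smul, coeff_smul, coeff_add, DD_coeff,
    smul_mul_assoc, coeff_smul]
  simp only [smul_eq_mul, Derivation.leibniz]
  ring

theorem TT_pow (i : ℕ) : (TT δ ^ i) 1 = X ^ i := by
  induction i with
  | zero => rfl
  | succ i ih =>
    rw [pow_succ']
    change TT δ ((TT δ ^ i) 1) = _
    rw [ih, TT_apply, pow_succ]
    have h : DD δ (X ^ i : K[X]) = 0 := by
      ext n
      rw [DD_coeff, coeff_X_pow, coeff_zero]
      split_ifs
      · exact Derivation.map_one_eq_zero δ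
      · exact map_zero δ
    rw [h, add_zero]

/-- `∑ L (a_i) T ^ i` -/
noncomputable def Ph : K[X] →+ AddMonoid.End K[X] where
  toFun p := p.sum fun i a => LK K a * TT δ ^ i
  map_zero' := Polynomial.sum_zero_index _
  map_add' p q := by
    apply Polynomial.sum_add_index
    · intro i
      rw [map_zero, zero_mul]
    · intro i a b
      rw [map_add, add_mul]

theorem Ph_apply (p : K[X]) : Ph δ p = p.sum fun i a => LK K a * TT δ ^ i := rfl

theorem Ph_mono (i : ℕ) (a : K) : Ph δ (monomial i a) = LK K a * TT δ ^ i := by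
  rw [Ph_apply]
  apply Polynomial.sum_monomial_index
  rw [map_zero, zero_mul]

theorem L_mem (a : K) (m : AddMonoid.End K[X]) (hm : m ∈ (Ph δ).range) :
    LK K a * m ∈ (Ph δ).range := by
  obtain ⟨p, rfl⟩ := hm
  induction p using Polynomial.induction_on' with
  | add p q hp hq =>
    rw [map_add, mul_add]
    exact add_mem hp hq
  | monomial i b =>
    rw [Ph_mono, ← mul_assoc, ← map_mul]
    exact ⟨monomial i (a * b), Ph_mono δ i (a * b)⟩

theorem T_mem (m : AddMonoid.End K[X]) (hm : m ∈ (Ph δ).range) : TT δ * m ∈ (Ph δ).range := by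
  obtain ⟨p, rfl⟩ := hm
  induction p using Polynomial.induction_on' with
  | add p q hp hq =>
    rw [map_add, mul_add]
    exact add_mem hp hq
  | monomial i b =>
    rw [Ph_mono, ← mul_assoc, comm_rule, add_mul, mul_assoc, ← pow_succ']
    exact add_mem ⟨monomial (i + 1) b, Ph_mono δ (i + 1) b⟩ ⟨monomial i (δ b), Ph_mono δ i (δ b)⟩

theorem Tpow_mem (i : ℕ) (m : AddMonoid.End K[X]) (hm : m ∈ (Ph δ).range) :
    TT δ ^ i * m ∈ (Ph δ).range := by
  induction i with
  | zero => rwa [pow_zero, one_mul]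
  | succ i ih =>
    rw [pow_succ', mul_assoc]
    exact T_mem δ _ ih

theorem mul_mem (m m' : AddMonoid.End K[X]) (hm : m ∈ (Ph δ).range) (hm' : m' ∈ (Ph δ).range) :
    m * m' ∈ (Ph δ).range := by
  obtain ⟨p, rfl⟩ := hm
  induction p using Polynomial.induction_on' with
  | add p q hp hq =>
    rw [map_add, add_mul]
    exact add_mem hp hq
  | monomial i b =>
    rw [Ph_mono, mul_assoc]
    exact L_mem δ b _ (Tpow_mem δ i _ hm')

/-- the ring -/
noncomputable def SR : Subring (AddMonoid.End K[X]) where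
  carrier := (Ph δ).range
  mul_mem' := fun {a b} ha hb => mul_mem δ a b ha hb
  one_mem' := ⟨monomial 0 1, by rw [Ph_mono, map_one, pow_zero, one_mul]⟩
  add_mem' := fun {_ _} ha hb => add_mem ha hb
  zero_mem' := zero_mem (Ph δ).range
  neg_mem' := fun {_} ha => neg_mem ha

theorem mem_L (a : K) : LK K a ∈ SR δ :=
  ⟨monomial 0 a, by rw [Ph_mono, pow_zero, mul_one]⟩

theorem mem_T : TT δ ∈ SR δ :=
  ⟨monomial 1 1, by rw [Ph_mono, map_one, pow_one, one_mul]⟩

theorem t_EXI : S_EXI := by
  intro K _ δ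
  have hcoe : ∀ p : K[X], ((p.sum fun i a => (LK K).codRestrict (SR δ) (mem_L δ) a *
      (⟨TT δ, mem_T δ⟩ : SR δ) ^ i : SR δ) : AddMonoid.End K[X]) = Ph δ p := by
    intro p
    rw [Ph_apply, Polynomial.sum_def, Polynomial.sum_def]
    have h := map_sum (SR δ).subtype (fun i => (LK K).codRestrict (SR δ) (mem_L δ) (p.coeff i) *
      (⟨TT δ, mem_T δ⟩ : SR δ) ^ i) p.support
    exact h
  refine ⟨SR δ, inferInstance, (LK K).codRestrict (SR δ) (mem_L δ), ⟨TT δ, mem_T δ⟩, ?_, ?_, ?_⟩
  · intro a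
    exact Subtype.ext (comm_rule δ a)
  · rintro ⟨r, p, hp⟩
    refine ⟨p, Subtype.ext ?_⟩
    rw [hcoe p]
    exact hp.symm
  · intro p hp
    have h1 : Ph δ p = 0 := by
      rw [← hcoe p, hp]
      rfl
    have h2 : (Ph δ p) 1 = p := by
      have h4 : (∑ n ∈ p.support, LK K (p.coeff n) * TT δ ^ n : AddMonoid.End K[X]) 1 =
          ∑ n ∈ p.support, (LK K (p.coeff n) * TT δ ^ n) (1 : K[X]) :=
        AddMonoidHom.finsetSum_apply (M := K[X]) (N := K[X]) _ _ _
      rw [Ph_apply, Polynomial.sum_def, h4]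
      have h3 : ∀ i ∈ p.support, (LK K (p.coeff i) * TT δ ^ i) (1 : K[X]) = monomial i (p.coeff i) := by
        intro i _
        change LK K (p.coeff i) ((TT δ ^ i) 1) = _
        rw [TT_pow, LK_apply, Polynomial.smul_X_eq_monomial]
      rw [Finset.sum_congr rfl h3]
      exact (Polynomial.as_sum_support p).symm
    rw [h1] at h2
    exact h2.symm

end Pool.Agent.T2h61.DO.EXI
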