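import Pool.Agent.T2h61.DO.Stm
import Pool.Agent.T2h61.GT.Ab

/-!
# `GL_2` of rings of differential operators: assembly
-/

set_option autoImplicit false

namespace Pool.Agent.T2h61.DO

open Matrix
open Pool.Agent.Y110.FJ (ClosedE)
open Pool.Agent.N509.TX (AcylF)
open Pool.Agent.T2h61.PL (CG S_TREE S_CON S_NRM7)

/-- all statements of the board -/
structure Brd : Prop where
  tree : S_TREE
  con : S_CON
  nrm : S_NRM7
  cf : S_CF
  cen : S_CEN
  lc : S_LC
  dep : S_DEP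
  zer : S_ZER
  bru : S_BRU
  jme : S_JME
  lwa : S_LWA
  lwe : S_LWE
  lwu : S_LWU
  gen : S_GEN
  dls : S_DLS
  del : S_DEL
  stb : S_STB
  dnm : S_DNM
  vbd : S_VBD
  udt : S_UDT
  tr : S_TR
  act : S_ACT
  exs : S_EXS

variable {C : ∀ (G : Type) [Group G], Prop}

/-- a subgroup of `G R` whose intersections with the conjugates of `GL_2(K)` are in the class -/
theorem core (b : Brd) (hC : ClosedE C) (hM : ∀ (G : Type) [Group G], derivedSeries G 2 = ⊥ → C G)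
    (hA : AcylF C) {K R : Type} [Field K] [CharZero K] [Ring R] {ι : K →+* R} {x : R}
    {δ : Derivation ℤ K K} (hR : IsDO K R ι x δ) (H : Cf K R ι)
    (hH : ∀ (p : Polynomial K) (n : ℕ), H.c n (p.sum fun i a => ι a * x ^ i) = p.coeff n)
    (P : Subgroup (G R))
    (hV : ∀ (g : G R) (Q : Subgroup (Matrix (Fin 2) (Fin 2) K)ˣ), (∀ h ∈ Q,
      g * Units.map (ι.mapMatrix (m := Fin 2) : Matrix (Fin 2) (Fin 2) K →* _) h * g⁻¹ ∈ P) → C Q) :
    C P := by
  have hinj : Function.Injective ι := fun a a' h => by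
    rw [← H.c0 a, ← H.c0 a', h]
  have hgen : AA ι ⊔ JJ R = ⊤ := b.gen b.dep b.zer b.lwa b.lwe K R ι H
  have hT : (CG (AA ι) (JJ R)).IsTree :=
    b.tr b.tree b.con b.dep b.jme b.zer b.lwa b.lwu K R ι H hgen
  obtain ⟨Δ, hΔ⟩ := b.del b.lc b.jme b.bru b.dls K R ι H hgen
  refine b.exs C hC hM K R ι hinj Δ hΔ P fun Q hQ hfin => ?_
  refine b.act b.nrm b.bru b.jme b.stb b.cen b.zer C hC hM hA K R ι x δ hR H hH hT Q ?_ hfin
  intro g Q' hQ' hconj
  obtain ⟨Ψ, hΨ⟩ : ∃ Ψ : (Matrix (Fin 2) (Fin 2) K)ˣ →* G R, Ψ = (MulAut.conj g).toMonoidHom.comp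
    (Units.map (ι.mapMatrix (m := Fin 2) : Matrix (Fin 2) (Fin 2) K →* _)) := ⟨_, rfl⟩
  have hΨa : ∀ h, Ψ h = g * Units.map (ι.mapMatrix (m := Fin 2) :
      Matrix (Fin 2) (Fin 2) K →* _) h * g⁻¹ := fun h => by rw [hΨ]; rfl
  have hΨi : Function.Injective Ψ := by
    intro h h' e
    rw [hΨa, hΨa] at e
    have e1 := mul_left_cancel (mul_right_cancel e)
    have e2 := congrArg (fun u : G R => (u : Matrix (Fin 2) (Fin 2) R)) e1
    apply Units.ext
    ext i j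
    have e3 := congrFun (congrFun e2 i) j
    exact hinj e3
  have h1 : C (Q'.comap Ψ) := hV g _ fun h hh => hQ (hQ' (by
    have h2 : Ψ h ∈ Q' := hh
    rwa [hΨa] at h2))
  have h3 : Q' = (Q'.comap Ψ).map Ψ := by
    rw [Subgroup.map_comap_eq]
    refine (inf_eq_right.2 ?_).symm
    intro q hq
    obtain ⟨h, hh⟩ := hconj q hq
    refine ⟨h, ?_⟩
    rw [hΨa]
    have h4 : Units.map (ι.mapMatrix (m := Fin 2) : Matrix (Fin 2) (Fin 2) K →* _) h =
      g⁻¹ * q * g := hh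
    rw [h4]
    group
  rw [h3]
  exact Pool.Agent.R941.FJ.C_equiv hC.base
    (Subgroup.equivMapOfInjective (Q'.comap Ψ) Ψ hΨi).symm h1

/-- the general theorem -/
theorem general (b : Brd) (hC : ClosedE C) (hM : ∀ (G : Type) [Group G], derivedSeries G 2 = ⊥ → C G)
    (hA : AcylF C) {K R : Type} [Field K] [CharZero K] [Ring R] {ι : K →+* R} {x : R}
    {δ : Derivation ℤ K K} (hR : IsDO K R ι x δ) (A : Type) [CommRing A] [IsDomain A] [Algebra A K]
    [IsFractionRing A K] [IsNoetherianRing A] [IsIntegrallyClosed A]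
    (hδ : ∀ a : A, ∃ b : A, δ (algebraMap A K a) = algebraMap A K b)
    (hBD : ∀ (Q : Subgroup (Matrix.GeneralLinearGroup (Fin 2) K)) (s : A), s ≠ 0 →
      (∀ h ∈ Q, ∀ i j, ∃ r : A, algebraMap A K s * (h : Matrix (Fin 2) (Fin 2) K) i j =
        algebraMap A K r) →
      (∀ h ∈ Q, ∃ u : Aˣ, (h : Matrix (Fin 2) (Fin 2) K).det = algebraMap A K u) → C Q) :
    C (Matrix (Fin 2) (Fin 2) (AX A ι x))ˣ := by
  obtain ⟨H, hH⟩ := b.cf K R ι x δ hR
  have h1 : C (Gam (AX A ι x)) := by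
    refine core b hC hM hA hR H hH _ fun g Q hQ => ?_
    obtain ⟨s, hs, h2⟩ := b.vbd b.dnm K R A ι x δ hR hδ H hH g
    have h3 : ∀ h ∈ Q, ∀ i j, ∃ r : A, algebraMap A K s * (h : Matrix (Fin 2) (Fin 2) K) i j =
        algebraMap A K r := fun h hh => h2 h (hQ h hh).1
    exact hBD Q s hs h3 (b.udt K A Q s hs h3)
  refine hC.base.of_injective _ _
    ((Units.map ((AX A ι x).subtype.mapMatrix (m := Fin 2) :
      Matrix (Fin 2) (Fin 2) (AX A ι x) →* Matrix (Fin 2) (Fin 2) R)).codRestrict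
        (Gam (AX A ι x)) ?_) ?_ h1
  · intro u
    exact ⟨fun i j => ((u : Matrix (Fin 2) (Fin 2) (AX A ι x)) i j).2,
      fun i j => (((u⁻¹ : (Matrix (Fin 2) (Fin 2) (AX A ι x))ˣ) :
        Matrix (Fin 2) (Fin 2) (AX A ι x)) i j).2⟩
  · intro u v h
    have e1 := congrArg (fun w : Gam (AX A ι x) => ((w : G R) : Matrix (Fin 2) (Fin 2) R)) h
    apply Units.ext
    ext i j
    exact congrFun (congrFun e1 i) j

/-- the case `A = K` -/
theorem field (b : Brd) (hC : ClosedE C) (hM : ∀ (G : Type) [Group G], derivedSeries G 2 = ⊥ → C G)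
    (hA : AcylF C) {K R : Type} [Field K] [CharZero K] [Ring R] {ι : K →+* R} {x : R}
    {δ : Derivation ℤ K K} (hR : IsDO K R ι x δ) (h2 : C (Matrix.GeneralLinearGroup (Fin 2) K)) :
    C (Matrix (Fin 2) (Fin 2) R)ˣ := by
  obtain ⟨H, hH⟩ := b.cf K R ι x δ hR
  have h1 : C (⊤ : Subgroup (G R)) := core b hC hM hA hR H hH _ fun g Q _ =>
    hC.base.of_injective _ _ Q.subtype Q.subtype_injective h2
  exact Pool.Agent.R941.FJ.C_equiv hC.base Subgroup.topEquiv.symm h1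

end Pool.Agent.T2h61.DO
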