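import Mathlib

/-!
# `GL_2` of rings of differential operators: definitions and the algebraic tasks (only Mathlib)

Owner helper61. `R = K[x; δ]`: polynomials `∑ a_i x^i` over the field `K`, `x a = a x + δ a`. `G R` is
the group of the invertible `2 × 2` matrices over `R`.
-/

set_option autoImplicit false

namespace Pool.Agent.T2h61.DO

open Matrix

/-- `R` is the ring `K[x; δ]`: every element is `∑ ι (a_i) x^i` with unique coefficients, and
`x a = a x + δ a`. -/
structure IsDO (K R : Type) [Field K] [Ring R] (ι : K →+* R) (x : R) (δ : Derivation ℤ K K) : Prop where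
  comm : ∀ a, x * ι a = ι a * x + ι (δ a)
  ex : ∀ r : R, ∃ p : Polynomial K, r = p.sum fun i a => ι a * x ^ i
  inj : ∀ p : Polynomial K, (p.sum fun i a => ι a * x ^ i) = 0 → p = 0

/-- the coefficient functions of `K[x; δ]` and their properties -/
structure Cf (K R : Type) [Field K] [Ring R] (ι : K →+* R) where
  c : ℕ → R →+ K
  fin : ∀ r, ∃ N, ∀ n, N < n → c n r = 0
  ext0 : ∀ r, (∀ n, c n r = 0) → r = 0
  const : ∀ r, (∀ n, 0 < n → c n r = 0) → r = ι (c 0 r)
  c0 : ∀ a, c 0 (ι a) = a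
  cn : ∀ a n, 0 < n → c n (ι a) = 0
  mul : ∀ r s m n, (∀ i, m < i → c i r = 0) → (∀ i, n < i → c i s = 0) →
    c (m + n) (r * s) = c m r * c n s ∧ ∀ i, m + n < i → c i (r * s) = 0
  mono : ∀ n a, ∃ r, (∀ i, n < i → c i r = 0) ∧ c n r = a

/-- the group of the invertible matrices -/
abbrev G (R : Type) [Ring R] : Type := (Matrix (Fin 2) (Fin 2) R)ˣ

section defs

variable {K R : Type} [Field K] [Ring R] (ι : K →+* R)

/-- the matrices over `K` -/
def AA : Subgroup (G R) := (Units.map (ι.mapMatrix (m := Fin 2) : Matrix (Fin 2) (Fin 2) K →* _)).range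

/-- the upper triangular matrices -/
def JJ (R : Type) [Ring R] : Subgroup (G R) where
  carrier := {g | (g : Matrix (Fin 2) (Fin 2) R) 1 0 = 0 ∧
    ((g⁻¹ : G R) : Matrix (Fin 2) (Fin 2) R) 1 0 = 0}
  mul_mem' := by
    rintro a b ⟨h1, h2⟩ ⟨h3, h4⟩
    refine ⟨?_, ?_⟩
    · rw [Units.val_mul, Matrix.mul_apply, Fin.sum_univ_two, h1, h3]
      simp
    · rw [_root_.mul_inv_rev, Units.val_mul, Matrix.mul_apply, Fin.sum_univ_two, h2, h4]
      simp
  one_mem' := by simp
  inv_mem' := by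
    rintro a ⟨h1, h2⟩
    exact ⟨h2, by rw [inv_inv]; exact h1⟩

/-- the exchange of the two coordinates -/
def sw (R : Type) [Ring R] : G R where
  val := !![0, 1; 1, 0]
  inv := !![0, 1; 1, 0]
  val_inv := by ext i j; fin_cases i <;> fin_cases j <;> simp [Matrix.mul_apply]
  inv_val := by ext i j; fin_cases i <;> fin_cases j <;> simp [Matrix.mul_apply]

variable {ι}

/-- degree at most `n` -/
def Cf.Le (H : Cf K R ι) (n : ℕ) (r : R) : Prop := ∀ i, n < i → H.c i r = 0

/-- all entries have degree at most `n` -/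
def Cf.LeM (H : Cf K R ι) (n : ℕ) (g : G R) : Prop := ∀ i j, H.Le n ((g : Matrix (Fin 2) (Fin 2) R) i j)

/-- the entries of the first column have degree at most `n` -/
def Cf.LeC (H : Cf K R ι) (n : ℕ) (g : G R) : Prop := ∀ i, H.Le n ((g : Matrix (Fin 2) (Fin 2) R) i 0)

open Classical in
/-- the leading coefficient -/
noncomputable def Cf.lc (H : Cf K R ι) (r : R) : K := H.c (Nat.find (H.fin r)) r

end defs

/-- **CF** (150 lines). The coefficient functions exist. PROOF: `Φ p = ∑ ι (a_i) x^i` is an additive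
bijection from `K[X]` to `R` (`ex`, `inj`); `c n r` is the `n`-th coefficient of `Φ⁻¹ r`. `mul`: by
induction on `m`, `x ^ m * ι a - ι a * x ^ m` is a sum of `ι b * x ^ j`, `j < m` (from `comm`), so
`(ι a * x ^ m) * (ι b * x ^ n)` is `ι (a b) * x ^ (m + n)` plus terms of lower degree. -/
def S_CF : Prop := ∀ (K R : Type) [Field K] [Ring R] (ι : K →+* R) (x : R) (δ : Derivation ℤ K K),
  IsDO K R ι x δ → ∃ H : Cf K R ι, ∀ (p : Polynomial K) (n : ℕ),
    H.c n (p.sum fun i a => ι a * x ^ i) = p.coeff n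

/-- **CEN** (100 lines). An element of `K` which commutes with an operator of positive degree is a
constant (characteristic zero). PROOF: let `n ≥ 1` be the degree of `r` (we may assume
`c n r ≠ 0`). By induction `x ^ n ι d = ι d x ^ n + n ι (δ d) x ^ (n - 1) +` lower terms; the coefficient
of `r ι d` at `n - 1` is `c_{n-1} d + n c_n (δ d)`, the one of `ι d r` is `d c_{n-1}`. So
`n c_n (δ d) = 0`. -/
def S_CEN : Prop := ∀ (K R : Type) [Field K] [CharZero K] [Ring R] (ι : K →+* R) (x : R)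
  (δ : Derivation ℤ K K), IsDO K R ι x δ → ∀ H : Cf K R ι,
  (∀ (p : Polynomial K) (n : ℕ), H.c n (p.sum fun i a => ι a * x ^ i) = p.coeff n) →
  ∀ (r : R) (d : K), ¬ H.Le 0 r → ι d * r = r * ι d → δ d = 0

/-- **LC** (80 lines). The leading coefficient is multiplicative. PROOF: `N = Nat.find (H.fin r)` is the
degree: `H.Le N r`, and `c N r ≠ 0` if `r ≠ 0` (otherwise `N - 1` works too, or `r = 0` by `ext0`).
`mul` gives the leading term of a product (which is not zero, `K` being a field). -/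
def S_LC : Prop := ∀ (K R : Type) [Field K] [Ring R] (ι : K →+* R) (H : Cf K R ι),
  (∀ r, r ≠ 0 → H.lc r ≠ 0) ∧ (∀ r s, H.lc (r * s) = H.lc r * H.lc s) ∧ (∀ a, H.lc (ι a) = a) ∧
  (∀ r, H.lc (-r) = -H.lc r) ∧ ∀ r s : R, r * s = 0 → r = 0 ∨ s = 0

/-- **DEP** (120 lines). The leading vectors of the columns of an invertible matrix are linearly
dependent. PROOF: let `v = (c n g00, c n g10)` and `w = (c m g01, c m g11)` be linearly independent over
`K`. Let `(r, s)` be a column of `g⁻¹`, so `g (r, s) = e_i`. If `(r, s) ≠ 0` let `q` be the maximum of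
`n + deg r` (if `r ≠ 0`) and `m + deg s` (if `s ≠ 0`). The coefficient of `g (r, s)` at `q` is
`v α + w β`, `α` the coefficient of `r` at `q - n`, `β` the one of `s` at `q - m` (zero if `q < n`,
`q < m`), `(α, β) ≠ 0`, so it is not zero; but `e_i` has degree zero, so `q = 0`. Hence `n > 0` implies
`r = 0`, `m > 0` implies `s = 0`, for both columns: a row of `g⁻¹` is zero, which contradicts
`g⁻¹ g = 1`. -/
def S_DEP : Prop := ∀ (K R : Type) [Field K] [Ring R] (ι : K →+* R) (H : Cf K R ι) (g : G R) (n m : ℕ),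
  0 < n + m → H.Le n ((g : Matrix (Fin 2) (Fin 2) R) 0 0) → H.Le n ((g : Matrix (Fin 2) (Fin 2) R) 1 0) →
  H.Le m ((g : Matrix (Fin 2) (Fin 2) R) 0 1) → H.Le m ((g : Matrix (Fin 2) (Fin 2) R) 1 1) →
  H.c n ((g : Matrix (Fin 2) (Fin 2) R) 0 0) * H.c m ((g : Matrix (Fin 2) (Fin 2) R) 1 1) =
    H.c n ((g : Matrix (Fin 2) (Fin 2) R) 1 0) * H.c m ((g : Matrix (Fin 2) (Fin 2) R) 0 1)

/-- **ZER** (60 lines). An invertible matrix with entries in `K` is invertible over `K`. PROOF: the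
entries are `ι (m i j)` (`const`). If `det m = 0` there is `w ≠ 0` in `K²` with `m w = 0`; then
`w = g⁻¹ (m w) = 0`. So `m` is invertible, and `g` is the image of a unit. -/
def S_ZER : Prop := ∀ (K R : Type) [Field K] [Ring R] (ι : K →+* R) (H : Cf K R ι) (g : G R),
  H.LeM 0 g → g ∈ AA ι

/-- **BRU** (70 lines). The Bruhat decomposition of `GL_2(K)`. PROOF: for `a = [[p, q], [r, t]]` with
`r ≠ 0` and `u = q - p t / r` we have `a = [[u, p], [0, r]] * sw * [[1, t / r], [0, 1]]`; `r = 0` means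
that `a` is in `JJ` (then the inverse is upper triangular too). -/
def S_BRU : Prop := ∀ (K R : Type) [Field K] [Ring R] (ι : K →+* R), Function.Injective ι →
  sw R ∈ AA ι ∧ ∀ a ∈ AA ι, a ∉ JJ R → ∃ b ∈ AA ι ⊓ JJ R, ∃ b' ∈ AA ι ⊓ JJ R, a = b * sw R * b'

/-- **JME** (100 lines). The triangular group. PROOF: the diagonal entries of `g` and of `g⁻¹` are
inverse to each other (both products), so they have degree zero (`LC` or `mul`: the degrees add up), i.e.
they are in `ι K`, not zero. A commutator has the diagonal entries `1`, and the matrices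
`[[1, b], [0, 1]]` commute with each other. -/
def S_JME : Prop := ∀ (K R : Type) [Field K] [Ring R] (ι : K →+* R) (_ : Cf K R ι),
  (∀ g ∈ JJ R, ∃ a d : K, a ≠ 0 ∧ d ≠ 0 ∧ (g : Matrix (Fin 2) (Fin 2) R) 0 0 = ι a ∧
    (g : Matrix (Fin 2) (Fin 2) R) 1 1 = ι d) ∧ derivedSeries (JJ R) 2 = ⊥

/-- **LWA** (120 lines). Lower neighbours of a vertex of type `A`. PROOF: by `DEP` (with `n`, `n`) the
matrix `m = (c n (g i j))` over `K` is singular. There is `0 ≠ w ∈ K²` with `m w = 0`; take `h` in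
`GL_2(K)` with the first column `w`: the first column `g w` of `g h` has coefficient `m w = 0` at `n`. If
`m ≠ 0` (this is `¬ LeM (n - 1) g`) its kernel has dimension one, so the first columns of `h` and `h'` are
proportional, and `h⁻¹ h'` maps the first basis vector to a multiple of itself, as does the inverse. -/
def S_LWA : Prop := S_DEP → ∀ (K R : Type) [Field K] [Ring R] (ι : K →+* R) (H : Cf K R ι) (g : G R)
  (n : ℕ), H.LeM (n + 1) g → (∃ h ∈ AA ι, H.LeC n (g * h)) ∧
    (¬ H.LeM n g → ∀ h ∈ AA ι, ∀ h' ∈ AA ι, H.LeC n (g * h) → H.LeC n (g * h') → h⁻¹ * h' ∈ JJ R)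

/-- **LWE** (120 lines). Existence of a lower neighbour of a vertex of type `J`. PROOF: by induction on
`m` with `LeM m g` (if `m ≤ n` take `j = 1`). We may assume that `n` is the exact degree of the first
column, i.e. `n = 0` or `¬ LeC (n - 1) g` (otherwise decrease `n`; `LeM n` is monotone in `n`), so that
`v = (c n g00, c n g10) ≠ 0` (for `n = 0`: the first column is not zero). Let `m > n`,
`w = (c m g01, c m g11)`. By `DEP` `w = v λ`. Take `b` of degree `≤ m - n` with the coefficient `-λ` at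
`m - n` (`mono`) and `j = [[1, b], [0, 1]]`: the second column of `g j` is `col1 b + col2`, of degree
`≤ m - 1` (by `mul`). -/
def S_LWE : Prop := S_DEP → ∀ (K R : Type) [Field K] [Ring R] (ι : K →+* R) (H : Cf K R ι) (g : G R)
  (n : ℕ), H.LeC n g → ∃ j ∈ JJ R, H.LeM n (g * j)

/-- **LWU** (100 lines). Uniqueness of the lower neighbour of a vertex of type `J`. PROOF: replace `g` by
`g j` (`LeC` does not change, `JME`); let `j = 1`, `j' = [[ι a, b], [0, ι d]]` (`JME`). The second column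
of `g j'` is `col1 b + col2 d`, of degree `≤ n`, hence `col1 b` has degree `≤ n`. An entry of `col1` has
the exact degree `n` (this is `¬ LeC (n - 1) g`, or `n = 0` and `col1 ≠ 0`), so `b` has degree `0` by
`mul` (leading coefficients), i.e. `b ∈ ι K` and `j' ∈ AA` (`ZER`). -/
def S_LWU : Prop := S_JME → S_ZER → ∀ (K R : Type) [Field K] [Ring R] (ι : K →+* R) (H : Cf K R ι)
  (g : G R) (n : ℕ), H.LeC n g → (∀ k, k < n → ¬ H.LeC k g) →
  ∀ j ∈ JJ R, ∀ j' ∈ JJ R, H.LeM n (g * j) → H.LeM n (g * j') → j⁻¹ * j' ∈ AA ι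

/-- **GEN** (40 lines). PROOF: induction on `n` with `LeM n g`. `n = 0`: `ZER`. `n + 1`: `h` from `LWA`,
`j` from `LWE` for `g h` and `n`; `g h j` is in the group by induction. -/
def S_GEN : Prop := S_DEP → S_ZER → S_LWA → S_LWE → ∀ (K R : Type) [Field K] [Ring R] (ι : K →+* R)
  (_ : Cf K R ι), AA ι ⊔ JJ R = ⊤

open Classical in
/-- the leading coefficient of the determinant of Dieudonné -/
noncomputable def dl {K R : Type} [Field K] [Ring R] {ι : K →+* R} (H : Cf K R ι) (g : G R) : K :=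
  if (g : Matrix (Fin 2) (Fin 2) R) 0 0 ≠ 0 then
    H.lc ((g : Matrix (Fin 2) (Fin 2) R) 0 0) / H.lc (((g⁻¹ : G R) : Matrix (Fin 2) (Fin 2) R) 1 1)
  else -H.lc ((g : Matrix (Fin 2) (Fin 2) R) 1 0) /
    H.lc (((g⁻¹ : G R) : Matrix (Fin 2) (Fin 2) R) 1 0)

/-- **DLS** (120 lines). PROOF. Let `g = [[a, b], [c, d]]`, `g⁻¹ = [[a', b'], [c', d']]`. (1) `g j` for
`j = [[ι α, e], [0, ι β]]`: the first column is multiplied by `ι α` from the right; the second row of
`j⁻¹ g⁻¹` is `ι β⁻¹ (c', d')`; so `dl` is multiplied by `α β` (`LC`). (2) `g sw` has the first column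
`(b, d)`, and the second row of `(g sw)⁻¹ = sw g⁻¹` is `(a', b')`. `a b' + b d' = 0`: if `a, b ≠ 0` then
`b', d' ≠ 0` (`LC`, no zero divisors, and the second column of `g⁻¹` is not zero), and
`lc a lc b' = - lc b lc d'`, so `dl (g sw) = lc b / lc b' = - lc a / lc d' = - dl g`. If `b = 0`, `a ≠ 0`:
`a a' = 1`, `a b' = 0`, so `b' = 0`, `d d' = 1`, `dl (g sw) = - lc d / lc a' = - lc a / lc d'`. If `a = 0`:
`b ≠ 0`, `b c' = 1`, `b d' = 0`, `d' = 0`, `c b' = 1` and `dl (g sw) = lc b / lc b' = lc b lc c`,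
`dl g = - lc c / lc c' = - lc c lc b`. (3) `dl g ≠ 0` (in the first case `d' ≠ 0`: otherwise
`a b' + b d' = 0` gives `b' = 0`, a zero column; in the second case `b c' = 1`, and `c ≠ 0`). -/
def S_DLS : Prop := S_LC → S_JME → ∀ (K R : Type) [Field K] [Ring R] (ι : K →+* R) (H : Cf K R ι),
  (∀ g j : G R, j ∈ JJ R → ∀ α β : K, (j : Matrix (Fin 2) (Fin 2) R) 0 0 = ι α →
    (j : Matrix (Fin 2) (Fin 2) R) 1 1 = ι β → dl H (g * j) = dl H g * (α * β)) ∧
  (∀ g : G R, dl H (g * sw R) = -dl H g) ∧ ∀ g : G R, dl H g ≠ 0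

/-- **DEL** (80 lines). The homomorphism `Δ`. PROOF: let `M` be the set of the `h` with
`dl (g h) = dl g dl h` for all `g`; it is closed under products, contains `JJ` and `sw` (`DLS`, with
`g = 1` for the values `dl j = α β`, `dl sw = -1`; `dl 1 = 1`), hence `AA` (`BRU`) and everything
(`GEN`; the submonoid generated by the two groups is everything). The value at the scalar matrix with
`z` is `z ^ 2` (`DLS`). -/
def S_DEL : Prop := S_LC → S_JME → S_BRU → S_DLS → ∀ (K R : Type) [Field K] [Ring R] (ι : K →+* R)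
  (_ : Cf K R ι), AA ι ⊔ JJ R = ⊤ → ∃ Δ : G R →* Kˣ, ∀ (z : Kˣ) (g : G R),
    (g : Matrix (Fin 2) (Fin 2) R) = Matrix.diagonal (fun _ => ι z) → Δ g = z ^ 2

/-- **STB** (120 lines). The elements which fix a long path are scalar and constant. PROOF: `g` is upper
triangular over `K`, and lower triangular as `sw⁻¹ g sw` is upper triangular, so
`g = diag (ι a, ι d)`. `j = [[ι α, p], [0, ι β]]` (`JME`), and `p` is not in `ι K` as `j` is not in `AA`
(`ZER`). The upper right entry of `j⁻¹ g j` is `ι α⁻¹ (ι a p - p ι d)`; it is in `ι K`, and `p` has positive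
degree, so `a = d` (leading coefficients, `mul`); `sw⁻¹ (j⁻¹ g j) sw ∈ JJ` says that this entry is zero,
so `ι d p = p ι d` and `δ d = 0` by `CEN`. Then `ι d` commutes with `ι K` and with `x` (`comm`), so with
`R` (`ex`), and `g` is central. -/
def S_STB : Prop := S_CEN → S_JME → S_ZER → ∀ (K R : Type) [Field K] [CharZero K] [Ring R] (ι : K →+* R)
  (x : R) (δ : Derivation ℤ K K), IsDO K R ι x δ → ∀ H : Cf K R ι,
  (∀ (p : Polynomial K) (n : ℕ), H.c n (p.sum fun i a => ι a * x ^ i) = p.coeff n) →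
  ∀ g j : G R, j ∈ JJ R → j ∉ AA ι → g ∈ AA ι → g ∈ JJ R → (sw R)⁻¹ * g * sw R ∈ JJ R →
  j⁻¹ * g * j ∈ AA ι → (sw R)⁻¹ * (j⁻¹ * g * j) * sw R ∈ JJ R →
  (∃ z : K, (g : Matrix (Fin 2) (Fin 2) R) = Matrix.diagonal fun _ => ι z) ∧ ∀ t : G R, t * g = g * t

section ax

variable {K R : Type} [Field K] [Ring R]

/-- the ring `A[x; δ]`, generated by `A` and `x` -/
def AX (A : Type) [CommRing A] [Algebra A K] (ι : K →+* R) (x : R) : Subring R :=
  Subring.closure (Set.range (fun a : A => ι (algebraMap A K a)) ∪ {x})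

end ax

/-- **DNM** (150 lines). PROOF. (1) The elements with coefficients in `A` form a subring (`comm` and
`δ A ⊆ A`), it contains `A` and `x` (coefficients of `x`: the polynomial `X`); conversely
`∑ ι (a_i) x ^ i` is in the closure. (2) Let `s ≠ 0` be a common denominator of the coefficients of `r`:
`ι s * r` is in `AX`. Moreover `x ^ n ι (s ^ (n + 1)) ∈ ι s * AX` by induction:
`x ^ (n + 1) s ^ (n + 2) = x ^ n (s ^ (n + 2) x + (n + 2) s ^ (n + 1) δ s) =
(x ^ n s ^ (n + 1)) (s x + (n + 2) δ s)`. So if `r` has degree `≤ N` then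
`r ι (s ^ (N + 1)) = ∑ ι (a_i) (x ^ i s ^ (i + 1)) s ^ (N - i) ∈ AX`. Take `s ^ (N + 1)` for both. -/
def S_DNM : Prop := ∀ (K R A : Type) [Field K] [Ring R] [CommRing A] [IsDomain A] [Algebra A K]
  [IsFractionRing A K] (ι : K →+* R) (x : R) (δ : Derivation ℤ K K), IsDO K R ι x δ →
  (∀ a : A, ∃ b : A, δ (algebraMap A K a) = algebraMap A K b) → ∀ H : Cf K R ι,
  (∀ (p : Polynomial K) (n : ℕ), H.c n (p.sum fun i a => ι a * x ^ i) = p.coeff n) →
  (∀ r : R, r ∈ AX A ι x ↔ ∀ n, ∃ a : A, H.c n r = algebraMap A K a) ∧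
  ∀ r : R, ∃ s : A, s ≠ 0 ∧ ι (algebraMap A K s) * r ∈ AX A ι x ∧ r * ι (algebraMap A K s) ∈ AX A ι x

/-- **VBD** (100 lines). Bounded denominators. PROOF: by `DNM` (and products) there are `s₁, s₂ ≠ 0` in `A`
such that `ι s₁ * (g⁻¹) i j` and `g i j * ι s₂` are in `AX` for all `i, j`. Let `u = g h g⁻¹`; then
`ι s₁ (g⁻¹ u g) i j ι s₂ = ι (s₁ h_ij s₂)` is in `AX`, so `s₁ s₂ h_ij ∈ A` by the first part of `DNM`
(coefficient `0`, `c0`). -/
def S_VBD : Prop := S_DNM → ∀ (K R A : Type) [Field K] [Ring R] [CommRing A] [IsDomain A] [Algebra A K]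
  [IsFractionRing A K] (ι : K →+* R) (x : R) (δ : Derivation ℤ K K), IsDO K R ι x δ →
  (∀ a : A, ∃ b : A, δ (algebraMap A K a) = algebraMap A K b) → ∀ H : Cf K R ι,
  (∀ (p : Polynomial K) (n : ℕ), H.c n (p.sum fun i a => ι a * x ^ i) = p.coeff n) →
  ∀ g : G R, ∃ s : A, s ≠ 0 ∧ ∀ h : (Matrix (Fin 2) (Fin 2) K)ˣ,
    (∀ i j, ((g * Units.map (ι.mapMatrix (m := Fin 2) : Matrix (Fin 2) (Fin 2) K →* _) h * g⁻¹ : G R) :
      Matrix (Fin 2) (Fin 2) R) i j ∈ AX A ι x) →
    ∀ i j, ∃ r : A, algebraMap A K s * (h : Matrix (Fin 2) (Fin 2) K) i j = algebraMap A K r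

/-- **UDT** (80 lines). The determinants are units. PROOF: let `d = det h`; `s ^ 2 d ^ n ∈ A` for all
integers `n` (`h ^ n` is in the group), so `A[d]` is contained in the module `s⁻² A`, which is
Noetherian; `d` is integral over `A`, so it is in `A`; the same holds for `d⁻¹`. -/
def S_UDT : Prop := ∀ (K A : Type) [Field K] [CommRing A] [IsDomain A] [IsNoetherianRing A]
  [IsIntegrallyClosed A] [Algebra A K] [IsFractionRing A K]
  (P : Subgroup (Matrix.GeneralLinearGroup (Fin 2) K)) (s : A), s ≠ 0 →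
  (∀ h ∈ P, ∀ i j, ∃ r : A, algebraMap A K s * (h : Matrix (Fin 2) (Fin 2) K) i j = algebraMap A K r) →
  ∀ h ∈ P, ∃ u : Aˣ, (h : Matrix (Fin 2) (Fin 2) K).det = algebraMap A K u

end Pool.Agent.T2h61.DO
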