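import Pool.Agent.T2h61.DO.Def

set_option autoImplicit false

namespace Pool.Agent.T2h61.DO

/-- **EXI** (100 lines). The ring `K[x; δ]` exists. PROOF: in the ring `AddMonoid.End (Polynomial K)` let
`L a` be the multiplication with the constant `a` and `T (∑ p_i X^i) = ∑ (p_i X^(i+1) + δ (p_i) X^i)`
(an additive map: `T p = p * X + p.map' δ`, coefficientwise `coeff (T p) n = coeff p (n-1) + δ (coeff p n)`).
Then `T * L a = L a * T + L (δ a)` (Leibniz). Let `R` be the subring generated by all `L a` and `T`. The
additive group `M` generated by the `L a * T ^ i` is closed under multiplication (from the commutation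
rule `T ^ i * L b` is in `M`) and contains `1`, so it is `R`; this is `ex`. `inj`: apply
`∑ L (a_i) T ^ i` to the polynomial `1`: as `T ^ i 1 = X ^ i` (`δ 1 = 0`), the result is `∑ a_i X ^ i`. -/
def S_EXI : Prop := ∀ (K : Type) [Field K] (δ : Derivation ℤ K K),
  ∃ (R : Type) (_ : Ring R) (ι : K →+* R) (x : R), IsDO K R ι x δ

end Pool.Agent.T2h61.DO
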