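import Pool.Agent.T2h61.DO.Stm

/-! Project DO (owner helper61), task ACT: groups with finitely many scalars. -/

set_option autoImplicit false

namespace Pool.Agent.T2h61.DO.ACT

open Pool.Agent.T2h61.DO
open Pool.Agent.Y110.FJ (ClosedE)
open Pool.Agent.N509.TX (AcylF of_fg C_stab)
open Pool.Agent.T2h61.PL (CG)

section

variable {E : Type} [Group E] (A J : Subgroup E)

theorem act (g : E) (u v : (E ⧸ A) ⊕ (E ⧸ J)) (h : (CG A J).Adj u v) :
    (CG A J).Adj (g • u) (g • v) := by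
  obtain ⟨x, h | h⟩ := h
  · obtain ⟨rfl, rfl⟩ := h
    exact ⟨g * x, Or.inl ⟨rfl, rfl⟩⟩
  · obtain ⟨rfl, rfl⟩ := h
    exact ⟨g * x, Or.inr ⟨rfl, rfl⟩⟩

theorem noinv (g : E) (u v : (E ⧸ A) ⊕ (E ⧸ J)) (h : (CG A J).Adj u v) :
    ¬ (g • u = v ∧ g • v = u) := by
  rintro ⟨h1, -⟩
  obtain ⟨x, h | h⟩ := h
  · obtain ⟨rfl, rfl⟩ := h
    have h2 : (Sum.inl ((g * x : E) : E ⧸ A) : (E ⧸ A) ⊕ (E ⧸ J)) = Sum.inr (x : E ⧸ J) := h1
    exact absurd h2 (by simp)
  · obtain ⟨rfl, rfl⟩ := h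
    have h2 : (Sum.inr ((g * x : E) : E ⧸ J) : (E ⧸ A) ⊕ (E ⧸ J)) = Sum.inl (x : E ⧸ A) := h1
    exact absurd h2 (by simp)

theorem stab_inl (x y : E) (h : y • (Sum.inl (x : E ⧸ A) : (E ⧸ A) ⊕ (E ⧸ J)) = Sum.inl (x : E ⧸ A)) :
    x⁻¹ * y * x ∈ A := by
  have h1 : (Sum.inl ((y * x : E) : E ⧸ A) : (E ⧸ A) ⊕ (E ⧸ J)) = Sum.inl (x : E ⧸ A) := h
  have h2 : (x : E ⧸ A) = ((y * x : E) : E ⧸ A) := (Sum.inl.inj h1).symm
  rw [QuotientGroup.eq] at h2
  rwa [mul_assoc]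

theorem stab_inr (x y : E) (h : y • (Sum.inr (x : E ⧸ J) : (E ⧸ A) ⊕ (E ⧸ J)) = Sum.inr (x : E ⧸ J)) :
    x⁻¹ * y * x ∈ J := by
  have h1 : (Sum.inr ((y * x : E) : E ⧸ J) : (E ⧸ A) ⊕ (E ⧸ J)) = Sum.inr (x : E ⧸ J) := h
  have h2 : (x : E ⧸ J) = ((y * x : E) : E ⧸ J) := (Sum.inr.inj h1).symm
  rw [QuotientGroup.eq] at h2
  rwa [mul_assoc]

end

/-- a subgroup which is conjugate into a subgroup in the class -/
theorem conj {C : ∀ (G : Type) [Group G], Prop} (hC : ClosedE C) {E : Type} [Group E]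
    (B P : Subgroup E) (hB : C B) (St : Subgroup P) (x : E)
    (h : ∀ y ∈ St, x⁻¹ * (y : E) * x ∈ B) : C St := by
  refine hC.base.of_injective _ _
    { toFun := fun y => (⟨x⁻¹ * ((y : P) : E) * x, h y y.2⟩ : B)
      map_one' := by
        apply Subtype.ext
        simp
      map_mul' := by
        intro y z
        apply Subtype.ext
        simp [mul_assoc] } ?_ hB
  intro y z hyz
  have h1 : x⁻¹ * ((y : P) : E) * x = x⁻¹ * ((z : P) : E) * x :=
    congrArg (fun b : B => (b : E)) hyz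
  have h3 : ((y : P) : E) = ((z : P) : E) := mul_left_cancel (mul_right_cancel h1)
  exact Subtype.ext (Subtype.ext h3)

/-- the image in the big group -/
theorem img {C : ∀ (G : Type) [Group G], Prop} (hC : ClosedE C) {E : Type} [Group E]
    (P : Subgroup E) (St : Subgroup P) (h : C (St.map P.subtype)) : C St := by
  refine hC.base.of_injective _ _ (St.equivMapOfInjective P.subtype P.subtype_injective).toMonoidHom ?_ h
  exact (St.equivMapOfInjective P.subtype P.subtype_injective).injective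

theorem t_ACT : S_ACT := by
  intro hNRM hBRU hJME hSTB hCEN hZER C hC hM hA K R _ _ _ ι x δ hDO H hH hT P hP hfin
  have hι : Function.Injective ι := by
    intro a b hab
    rw [← H.c0 a, ← H.c0 b, hab]
  obtain ⟨hsw, hbru⟩ := hBRU K R ι hι
  have hV : ∀ v : (G R ⧸ AA ι) ⊕ (G R ⧸ JJ R), C ↥(MulAction.stabilizer P v) := by
    intro v
    rcases v with v | v
    · obtain ⟨g, rfl⟩ := QuotientGroup.mk_surjective v
      refine img hC P _ (hP g _ ?_ ?_)
      · rintro _ ⟨y, -, rfl⟩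
        exact y.2
      · rintro _ ⟨y, hy, rfl⟩
        exact stab_inl (AA ι) (JJ R) g (y : G R) hy
    · obtain ⟨g, rfl⟩ := QuotientGroup.mk_surjective v
      exact conj hC (JJ R) P (hM _ (hJME K R ι H).2) _ g fun y hy => stab_inr (AA ι) (JJ R) g (y : G R) hy
  refine of_fg hC fun Q hQ => ?_
  refine hA Q _ (CG (AA ι) (JJ R)) hQ hT (fun g u v h => act _ _ ((g : P) : G R) u v h)
    (fun g u v h => noinv _ _ ((g : P) : G R) u v h) ⟨7, hfin.toFinset.card, ?_⟩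
    (fun v => C_stab hC Q v (hV v))
  intro u v p hp hlen F hF
  obtain ⟨t, j₁, j₂, h1, h1', h2, h2', hg⟩ := hNRM (G R) (AA ι) (JJ R) (sw R) hsw hbru u v p hp hlen
  have key : ∀ g ∈ F, (∃ z : K, (((g : P) : G R) : Matrix (Fin 2) (Fin 2) R) = Matrix.diagonal fun _ => ι z) ∧
      ∀ t : G R, t * ((g : P) : G R) = ((g : P) : G R) * t := by
    intro g hgF
    obtain ⟨c1, c2, c3, c4, c5, -, -⟩ := hg ((g : P) : G R) fun x hx => hF g hgF x hx
    obtain ⟨⟨z, hz⟩, hcen⟩ := hSTB hCEN hJME hZER K R ι x δ hDO H hH _ j₁ h1 h1' c1 c2 c3 c4 c5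
    have h3 : t * (t⁻¹ * ((g : P) : G R) * t) = (t⁻¹ * ((g : P) : G R) * t) * t := hcen t
    have h4 : t⁻¹ * ((g : P) : G R) * t = ((g : P) : G R) := by
      have h5 : t * (t⁻¹ * ((g : P) : G R) * t) = ((g : P) : G R) * t := by group
      rw [h5] at h3
      exact (mul_right_cancel h3).symm
    rw [h4] at hz hcen
    exact ⟨⟨z, hz⟩, hcen⟩
  refine Finset.card_le_card_of_injOn (fun g : Q => ((g : P) : G R)) ?_ ?_
  · intro g hgF
    exact Finset.mem_coe.2 (hfin.mem_toFinset.2 ⟨(g : P).2, key g hgF⟩)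
  · intro g _ g' _ hgg
    exact Subtype.ext (Subtype.ext hgg)

end Pool.Agent.T2h61.DO.ACT
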