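import Pool.Agent.T2h61.DO.Def

/-! # BRU: the Bruhat decomposition of `GL_2(K)` -/

set_option autoImplicit false

namespace Pool.Agent.T2h61.DO.BRU

open Matrix

variable {K R : Type} [Field K] [Ring R]

/-- the map of the groups -/
abbrev ph (ι : K →+* R) : G K →* G R :=
  Units.map (ι.mapMatrix (m := Fin 2) : Matrix (Fin 2) (Fin 2) K →* _)

theorem ph_apply (ι : K →+* R) (m : G K) (i j : Fin 2) :
    ((ph ι m : G R) : Matrix (Fin 2) (Fin 2) R) i j = ι ((m : Matrix (Fin 2) (Fin 2) K) i j) := rfl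

theorem ph_inv_apply (ι : K →+* R) (m : G K) (i j : Fin 2) :
    (((ph ι m)⁻¹ : G R) : Matrix (Fin 2) (Fin 2) R) i j =
      ι (((m⁻¹ : G K) : Matrix (Fin 2) (Fin 2) K) i j) := by
  rw [← map_inv]
  rfl

theorem ph_sw (ι : K →+* R) : ph ι (sw K) = sw R := by
  apply Units.ext
  ext i j
  rw [ph_apply]
  fin_cases i <;> fin_cases j <;> simp [sw]

/-- upper triangular matrices -/
def tri (u p r : K) (hu : u ≠ 0) (hr : r ≠ 0) : G K where
  val := !![u, p; 0, r]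
  inv := !![u⁻¹, -(u⁻¹ * p * r⁻¹); 0, r⁻¹]
  val_inv := by
    ext i j
    fin_cases i <;> fin_cases j <;> simp [Matrix.mul_apply, Fin.sum_univ_two, hu, hr]
    field_simp
    ring
  inv_val := by
    ext i j
    fin_cases i <;> fin_cases j <;> simp [Matrix.mul_apply, Fin.sum_univ_two, hu, hr]

theorem tri_mem (ι : K →+* R) (u p r : K) (hu : u ≠ 0) (hr : r ≠ 0) :
    ph ι (tri u p r hu hr) ∈ AA ι ⊓ JJ R := by
  refine ⟨⟨_, rfl⟩, ?_, ?_⟩
  · rw [ph_apply]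
    simp [tri]
  · rw [ph_inv_apply]
    have h : (((tri u p r hu hr)⁻¹ : G K) : Matrix (Fin 2) (Fin 2) K) =
        !![u⁻¹, -(u⁻¹ * p * r⁻¹); 0, r⁻¹] := rfl
    rw [h]
    simp

theorem t_BRU : S_BRU := by
  intro K R _ _ ι hι
  refine ⟨⟨sw K, ph_sw ι⟩, ?_⟩
  rintro a ⟨m, rfl⟩ hJ
  obtain ⟨p, hp⟩ : ∃ p : K, p = (m : Matrix (Fin 2) (Fin 2) K) 0 0 := ⟨_, rfl⟩
  obtain ⟨q, hq⟩ : ∃ q : K, q = (m : Matrix (Fin 2) (Fin 2) K) 0 1 := ⟨_, rfl⟩
  obtain ⟨r, hr⟩ : ∃ r : K, r = (m : Matrix (Fin 2) (Fin 2) K) 1 0 := ⟨_, rfl⟩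
  obtain ⟨t, ht⟩ : ∃ t : K, t = (m : Matrix (Fin 2) (Fin 2) K) 1 1 := ⟨_, rfl⟩
  have hm : (m : Matrix (Fin 2) (Fin 2) K) = !![p, q; r, t] := by
    ext i j
    fin_cases i <;> fin_cases j <;> simp [hp, hq, hr, ht]
  have hinv : (m : Matrix (Fin 2) (Fin 2) K) * ((m⁻¹ : G K) : Matrix (Fin 2) (Fin 2) K) = 1 := by
    rw [← Units.val_mul, mul_inv_cancel]
    rfl
  have h10 := congrFun (congrFun hinv 1) 0
  have h11 := congrFun (congrFun hinv 1) 1
  rw [Matrix.mul_apply, Fin.sum_univ_two, ← hr, ← ht] at h10 h11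
  have hr0 : r ≠ 0 := by
    intro h0
    apply hJ
    rw [h0, zero_mul, zero_add] at h10 h11
    have ht0 : t ≠ 0 := by
      intro h1
      rw [h1, zero_mul] at h11
      simp at h11
    have h2 : ((m⁻¹ : G K) : Matrix (Fin 2) (Fin 2) K) 1 0 = 0 := by
      have h3 : t * ((m⁻¹ : G K) : Matrix (Fin 2) (Fin 2) K) 1 0 = 0 := by
        rw [h10]
        simp
      exact (mul_eq_zero.1 h3).resolve_left ht0
    refine ⟨?_, ?_⟩
    · show ((ph ι m : G R) : Matrix (Fin 2) (Fin 2) R) 1 0 = 0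
      rw [ph_apply, ← hr, h0, map_zero]
    · show (((ph ι m)⁻¹ : G R) : Matrix (Fin 2) (Fin 2) R) 1 0 = 0
      rw [ph_inv_apply, h2, map_zero]
  have hdet : p * t - q * r ≠ 0 := by
    intro h0
    have h1 : IsUnit (m : Matrix (Fin 2) (Fin 2) K).det :=
      (Matrix.isUnit_iff_isUnit_det _).1 m.isUnit
    rw [hm, Matrix.det_fin_two_of] at h1
    exact h1.ne_zero h0
  have hu : q - p * t / r ≠ 0 := by
    intro h0
    apply hdet
    have h1 : (q - p * t / r) * r = q * r - p * t := by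
      field_simp
    rw [h0, zero_mul] at h1
    linear_combination h1
  refine ⟨ph ι (tri (q - p * t / r) p r hu hr0), tri_mem ι _ _ _ _ _,
    ph ι (tri 1 (t / r) 1 one_ne_zero one_ne_zero), tri_mem ι _ _ _ _ _, ?_⟩
  have hmK : m = tri (q - p * t / r) p r hu hr0 * sw K * tri 1 (t / r) 1 one_ne_zero one_ne_zero := by
    apply Units.ext
    rw [hm, Units.val_mul, Units.val_mul]
    ext i j
    fin_cases i <;> fin_cases j <;>
      simp [tri, sw, Matrix.mul_apply, Fin.sum_univ_two]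
    · field_simp
      ring
    · field_simp
  show ph ι m = _
  rw [← ph_sw ι, ← map_mul, ← map_mul, ← hmK]

end Pool.Agent.T2h61.DO.BRU
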