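import Pool.Agent.T2h61.DO.Def

set_option autoImplicit false

namespace Pool.Agent.T2h61.DO.CEN

open Pool.Agent.T2h61.DO

section
variable {K R : Type} [Field K] [Ring R] {ι : K →+* R} {x : R} {δ : Derivation ℤ K K}

/-- the coefficients of a monomial -/
theorem c_mono (H : Cf K R ι)
    (hH : ∀ (p : Polynomial K) (n : ℕ), H.c n (p.sum fun i a => ι a * x ^ i) = p.coeff n)
    (m k : ℕ) (a : K) : H.c k (ι a * x ^ m) = if m = k then a else 0 := by
  have h := hH (Polynomial.monomial m a) k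
  rw [Polynomial.sum_monomial_index a _ (by simp), Polynomial.coeff_monomial] at h
  exact h

/-- the commutator with `d` of a power of `x` -/
theorem comm_pow (hD : IsDO K R ι x δ) (H : Cf K R ι)
    (hH : ∀ (p : Polynomial K) (n : ℕ), H.c n (p.sum fun i a => ι a * x ^ i) = p.coeff n)
    (d : K) (m : ℕ) : (∀ i, m < i → H.c i (x ^ (m + 1) * ι d - ι d * x ^ (m + 1)) = 0) ∧
      H.c m (x ^ (m + 1) * ι d - ι d * x ^ (m + 1)) = ((m : K) + 1) * δ d := by
  induction m with
  | zero =>
    have h1 : x ^ (0 + 1) * ι d - ι d * x ^ (0 + 1) = ι (δ d) := by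
      rw [zero_add, pow_one, hD.comm d]
      abel
    rw [h1]
    refine ⟨fun i hi => H.cn _ i hi, ?_⟩
    rw [H.c0]
    simp
  | succ m ih =>
    obtain ⟨ih1, ih2⟩ := ih
    have h1 : x ^ (m + 1 + 1) * ι d - ι d * x ^ (m + 1 + 1) =
        x * (x ^ (m + 1) * ι d - ι d * x ^ (m + 1)) + ι (δ d) * x ^ (m + 1) := by
      have h2 : ι (δ d) = x * ι d - ι d * x := by
        rw [hD.comm d]
        abel
      rw [h2, pow_succ' x (m + 1)]
      noncomm_ring
    have hx : ∀ k, H.c k x = if 1 = k then 1 else 0 := by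
      intro k
      have h3 := c_mono H hH 1 k 1
      rwa [map_one, one_mul, pow_one] at h3
    have hx1 : ∀ i, 1 < i → H.c i x = 0 := by
      intro i hi
      rw [hx, if_neg hi.ne]
    have hmul := H.mul x (x ^ (m + 1) * ι d - ι d * x ^ (m + 1)) 1 m hx1 ih1
    rw [h1]
    refine ⟨?_, ?_⟩
    · intro i hi
      rw [map_add, hmul.2 i (by omega), c_mono H hH, if_neg (by omega), add_zero]
    · have hm1 := hmul.1
      rw [show 1 + m = m + 1 from add_comm _ _, hx, if_pos rfl, ih2] at hm1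
      rw [map_add, hm1, c_mono H hH, if_pos rfl]
      push_cast
      ring

end

theorem t_CEN : S_CEN := by
  intro K R _ _ _ ι x δ hD H hH r d hr hcomm
  obtain ⟨p, hp⟩ := hD.ex r
  have hc : ∀ n, H.c n r = p.coeff n := by
    intro n
    rw [hp, hH]
  unfold Cf.Le at hr
  push Not at hr
  obtain ⟨i, hi, hi2⟩ := hr
  rw [hc] at hi2
  have hdeg : 0 < p.natDegree := lt_of_lt_of_le hi (Polynomial.le_natDegree_of_ne_zero hi2)
  obtain ⟨n, hn⟩ : ∃ n, p.natDegree = n + 1 := ⟨p.natDegree - 1, by omega⟩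
  have hlead : p.coeff (n + 1) ≠ 0 := by
    rw [← hn]
    intro h0
    have h1 : p = 0 := Polynomial.leadingCoeff_eq_zero.1 h0
    rw [h1] at hi2
    simp at hi2
  have hsum : r * ι d - ι d * r =
      ∑ j ∈ p.support, ι (p.coeff j) * (x ^ j * ι d - ι d * x ^ j) := by
    rw [hp, Polynomial.sum_def, Finset.sum_mul, Finset.mul_sum, ← Finset.sum_sub_distrib]
    apply Finset.sum_congr rfl
    intro j _
    have h1 : ι d * ι (p.coeff j) = ι (p.coeff j) * ι d := by
      rw [← map_mul, ← map_mul, mul_comm]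
    rw [mul_sub, ← mul_assoc, ← mul_assoc, ← mul_assoc, h1]
  have h0 : H.c n (r * ι d - ι d * r) = 0 := by
    rw [hcomm, sub_self, map_zero]
  rw [hsum, map_sum, Finset.sum_eq_single (n + 1)] at h0
  · have h1 := comm_pow hD H hH d n
    have h2 := H.mul (ι (p.coeff (n + 1))) (x ^ (n + 1) * ι d - ι d * x ^ (n + 1)) 0 n
      (fun i hi => H.cn _ i hi) h1.1
    rw [zero_add] at h2
    rw [h2.1, H.c0, h1.2] at h0
    rcases mul_eq_zero.1 h0 with h3 | h3
    · exact absurd h3 hlead
    · rcases mul_eq_zero.1 h3 with h4 | h4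
      · exact absurd h4 (Nat.cast_add_one_ne_zero n)
      · exact h4
  · intro j hj hjn
    have hjle : j ≤ n + 1 := by
      rw [← hn]
      exact Polynomial.le_natDegree_of_mem_supp j hj
    rcases j with _ | j
    · rw [pow_zero, one_mul, mul_one, sub_self, mul_zero, map_zero]
    · have h1 := comm_pow hD H hH d j
      have h2 := H.mul (ι (p.coeff (j + 1))) (x ^ (j + 1) * ι d - ι d * x ^ (j + 1)) 0 j
        (fun i hi => H.cn _ i hi) h1.1
      exact h2.2 n (by omega)
  · intro hnot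
    exact absurd (Polynomial.mem_support_iff.2 hlead) hnot

end Pool.Agent.T2h61.DO.CEN
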