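import Pool.Agent.T2h61.DO.Def

/-! # S_CF: the coefficient functions of `K[x; δ]` -/

set_option autoImplicit false

namespace Pool.Agent.T2h61.DO.CF

open Polynomial

section

variable {K R : Type} [Field K] [Ring R] {ι : K →+* R} {x : R} {δ : Derivation ℤ K K}
  (e : K[X] ≃+ R) (he : ∀ (j : ℕ) (a : K), e (monomial j a) = ι a * x ^ j)

/-- the coefficient -/
noncomputable def co (n : ℕ) : R →+ K where
  toFun r := (e.symm r).coeff n
  map_zero' := by rw [map_zero, coeff_zero]
  map_add' r s := by rw [map_add, coeff_add]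

theorem co_apply (n : ℕ) (r : R) : co e n r = (e.symm r).coeff n := rfl

/-- degree less than `i` -/
noncomputable def DD (i : ℕ) : AddSubgroup R where
  carrier := {r | ∀ k, i ≤ k → co e k r = 0}
  zero_mem' := fun k _ => map_zero _
  add_mem' := fun {a b} ha hb k hk => by rw [map_add, ha k hk, hb k hk, add_zero]
  neg_mem' := fun {a} ha k hk => by rw [map_neg, ha k hk, neg_zero]

include he in
theorem co_mon (j : ℕ) (a : K) (k : ℕ) : co e k (ι a * x ^ j) = if j = k then a else 0 := by
  rw [← he, co_apply, e.symm_apply_apply, coeff_monomial]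

include he in
theorem mon_mem {j i : ℕ} (h : j < i) (a : K) : ι a * x ^ j ∈ DD e i := by
  intro k hk
  rw [co_mon e he, if_neg (by omega)]

include he in
theorem rep {t : R} {i : ℕ} (ht : t ∈ DD e i) :
    t = ∑ j ∈ Finset.range i, ι (co e j t) * x ^ j := by
  have h1 : e.symm t = ∑ j ∈ Finset.range i, monomial j (co e j t) := by
    ext k
    rw [finsetSum_coeff]
    simp only [coeff_monomial]
    by_cases hk : k < i
    · rw [Finset.sum_eq_single k (fun b _ hb => if_neg hb)
        (fun h => absurd (Finset.mem_range.2 hk) h), if_pos rfl]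
      rfl
    · rw [Finset.sum_eq_zero fun b hb => if_neg (by
        have := Finset.mem_range.1 hb
        omega)]
      exact ht k (by omega)
  have h2 := congrArg e h1
  rw [e.apply_symm_apply, map_sum] at h2
  rw [h2]
  refine Finset.sum_congr rfl fun j _ => ?_
  rw [he, ← h2]

theorem mono {i j : ℕ} (h : i ≤ j) {t : R} (ht : t ∈ DD e i) : t ∈ DD e j :=
  fun k hk => ht k (h.trans hk)

include he in
theorem x_mul (hc : ∀ a, x * ι a = ι a * x + ι (δ a)) {t : R} {i : ℕ} (ht : t ∈ DD e i) :
    x * t ∈ DD e (i + 1) := by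
  rw [rep e he ht, Finset.mul_sum]
  refine AddSubgroup.sum_mem _ fun j hj => ?_
  have hj' := Finset.mem_range.1 hj
  rw [← mul_assoc, hc, add_mul, mul_assoc, ← pow_succ']
  exact AddSubgroup.add_mem _ (mon_mem e he (by omega) _) (mon_mem e he (by omega) _)

include he in
theorem c_mul {t : R} {i : ℕ} (ht : t ∈ DD e i) (a : K) : ι a * t ∈ DD e i := by
  rw [rep e he ht, Finset.mul_sum]
  refine AddSubgroup.sum_mem _ fun j hj => ?_
  rw [← mul_assoc, ← map_mul]
  exact mon_mem e he (Finset.mem_range.1 hj) _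

include he in
theorem mul_x {t : R} {i : ℕ} (ht : t ∈ DD e i) (n : ℕ) : t * x ^ n ∈ DD e (i + n) := by
  rw [rep e he ht, Finset.sum_mul]
  refine AddSubgroup.sum_mem _ fun j hj => ?_
  have hj' := Finset.mem_range.1 hj
  rw [mul_assoc, ← pow_add]
  exact mon_mem e he (by omega) _

include he in
theorem comm_pow (hc : ∀ a, x * ι a = ι a * x + ι (δ a)) (i : ℕ) (b : K) :
    x ^ i * ι b - ι b * x ^ i ∈ DD e i := by
  induction i with
  | zero =>
    rw [pow_zero, one_mul, mul_one, sub_self]
    exact AddSubgroup.zero_mem _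
  | succ i ih =>
    have h : x ^ (i + 1) * ι b - ι b * x ^ (i + 1) =
        x * (x ^ i * ι b - ι b * x ^ i) + ι (δ b) * x ^ i := by
      rw [mul_sub, ← mul_assoc x (ι b), hc, pow_succ', add_mul, mul_assoc, mul_assoc (ι b)]
      abel
    rw [h]
    exact AddSubgroup.add_mem _ (x_mul e he hc ih) (mon_mem e he (by omega) _)

include he in
theorem key (hc : ∀ a, x * ι a = ι a * x + ι (δ a)) (i j : ℕ) (a b : K) :
    ι a * x ^ i * (ι b * x ^ j) - ι (a * b) * x ^ (i + j) ∈ DD e (i + j) := by
  have h : ι a * x ^ i * (ι b * x ^ j) - ι (a * b) * x ^ (i + j) =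
      ι a * (x ^ i * ι b - ι b * x ^ i) * x ^ j := by
    rw [map_mul, pow_add]
    noncomm_ring
  rw [h]
  exact mul_x e he (c_mul e he (comm_pow e he hc i b) a) j

include he in
theorem co_mul (hc : ∀ a, x * ι a = ι a * x + ι (δ a)) (i j k : ℕ) (hk : i + j ≤ k) (a b : K) :
    co e k (ι a * x ^ i * (ι b * x ^ j)) = if i + j = k then a * b else 0 := by
  have h := key e he hc i j a b k hk
  rw [map_sub, co_mon e he, sub_eq_zero] at h
  exact h

include he in
theorem main (hc : ∀ a, x * ι a = ι a * x + ι (δ a)) (r s : R) (m n : ℕ)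
    (hr : ∀ i, m < i → co e i r = 0) (hs : ∀ i, n < i → co e i s = 0) :
    co e (m + n) (r * s) = co e m r * co e n s ∧ ∀ i, m + n < i → co e i (r * s) = 0 := by
  have hr' : r ∈ DD e (m + 1) := fun k hk => hr k hk
  have hs' : s ∈ DD e (n + 1) := fun k hk => hs k hk
  have hrs : r * s = ∑ i ∈ Finset.range (m + 1), ∑ j ∈ Finset.range (n + 1),
      ι (co e i r) * x ^ i * (ι (co e j s) * x ^ j) := by
    conv_lhs => rw [rep e he hr', rep e he hs', Finset.sum_mul_sum]
  have hk : ∀ k, m + n ≤ k → co e k (r * s) = ∑ i ∈ Finset.range (m + 1),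
      ∑ j ∈ Finset.range (n + 1), if i + j = k then co e i r * co e j s else 0 := by
    intro k hk
    rw [hrs, map_sum]
    refine Finset.sum_congr rfl fun i hi => ?_
    rw [map_sum]
    refine Finset.sum_congr rfl fun j hj => ?_
    have h1 := Finset.mem_range.1 hi
    have h2 := Finset.mem_range.1 hj
    exact co_mul e he hc i j k (by omega) _ _
  constructor
  · rw [hk _ le_rfl, Finset.sum_eq_single m, Finset.sum_eq_single n, if_pos rfl]
    · intro j hj hjn
      have h2 := Finset.mem_range.1 hj
      rw [if_neg (by omega)]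
    · intro h
      exact absurd (Finset.mem_range.2 (Nat.lt_succ_self n)) h
    · intro i hi him
      have h1 := Finset.mem_range.1 hi
      refine Finset.sum_eq_zero fun j hj => ?_
      have h2 := Finset.mem_range.1 hj
      rw [if_neg (by omega)]
    · intro h
      exact absurd (Finset.mem_range.2 (Nat.lt_succ_self m)) h
  · intro k hkk
    rw [hk k hkk.le]
    refine Finset.sum_eq_zero fun i hi => Finset.sum_eq_zero fun j hj => ?_
    have h1 := Finset.mem_range.1 hi
    have h2 := Finset.mem_range.1 hj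
    rw [if_neg (by omega)]

end

theorem t_CF : S_CF := by
  intro K R _ _ ι x δ hD
  have hsum : ∀ p : K[X], (p.sum fun i a => ι a * x ^ i) = eval₂AddMonoidHom ι x p := by
    intro p
    rw [eval₂AddMonoidHom_apply, eval₂_eq_sum]
  have hinj : Function.Injective (eval₂AddMonoidHom ι x) := by
    rw [injective_iff_map_eq_zero]
    intro p hp
    exact hD.inj p (by rw [hsum, hp])
  have hsur : Function.Surjective (eval₂AddMonoidHom ι x) := by
    intro r
    obtain ⟨p, hp⟩ := hD.ex r
    exact ⟨p, by rw [← hsum, ← hp]⟩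
  let e : K[X] ≃+ R := AddEquiv.ofBijective (eval₂AddMonoidHom ι x) ⟨hinj, hsur⟩
  have hee : ∀ p, e p = eval₂AddMonoidHom ι x p := fun p => rfl
  have he : ∀ (j : ℕ) (a : K), e (monomial j a) = ι a * x ^ j := by
    intro j a
    rw [hee, eval₂AddMonoidHom_apply, eval₂_monomial]
  have he0 : ∀ a : K, e (C a) = ι a := by
    intro a
    rw [hee, eval₂AddMonoidHom_apply, eval₂_C]
  have hs0 : ∀ a : K, e.symm (ι a) = C a := by
    intro a
    rw [← he0, e.symm_apply_apply]
  refine ⟨{
    c := co e
    fin := fun r => ⟨(e.symm r).natDegree, fun n hn => coeff_eq_zero_of_natDegree_lt hn⟩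
    ext0 := fun r hr => ?_
    const := fun r hr => ?_
    c0 := fun a => ?_
    cn := fun a n hn => ?_
    mul := fun r s m n hr hs => main e he hD.comm r s m n hr hs
    mono := fun n a => ⟨ι a * x ^ n, fun i hi => ?_, ?_⟩ }, fun p n => ?_⟩
  · have h1 : e.symm r = 0 := by
      ext k
      rw [coeff_zero]
      exact hr k
    have h2 := congrArg e h1
    rwa [e.apply_symm_apply, map_zero] at h2
  · have h1 : e.symm r = C ((e.symm r).coeff 0) := by
      ext k
      rw [coeff_C]
      by_cases hk : k = 0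
      · rw [if_pos hk, hk]
      · rw [if_neg hk]
        exact hr k (Nat.pos_of_ne_zero hk)
    have h2 := congrArg e h1
    rw [e.apply_symm_apply, he0] at h2
    exact h2
  · rw [co_apply, hs0, coeff_C, if_pos rfl]
  · rw [co_apply, hs0, coeff_C, if_neg (by omega)]
  · rw [co_mon e he, if_neg (by omega)]
  · rw [co_mon e he, if_pos rfl]
  · change co e n (p.sum fun i a => ι a * x ^ i) = p.coeff n
    rw [hsum, ← hee, co_apply, e.symm_apply_apply]

end Pool.Agent.T2h61.DO.CF
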