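import Mathlib
import Pool.Agent.T2h61.DO.Def

/-! # DEL: the determinant -/

set_option autoImplicit false

namespace Pool.Agent.T2h61.DO.DEL

open Matrix

theorem nontriv {K R : Type} [Field K] [Ring R] {ι : K →+* R} (H : Cf K R ι) : (1 : R) ≠ 0 := by
  intro h
  have h1 : ι (1 : K) = ι 0 := by rw [map_one, map_zero, h]
  have h2 := H.c0 1
  rw [h1, H.c0 0] at h2
  exact one_ne_zero h2.symm

theorem t_DEL : S_DEL := by
  intro hLC hJME hBRU hDLS K R _ _ ι H htop
  obtain ⟨l1, l2, l3, l4, l5⟩ := hLC K R ι H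
  obtain ⟨jm, -⟩ := hJME K R ι H
  obtain ⟨d1, d2, d3⟩ := hDLS hLC hJME K R ι H
  have hR := nontriv H
  have hinj : Function.Injective ι := by
    intro a b hab
    have := congrArg (H.c 0) hab
    rwa [H.c0, H.c0] at this
  obtain ⟨hsw, hbru⟩ := hBRU K R ι hinj
  have hl1 : H.lc (1 : R) = 1 := by
    have := l3 1
    rwa [map_one] at this
  have hone : dl H (1 : G R) = 1 := by
    unfold dl
    simp [hR, hl1]
  let M : Subgroup (G R) :=
    { carrier := {h | ∀ g, dl H (g * h) = dl H g * dl H h}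
      mul_mem' := by
        intro a b ha hb g
        have h1 := ha g
        have h2 := hb (g * a)
        have h3 := hb a
        rw [← mul_assoc, h2, h1, h3]
        ring
      one_mem' := by
        intro g
        rw [mul_one, hone, mul_one]
      inv_mem' := by
        intro a ha g
        have h1 := ha (g * a⁻¹)
        have h2 := ha a⁻¹
        rw [inv_mul_cancel_right] at h1
        rw [inv_mul_cancel, hone] at h2
        have h3 := d3 a
        have h4 : dl H a⁻¹ = (dl H a)⁻¹ := by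
          field_simp
          exact h2.symm
        rw [h4, h1]
        field_simp }
  have hJ : JJ R ≤ M := by
    intro j hj g
    obtain ⟨α, β, -, -, hα, hβ⟩ := jm j hj
    have h1 := d1 g j hj α β hα hβ
    have h2 := d1 1 j hj α β hα hβ
    rw [one_mul, hone, one_mul] at h2
    rw [h1, h2]
  have hS : sw R ∈ M := by
    intro g
    have h1 := d2 g
    have h2 := d2 1
    rw [one_mul, hone] at h2
    rw [h1, h2]
    ring
  have hA : AA ι ≤ M := by
    intro a ha
    by_cases haJ : a ∈ JJ R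
    · exact hJ haJ
    · obtain ⟨b, hb, b', hb', hab⟩ := hbru a ha haJ
      rw [hab]
      exact M.mul_mem (M.mul_mem (hJ hb.2) hS) (hJ hb'.2)
  have hM : M = ⊤ := top_le_iff.1 (htop ▸ sup_le hA hJ)
  have hmul : ∀ g h : G R, dl H (g * h) = dl H g * dl H h := by
    intro g h
    have : h ∈ M := by rw [hM]; trivial
    exact this g
  let Δ0 : G R →* K :=
    { toFun := dl H
      map_one' := hone
      map_mul' := hmul }
  refine ⟨MonoidHom.toHomUnits Δ0, fun z g hg => ?_⟩
  have e00 : (g : Matrix (Fin 2) (Fin 2) R) 0 0 = ι z := by rw [hg]; simp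
  have e11 : (g : Matrix (Fin 2) (Fin 2) R) 1 1 = ι z := by rw [hg]; simp
  have e10 : (g : Matrix (Fin 2) (Fin 2) R) 1 0 = 0 := by rw [hg]; simp
  have hgJ : g ∈ JJ R := by
    refine ⟨e10, ?_⟩
    have h1 : ((g⁻¹ : G R) : Matrix (Fin 2) (Fin 2) R) * (g : Matrix (Fin 2) (Fin 2) R) = 1 := by
      rw [← Units.val_mul, inv_mul_cancel, Units.val_one]
    have h2 := congrFun (congrFun h1 1) 0
    rw [Matrix.mul_apply, Fin.sum_univ_two, e00, e10, mul_zero, add_zero] at h2
    have h3 : ((1 : Matrix (Fin 2) (Fin 2) R)) 1 0 = 0 := by simp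
    rw [h3] at h2
    have h4 : ι (z : K) * ι ((z : K)⁻¹) = 1 := by
      rw [← map_mul, mul_inv_cancel₀ z.ne_zero, map_one]
    calc ((g⁻¹ : G R) : Matrix (Fin 2) (Fin 2) R) 1 0 =
        ((g⁻¹ : G R) : Matrix (Fin 2) (Fin 2) R) 1 0 * (ι (z : K) * ι ((z : K)⁻¹)) := by
          rw [h4, mul_one]
      _ = 0 := by rw [← mul_assoc, h2, zero_mul]
  have h5 := d1 1 g hgJ z z e00 e11
  rw [one_mul, hone, one_mul] at h5
  ext
  rw [MonoidHom.coe_toHomUnits]
  show dl H g = ((z ^ 2 : Kˣ) : K)
  rw [h5, Units.val_pow_eq_pow_val, sq]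

end Pool.Agent.T2h61.DO.DEL
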