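import Pool.Agent.T2h61.DO.Def

/-!
# DEP: the leading vectors of the columns of an invertible matrix are dependent
-/

set_option autoImplicit false

namespace Pool.Agent.T2h61.DO.DEP

open Matrix Pool.Agent.T2h61.DO

variable {K R : Type} [Field K] [Ring R] {ι : K →+* R}

/-- the coefficient of `g * r` at `q` -/
theorem coeff_mul (H : Cf K R ι) (g r : R) (n q : ℕ) (hg : H.Le n g)
    (hr : ∀ i, q < i + n → H.c i r = 0) :
    H.c q (g * r) = H.c n g * (if n ≤ q then H.c (q - n) r else 0) := by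
  by_cases h : n ≤ q
  · rw [if_pos h]
    have h1 := (H.mul g r n (q - n) hg (fun i hi => hr i (by omega))).1
    rwa [Nat.add_sub_cancel' h] at h1
  · rw [if_neg h, mul_zero]
    have h1 : r = 0 := H.ext0 r fun i => hr i (by omega)
    rw [h1, mul_zero, map_zero]

theorem key (H : Cf K R ι) (g00 g01 g10 g11 r s : R) (n m : ℕ)
    (h00 : H.Le n g00) (h10 : H.Le n g10) (h01 : H.Le m g01) (h11 : H.Le m g11)
    (hD : H.c n g00 * H.c m g11 - H.c n g10 * H.c m g01 ≠ 0)
    (e0 : H.Le 0 (g00 * r + g01 * s)) (e1 : H.Le 0 (g10 * r + g11 * s)) :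
    (0 < n → r = 0) ∧ (0 < m → s = 0) := by
  classical
  have hex : ∃ q : ℕ, (∀ i, q < i + n → H.c i r = 0) ∧ (∀ i, q < i + m → H.c i s = 0) := by
    obtain ⟨N, hN⟩ := H.fin r
    obtain ⟨M, hM⟩ := H.fin s
    exact ⟨N + M + n + m, fun i hi => hN i (by omega), fun i hi => hM i (by omega)⟩
  obtain ⟨q, ⟨hq1, hq2⟩, hmin⟩ : ∃ q : ℕ, ((∀ i, q < i + n → H.c i r = 0) ∧
      (∀ i, q < i + m → H.c i s = 0)) ∧ ∀ p < q, ¬ ((∀ i, p < i + n → H.c i r = 0) ∧
      (∀ i, p < i + m → H.c i s = 0)) :=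
    ⟨Nat.find hex, Nat.find_spec hex, fun p hp => Nat.find_min hex hp⟩
  rcases Nat.eq_zero_or_pos q with hq | hq
  · subst hq
    exact ⟨fun hn => H.ext0 r fun i => hq1 i (by omega), fun hm => H.ext0 s fun i => hq2 i (by omega)⟩
  · exfalso
    have hc0 := e0 q hq
    have hc1 := e1 q hq
    rw [map_add, coeff_mul H g00 r n q h00 hq1, coeff_mul H g01 s m q h01 hq2] at hc0
    rw [map_add, coeff_mul H g10 r n q h10 hq1, coeff_mul H g11 s m q h11 hq2] at hc1
    set α := (if n ≤ q then H.c (q - n) r else 0) with hα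
    set β := (if m ≤ q then H.c (q - m) s else 0) with hβ
    have ha : (H.c n g00 * H.c m g11 - H.c n g10 * H.c m g01) * α = 0 := by
      linear_combination H.c m g11 * hc0 - H.c m g01 * hc1
    have hb : (H.c n g00 * H.c m g11 - H.c n g10 * H.c m g01) * β = 0 := by
      linear_combination H.c n g00 * hc1 - H.c n g10 * hc0
    have ha0 : α = 0 := (mul_eq_zero.1 ha).resolve_left hD
    have hb0 : β = 0 := (mul_eq_zero.1 hb).resolve_left hD
    refine hmin (q - 1) (by omega) ⟨fun i hi => ?_, fun i hi => ?_⟩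
    · by_cases h : q < i + n
      · exact hq1 i h
      · have h1 : i + n = q := by omega
        have h2 : n ≤ q := by omega
        rw [hα, if_pos h2] at ha0
        have h3 : q - n = i := by omega
        rwa [h3] at ha0
    · by_cases h : q < i + m
      · exact hq2 i h
      · have h2 : m ≤ q := by omega
        rw [hβ, if_pos h2] at hb0
        have h3 : q - m = i := by omega
        rwa [h3] at hb0

theorem t_DEP : S_DEP := by
  intro K R _ _ ι H g n m hnm h00 h10 h01 h11
  by_contra hne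
  have hD : H.c n ((g : Matrix (Fin 2) (Fin 2) R) 0 0) * H.c m ((g : Matrix (Fin 2) (Fin 2) R) 1 1) -
      H.c n ((g : Matrix (Fin 2) (Fin 2) R) 1 0) * H.c m ((g : Matrix (Fin 2) (Fin 2) R) 0 1) ≠ 0 :=
    sub_ne_zero.2 hne
  have hone : ∀ i, 0 < i → H.c i (1 : R) = 0 := by
    intro i hi
    have := H.cn 1 i hi
    rwa [map_one] at this
  have h1ne : (1 : R) ≠ 0 := by
    intro h
    have h1 := H.c0 1
    rw [map_one, h, map_zero] at h1
    exact zero_ne_one h1
  have hle : ∀ i j : Fin 2, H.Le 0 ((1 : Matrix (Fin 2) (Fin 2) R) i j) := by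
    intro i j t ht
    rw [Matrix.one_apply]
    split_ifs
    · exact hone t ht
    · exact map_zero _
  have hmul : (g : Matrix (Fin 2) (Fin 2) R) * ((g⁻¹ : G R) : Matrix (Fin 2) (Fin 2) R) = 1 := by
    rw [← Units.val_mul, mul_inv_cancel, Units.val_one]
  have hmul' : ((g⁻¹ : G R) : Matrix (Fin 2) (Fin 2) R) * (g : Matrix (Fin 2) (Fin 2) R) = 1 := by
    rw [← Units.val_mul, inv_mul_cancel, Units.val_one]
  have hcol : ∀ j : Fin 2, (0 < n → ((g⁻¹ : G R) : Matrix (Fin 2) (Fin 2) R) 0 j = 0) ∧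
      (0 < m → ((g⁻¹ : G R) : Matrix (Fin 2) (Fin 2) R) 1 j = 0) := by
    intro j
    refine key H _ _ _ _ _ _ n m h00 h10 h01 h11 hD ?_ ?_
    · have h := congrFun (congrFun hmul 0) j
      rw [Matrix.mul_apply, Fin.sum_univ_two] at h
      rw [h]
      exact hle 0 j
    · have h := congrFun (congrFun hmul 1) j
      rw [Matrix.mul_apply, Fin.sum_univ_two] at h
      rw [h]
      exact hle 1 j
  rcases Nat.eq_zero_or_pos n with hn | hn
  · have hm : 0 < m := by omega
    have h := congrFun (congrFun hmul' 1) 1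
    rw [Matrix.mul_apply, Fin.sum_univ_two, (hcol 0).2 hm, (hcol 1).2 hm, zero_mul, zero_mul,
      add_zero, Matrix.one_apply_eq] at h
    exact h1ne h.symm
  · have h := congrFun (congrFun hmul' 0) 0
    rw [Matrix.mul_apply, Fin.sum_univ_two, (hcol 0).1 hn, (hcol 1).1 hn, zero_mul, zero_mul,
      add_zero, Matrix.one_apply_eq] at h
    exact h1ne h.symm

end Pool.Agent.T2h61.DO.DEP
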