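import Pool.Agent.T2h61.DO.Def

/-! Task DLS (helper60). -/

set_option autoImplicit false

namespace Pool.Agent.T2h61.DO.DLS

open Pool.Agent.T2h61.DO

section

variable {K R : Type} [Field K] [Ring R]

/-- the eight relations -/
theorem rel (g : G R) :
    ((g : Matrix (Fin 2) (Fin 2) R) 0 0 * ((g⁻¹ : G R) : Matrix (Fin 2) (Fin 2) R) 0 0 +
      (g : Matrix (Fin 2) (Fin 2) R) 0 1 * ((g⁻¹ : G R) : Matrix (Fin 2) (Fin 2) R) 1 0 = 1) ∧
    ((g : Matrix (Fin 2) (Fin 2) R) 0 0 * ((g⁻¹ : G R) : Matrix (Fin 2) (Fin 2) R) 0 1 +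
      (g : Matrix (Fin 2) (Fin 2) R) 0 1 * ((g⁻¹ : G R) : Matrix (Fin 2) (Fin 2) R) 1 1 = 0) ∧
    ((g : Matrix (Fin 2) (Fin 2) R) 1 0 * ((g⁻¹ : G R) : Matrix (Fin 2) (Fin 2) R) 0 1 +
      (g : Matrix (Fin 2) (Fin 2) R) 1 1 * ((g⁻¹ : G R) : Matrix (Fin 2) (Fin 2) R) 1 1 = 1) ∧
    (((g⁻¹ : G R) : Matrix (Fin 2) (Fin 2) R) 0 0 * (g : Matrix (Fin 2) (Fin 2) R) 0 0 +
      ((g⁻¹ : G R) : Matrix (Fin 2) (Fin 2) R) 0 1 * (g : Matrix (Fin 2) (Fin 2) R) 1 0 = 1) ∧
    (((g⁻¹ : G R) : Matrix (Fin 2) (Fin 2) R) 1 0 * (g : Matrix (Fin 2) (Fin 2) R) 0 1 +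
      ((g⁻¹ : G R) : Matrix (Fin 2) (Fin 2) R) 1 1 * (g : Matrix (Fin 2) (Fin 2) R) 1 1 = 1) := by
  have h1 : (g : Matrix (Fin 2) (Fin 2) R) * ((g⁻¹ : G R) : Matrix (Fin 2) (Fin 2) R) = 1 :=
    Units.mul_inv g
  have h2 : ((g⁻¹ : G R) : Matrix (Fin 2) (Fin 2) R) * (g : Matrix (Fin 2) (Fin 2) R) = 1 :=
    Units.inv_mul g
  have e1 := congrFun (congrFun h1 0) 0
  have e2 := congrFun (congrFun h1 0) 1
  have e3 := congrFun (congrFun h1 1) 1
  have e4 := congrFun (congrFun h2 0) 0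
  have e5 := congrFun (congrFun h2 1) 1
  rw [Matrix.mul_apply, Fin.sum_univ_two] at e1 e2 e3 e4 e5
  refine ⟨?_, ?_, ?_, ?_, ?_⟩
  · rw [e1]; exact Matrix.one_apply_eq 0
  · rw [e2]; exact Matrix.one_apply_ne (by decide)
  · rw [e3]; exact Matrix.one_apply_eq 1
  · rw [e4]; exact Matrix.one_apply_eq 0
  · rw [e5]; exact Matrix.one_apply_eq 1

theorem sw_col (g : G R) (i : Fin 2) :
    ((g * sw R : G R) : Matrix (Fin 2) (Fin 2) R) i 0 = (g : Matrix (Fin 2) (Fin 2) R) i 1 := by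
  rw [Units.val_mul, Matrix.mul_apply, Fin.sum_univ_two]
  simp [sw]

theorem sw_row (g : G R) (k : Fin 2) :
    (((g * sw R)⁻¹ : G R) : Matrix (Fin 2) (Fin 2) R) 1 k =
      ((g⁻¹ : G R) : Matrix (Fin 2) (Fin 2) R) 0 k := by
  have h : (((sw R)⁻¹ : G R) : Matrix (Fin 2) (Fin 2) R) = !![0, 1; 1, 0] := rfl
  rw [_root_.mul_inv_rev, Units.val_mul, Matrix.mul_apply, Fin.sum_univ_two, h]
  simp

end

theorem t_DLS : S_DLS := by
  intro hLC _ K R _ _ ι H
  obtain ⟨lne, lmul, lio, lneg, nzd⟩ := hLC K R ι H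
  have l1 : H.lc 1 = 1 := by
    have := lio 1
    rwa [map_one] at this
  have l0 : H.lc 0 = 0 := by
    have := lio 0
    rwa [map_zero] at this
  have h10 : (1 : R) ≠ 0 := by
    intro h
    rw [h, l0] at l1
    exact zero_ne_one l1
  -- the second entry of the second column of the inverse
  have hd : ∀ g : G R, (g : Matrix (Fin 2) (Fin 2) R) 0 0 ≠ 0 →
      ((g⁻¹ : G R) : Matrix (Fin 2) (Fin 2) R) 1 1 ≠ 0 := by
    intro g ha hd
    obtain ⟨e1, e2, e3, e4, e5⟩ := rel g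
    rw [hd, mul_zero, add_zero] at e2 e3
    rcases nzd _ _ e2 with h | h
    · exact ha h
    · rw [h, mul_zero] at e3
      exact h10 e3.symm
  refine ⟨?_, ?_, ?_⟩
  · intro g j hj α β hα hβ
    obtain ⟨j1, j2⟩ := hj
    obtain ⟨e1, e2, e3, e4, e5⟩ := rel j
    rw [hα, j1, mul_zero, add_zero] at e4
    rw [hβ, j2, zero_mul, zero_add] at e5
    have a1 : H.lc (((j⁻¹ : G R) : Matrix (Fin 2) (Fin 2) R) 0 0) * α = 1 := by
      have := congrArg H.lc e4
      rwa [lmul, lio, l1] at this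
    have b1 : H.lc (((j⁻¹ : G R) : Matrix (Fin 2) (Fin 2) R) 1 1) * β = 1 := by
      have := congrArg H.lc e5
      rwa [lmul, lio, l1] at this
    have α0 : α ≠ 0 := right_ne_zero_of_mul_eq_one a1
    have β0 : β ≠ 0 := right_ne_zero_of_mul_eq_one b1
    have b2 : H.lc (((j⁻¹ : G R) : Matrix (Fin 2) (Fin 2) R) 1 1) = β⁻¹ :=
      eq_inv_of_mul_eq_one_left b1
    have ια : ι α ≠ 0 := by
      intro h
      have := lio α
      rw [h, l0] at this
      exact α0 this.symm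
    have col : ∀ i, ((g * j : G R) : Matrix (Fin 2) (Fin 2) R) i 0 =
        (g : Matrix (Fin 2) (Fin 2) R) i 0 * ι α := by
      intro i
      rw [Units.val_mul, Matrix.mul_apply, Fin.sum_univ_two, hα, j1, mul_zero, add_zero]
    have row : ∀ k, (((g * j)⁻¹ : G R) : Matrix (Fin 2) (Fin 2) R) 1 k =
        ((j⁻¹ : G R) : Matrix (Fin 2) (Fin 2) R) 1 1 *
          ((g⁻¹ : G R) : Matrix (Fin 2) (Fin 2) R) 1 k := by
      intro k
      rw [_root_.mul_inv_rev, Units.val_mul, Matrix.mul_apply, Fin.sum_univ_two, j2, zero_mul,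
        zero_add]
    unfold dl
    rw [col, col, row, row, lmul, lmul, lmul, lmul, lio, b2]
    by_cases ha : (g : Matrix (Fin 2) (Fin 2) R) 0 0 = 0
    · rw [if_neg (by rw [ha, zero_mul]; simp), if_neg (by rw [ha]; simp)]
      rw [div_eq_mul_inv, div_eq_mul_inv, mul_inv, inv_inv]
      ring
    · have ha' : (g : Matrix (Fin 2) (Fin 2) R) 0 0 * ι α ≠ 0 := by
        intro h
        rcases nzd _ _ h with h | h
        · exact ha h
        · exact ια h
      rw [if_pos ha', if_pos ha]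
      rw [div_eq_mul_inv, div_eq_mul_inv, mul_inv, inv_inv]
      ring
  · intro g
    obtain ⟨e1, e2, e3, e4, e5⟩ := rel g
    have hdg := hd g
    unfold dl
    rw [sw_col, sw_col, sw_row, sw_row]
    generalize (g : Matrix (Fin 2) (Fin 2) R) 0 0 = a at *
    generalize (g : Matrix (Fin 2) (Fin 2) R) 0 1 = b at *
    generalize (g : Matrix (Fin 2) (Fin 2) R) 1 0 = c at *
    generalize (g : Matrix (Fin 2) (Fin 2) R) 1 1 = d at *
    generalize ((g⁻¹ : G R) : Matrix (Fin 2) (Fin 2) R) 0 0 = a' at *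
    generalize ((g⁻¹ : G R) : Matrix (Fin 2) (Fin 2) R) 0 1 = b' at *
    generalize ((g⁻¹ : G R) : Matrix (Fin 2) (Fin 2) R) 1 0 = c' at *
    generalize ((g⁻¹ : G R) : Matrix (Fin 2) (Fin 2) R) 1 1 = d' at *
    by_cases ha : a = 0
    · subst ha
      rw [zero_mul, zero_add] at e1 e2
      have hb : b ≠ 0 := by
        rintro rfl
        rw [zero_mul] at e1
        exact h10 e1.symm
      have hd' : d' = 0 := (nzd _ _ e2).resolve_left hb
      subst hd'
      rw [mul_zero, add_zero] at e3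
      have f1 := congrArg H.lc e1
      have f3 := congrArg H.lc e3
      rw [lmul, l1] at f1 f3
      rw [if_pos hb, if_neg (by simp)]
      have x1 : H.lc c' ≠ 0 := right_ne_zero_of_mul_eq_one f1
      have x3 : H.lc b' ≠ 0 := right_ne_zero_of_mul_eq_one f3
      rw [neg_div, neg_neg, div_eq_div_iff x3 x1, f1, f3]
    · by_cases hb : b = 0
      · subst hb
        rw [zero_mul, add_zero] at e1 e2
        have hb' : b' = 0 := (nzd _ _ e2).resolve_left ha
        subst hb'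
        rw [mul_zero, zero_add] at e3
        have f1 := congrArg H.lc e1
        have f3 := congrArg H.lc e3
        rw [lmul, l1] at f1 f3
        rw [if_neg (by simp), if_pos ha]
        have x1 : H.lc a' ≠ 0 := right_ne_zero_of_mul_eq_one f1
        have x3 : H.lc d' ≠ 0 := right_ne_zero_of_mul_eq_one f3
        rw [neg_div, neg_inj, div_eq_div_iff x1 x3, f1, f3]
      · have hd' : d' ≠ 0 := hdg ha
        have hb' : b' ≠ 0 := by
          rintro rfl
          rw [mul_zero, zero_add] at e2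
          rcases nzd _ _ e2 with h | h
          · exact hb h
          · exact hd' h
        have f2 : H.lc a * H.lc b' = -(H.lc b * H.lc d') := by
          rw [← lmul, ← lmul, ← lneg]
          exact congrArg H.lc (eq_neg_of_add_eq_zero_left e2)
        rw [if_pos hb, if_pos ha]
        have x1 := lne _ hb'
        have x3 := lne _ hd'
        rw [← neg_div, div_eq_div_iff x1 x3, neg_mul, f2, neg_neg]
  · intro g
    unfold dl
    by_cases ha : (g : Matrix (Fin 2) (Fin 2) R) 0 0 = 0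
    · rw [if_neg (by rw [ha]; simp)]
      obtain ⟨e1, e2, e3, e4, e5⟩ := rel g
      rw [ha, zero_mul, zero_add] at e1
      rw [ha, mul_zero, zero_add] at e4
      have c0 : (g : Matrix (Fin 2) (Fin 2) R) 1 0 ≠ 0 := by
        intro h
        rw [h, mul_zero] at e4
        exact h10 e4.symm
      have c1 : ((g⁻¹ : G R) : Matrix (Fin 2) (Fin 2) R) 1 0 ≠ 0 := by
        intro h
        rw [h, mul_zero] at e1
        exact h10 e1.symm
      exact div_ne_zero (neg_ne_zero.2 (lne _ c0)) (lne _ c1)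
    · rw [if_pos ha]
      exact div_ne_zero (lne _ ha) (lne _ (hd g ha))

end Pool.Agent.T2h61.DO.DLS
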