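import Pool.Agent.T2h61.DO.Def

/-! Project DO, task DNM: integral coefficients and denominators. -/

set_option autoImplicit false

namespace Pool.Agent.T2h61.DO.DNM

open Pool.Agent.T2h61.DO Polynomial

section

variable {K R A : Type} [Field K] [Ring R] [CommRing A] [IsDomain A] [Algebra A K]

/-- the element with given coefficients -/
noncomputable def E (ι : K →+* R) (x : R) (p : Polynomial K) : R := p.sum fun i a => ι a * x ^ i

theorem E_add (ι : K →+* R) (x : R) (p q : Polynomial K) :
    E ι x (p + q) = E ι x p + E ι x q := by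
  unfold E
  refine Polynomial.sum_add_index p q _ (fun i => by simp) (fun i a b => ?_)
  rw [map_add, add_mul]

theorem E_mon (ι : K →+* R) (x : R) (n : ℕ) (a : K) :
    E ι x (monomial n a) = ι a * x ^ n := by
  unfold E
  exact Polynomial.sum_monomial_index a _ (by simp)

/-- multiplication by a constant -/
theorem C_mul_E (ι : K →+* R) (x : R) (b : K) (p : Polynomial K) :
    ι b * E ι x p = E ι x (C b * p) := by
  induction p using Polynomial.induction_on' with
  | add p q hp hq => rw [E_add, mul_add, hp, hq, mul_add, E_add]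
  | monomial n a => rw [E_mon, C_mul_monomial, E_mon, map_mul, mul_assoc]

/-- the coefficients after left multiplication by `x` -/
theorem x_mul_E (ι : K →+* R) (x : R) (δ : Derivation ℤ K K) (h : IsDO K R ι x δ)
    (p : Polynomial K) :
    ∃ q : Polynomial K, x * E ι x p = E ι x q ∧ q.coeff 0 = δ (p.coeff 0) ∧
      ∀ n, q.coeff (n + 1) = p.coeff n + δ (p.coeff (n + 1)) := by
  induction p using Polynomial.induction_on' with
  | add p q hp hq =>
    obtain ⟨p', hp1, hp2, hp3⟩ := hp
    obtain ⟨q', hq1, hq2, hq3⟩ := hq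
    refine ⟨p' + q', ?_, ?_, fun n => ?_⟩
    · rw [E_add, mul_add, hp1, hq1, E_add]
    · rw [coeff_add, coeff_add, hp2, hq2, map_add]
    · rw [coeff_add, hp3, hq3, coeff_add, coeff_add, map_add]
      ring
  | monomial m a =>
    refine ⟨monomial (m + 1) a + monomial m (δ a), ?_, ?_, fun n => ?_⟩
    · rw [E_add, E_mon, E_mon, E_mon, ← mul_assoc, h.comm, add_mul, pow_succ', mul_assoc]
    · rw [coeff_add, coeff_monomial, coeff_monomial, coeff_monomial, if_neg (by omega), zero_add]
      split_ifs
      · rfl
      · rw [map_zero]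
    · rw [coeff_add, coeff_monomial, coeff_monomial, coeff_monomial, coeff_monomial]
      congr 1
      · by_cases h1 : m = n
        · rw [if_pos h1, if_pos (by omega)]
        · rw [if_neg h1, if_neg (by omega)]
      · by_cases h1 : m = n + 1
        · rw [if_pos h1, if_pos h1]
        · rw [if_neg h1, if_neg h1, map_zero]

end

theorem t_DNM : S_DNM := by
  classical
  intro K R A _ _ _ _ _ _ ι x δ hD hδ H hH
  have hH' : ∀ (p : Polynomial K) (n : ℕ), H.c n (E ι x p) = p.coeff n := hH
  have hex : ∀ r : R, ∃ p : Polynomial K, r = E ι x p := hD.ex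
  have hX : x ∈ AX A ι x := Subring.subset_closure (Or.inr rfl)
  have hA : ∀ a : A, ι (algebraMap A K a) ∈ AX A ι x := fun a =>
    Subring.subset_closure (Or.inl ⟨a, rfl⟩)
  -- part one
  have h1 : ∀ r : R, r ∈ AX A ι x ↔ ∀ n, ∃ a : A, H.c n r = algebraMap A K a := by
    intro r
    constructor
    · intro hr
      have key : ∀ t : R, (∀ n, ∃ a : A, H.c n t = algebraMap A K a) →
          ∀ n, ∃ a : A, H.c n (r * t) = algebraMap A K a := by
        refine Subring.closure_induction (p := fun r _ => ∀ t : R,
          (∀ n, ∃ a : A, H.c n t = algebraMap A K a) →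
          ∀ n, ∃ a : A, H.c n (r * t) = algebraMap A K a) ?_ ?_ ?_ ?_ ?_ ?_ hr
        · rintro y (⟨a, rfl⟩ | hy) t ht n
          · obtain ⟨p, rfl⟩ := hex t
            obtain ⟨b, hb⟩ := ht n
            refine ⟨a * b, ?_⟩
            simp only
            rw [C_mul_E, hH', coeff_C_mul, map_mul, ← hb, hH']
          · rw [Set.mem_singleton_iff.1 hy]
            obtain ⟨p, rfl⟩ := hex t
            obtain ⟨q, hq1, hq2, hq3⟩ := x_mul_E ι x δ hD p
            rw [hq1, hH']
            rcases n with _ | n
            · obtain ⟨b, hb⟩ := ht 0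
              rw [hH'] at hb
              obtain ⟨b', hb'⟩ := hδ b
              exact ⟨b', by rw [hq2, hb, hb']⟩
            · obtain ⟨b, hb⟩ := ht (n + 1)
              rw [hH'] at hb
              obtain ⟨b', hb'⟩ := hδ b
              obtain ⟨b'', hb''⟩ := ht n
              rw [hH'] at hb''
              exact ⟨b'' + b', by rw [hq3, hb, hb', hb'', map_add]⟩
        · intro t _ n
          exact ⟨0, by rw [zero_mul, map_zero, map_zero]⟩
        · intro t ht n
          rw [one_mul]
          exact ht n
        · intro u v _ _ hu hv t ht n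
          obtain ⟨a, ha⟩ := hu t ht n
          obtain ⟨b, hb⟩ := hv t ht n
          exact ⟨a + b, by rw [add_mul, map_add, ha, hb, map_add]⟩
        · intro u _ hu t ht n
          obtain ⟨a, ha⟩ := hu t ht n
          exact ⟨-a, by rw [neg_mul, map_neg, ha, map_neg]⟩
        · intro u v _ _ hu hv t ht n
          rw [mul_assoc]
          exact hu (v * t) (hv t ht) n
      intro n
      have h2 := key 1 (fun n => by
        rcases n with _ | n
        · refine ⟨1, ?_⟩
          have := H.c0 1
          rw [map_one] at this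
          rw [this, map_one]
        · refine ⟨0, ?_⟩
          have := H.cn 1 (n + 1) (by omega)
          rw [map_one] at this
          rw [this, map_zero]) n
      rwa [mul_one] at h2
    · intro hr
      obtain ⟨p, rfl⟩ := hex r
      unfold E Polynomial.sum
      refine Subring.sum_mem _ fun i _ => ?_
      obtain ⟨a, ha⟩ := hr i
      rw [hH'] at ha
      rw [ha]
      exact Subring.mul_mem _ (hA a) (Subring.pow_mem _ hX i)
  refine ⟨h1, fun r => ?_⟩
  obtain ⟨p, rfl⟩ := hex r
  obtain ⟨s, hs⟩ := IsLocalization.exist_integer_multiples_of_finset (nonZeroDivisors A)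
    (p.support.image p.coeff)
  have hs0 : (s : A) ≠ 0 := nonZeroDivisors.ne_zero s.2
  have hs1 : ∀ i, ∃ a : A, algebraMap A K s * p.coeff i = algebraMap A K a := by
    intro i
    by_cases hi : p.coeff i = 0
    · exact ⟨0, by rw [hi, mul_zero, map_zero]⟩
    · obtain ⟨a, ha⟩ := hs (p.coeff i) (Finset.mem_image.2 ⟨i, mem_support_iff.2 hi, rfl⟩)
      refine ⟨a, ?_⟩
      rw [ha, Algebra.smul_def]
  set S : K := algebraMap A K s with hS
  obtain ⟨s', hs'⟩ := hδ s
  -- denominators on the right
  have h2 : ∀ n : ℕ, ∃ t ∈ AX A ι x, x ^ n * ι (S ^ (n + 1)) = ι S * t := by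
    intro n
    induction n with
    | zero => exact ⟨1, Subring.one_mem _, by rw [pow_zero, one_mul, zero_add, pow_one, mul_one]⟩
    | succ n ih =>
      obtain ⟨t, ht, ht'⟩ := ih
      refine ⟨t * (ι S * x + ι (algebraMap A K (((n : A) + 2) * s'))), ?_, ?_⟩
      · exact Subring.mul_mem _ ht (Subring.add_mem _ (Subring.mul_mem _ (hA s) hX) (hA _))
      · have h3 : δ (S ^ (n + 1 + 1)) = S ^ (n + 1) * algebraMap A K (((n : A) + 2) * s') := by
          rw [Derivation.leibniz_pow, hS, hs', map_mul]
          simp only [Nat.add_sub_cancel, nsmul_eq_mul, smul_eq_mul, map_add, map_natCast,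
            map_ofNat]
          push_cast
          ring
        rw [← mul_assoc, ← ht', pow_succ x, mul_assoc, hD.comm, h3, pow_succ S (n + 1), map_mul,
          map_mul, mul_assoc (ι (S ^ (n + 1))), ← mul_add, mul_assoc]
  refine ⟨(s : A) ^ (p.natDegree + 1), pow_ne_zero _ hs0, ?_, ?_⟩
  · rw [h1]
    intro n
    obtain ⟨a, ha⟩ := hs1 n
    refine ⟨(s : A) ^ p.natDegree * a, ?_⟩
    rw [C_mul_E, hH', coeff_C_mul, map_pow, ← hS, map_mul, ← ha, map_pow, ← hS, pow_succ]
    ring
  · rw [map_pow, ← hS]
    unfold E Polynomial.sum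
    rw [Finset.sum_mul]
    refine Subring.sum_mem _ fun i hi => ?_
    have hi' : i ≤ p.natDegree := le_natDegree_of_mem_supp i hi
    obtain ⟨t, ht, ht'⟩ := h2 i
    obtain ⟨a, ha⟩ := hs1 i
    have h3 : S ^ (p.natDegree + 1) = S ^ (i + 1) * S ^ (p.natDegree - i) := by
      rw [← pow_add]
      congr 1
      omega
    have h4 : ι (p.coeff i) * x ^ i * ι (S ^ (p.natDegree + 1)) =
        ι (algebraMap A K a) * t * ι (algebraMap A K ((s : A) ^ (p.natDegree - i))) := by
      rw [h3, map_mul, ← mul_assoc, mul_assoc (ι (p.coeff i)), ht', ← mul_assoc, ← map_mul,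
        mul_comm (p.coeff i), ha, map_pow (algebraMap A K), ← hS]
    rw [h4]
    exact Subring.mul_mem _ (Subring.mul_mem _ (hA a) ht) (hA _)

end Pool.Agent.T2h61.DO.DNM
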