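import Pool.Agent.T2h61.DO.Stm

/-!
# DO: task EXS (all subgroups)
-/

set_option autoImplicit false

namespace Pool.Agent.T2h61.DO.EXS

open Matrix
open Pool.Agent.Y110.FJ (ClosedE)
open Pool.Agent.Y462.SS (Closed)

theorem zpow_relIndex {Q : Type} [Group Q] (c : Q) (k : ℤ) (hk : k ≠ 0) :
    (Subgroup.zpowers (c ^ k)).relIndex (Subgroup.zpowers c) ≠ 0 := by
  have h1 : (zpowersHom Q c).range = Subgroup.zpowers c := by
    ext x
    rw [MonoidHom.mem_range, Subgroup.mem_zpowers_iff]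
    constructor
    · rintro ⟨z, rfl⟩
      exact ⟨z.toAdd, rfl⟩
    · rintro ⟨z, rfl⟩
      exact ⟨Multiplicative.ofAdd z, rfl⟩
  rw [← h1, ← Subgroup.index_comap]
  have h2 : Subgroup.zpowers (Multiplicative.ofAdd k) ≤
      (Subgroup.zpowers (c ^ k)).comap (zpowersHom Q c) := by
    rw [Subgroup.zpowers_le, Subgroup.mem_comap]
    exact Subgroup.mem_zpowers _
  have h3 : (Subgroup.zpowers (Multiplicative.ofAdd k)).index ≠ 0 := by
    have h4 : (Subgroup.zpowers (Multiplicative.ofAdd k)).index = k.natAbs := by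
      rw [← Int.index_zmultiples k]
      rfl
    rw [h4]
    exact Int.natAbs_ne_zero.2 hk
  have : (Subgroup.zpowers (Multiplicative.ofAdd k)).FiniteIndex := ⟨h3⟩
  exact (Subgroup.finiteIndex_of_le h2).index_ne_zero

theorem key {C : ∀ (G : Type) [Group G], Prop} (hE : Closed C) {P Q : Type} [Group P] [Group Q]
    (π : P →* Q) (hπ : Function.Surjective π) (S : Subgroup P) (hS : ∀ s ∈ S, ∀ t, t * s = s * t)
    (hfib : ∀ q, {s | s ∈ S ∧ π s = q}.Finite)
    (hC : ∀ X : Subgroup P, {s | s ∈ S ∧ s ∈ X}.Finite → C X) (V : Subgroup Q) (c : Q)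
    (hc : (Subgroup.zpowers c).relIndex V ≠ 0) : C (V.comap π) := by
  classical
  by_cases hf : {s | s ∈ S ∧ s ∈ V.comap π}.Finite
  · exact hC _ hf
  -- infinitely many elements of `S` over `zpowers c`
  have hD : {u | u ∈ S ∧ π u ∈ Subgroup.zpowers c}.Infinite := by
    have hT : Infinite {s | s ∈ S ∧ s ∈ V.comap π} := Set.infinite_coe_iff.2 hf
    have hfi : ((Subgroup.zpowers c).subgroupOf V).FiniteIndex := ⟨hc⟩
    have hfin : Finite (V ⧸ (Subgroup.zpowers c).subgroupOf V) := inferInstance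
    let f : {s | s ∈ S ∧ s ∈ V.comap π} → V ⧸ (Subgroup.zpowers c).subgroupOf V := fun s =>
      QuotientGroup.mk (⟨π s, s.2.2⟩ : V)
    obtain ⟨y, hy⟩ := Finite.exists_infinite_fiber f
    obtain ⟨s1⟩ : Nonempty (f ⁻¹' {y}) := inferInstance
    have h1 : ∀ s : f ⁻¹' {y}, (π (s1 : P))⁻¹ * π ((s : {s | s ∈ S ∧ s ∈ V.comap π}) : P) ∈
        Subgroup.zpowers c := by
      intro s
      have h2 : f s1 = f s := by
        have ha : f s1 = y := s1.2
        have hb : f s = y := s.2
        rw [ha, hb]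
      have h3 := QuotientGroup.eq.1 h2
      rw [Subgroup.mem_subgroupOf] at h3
      exact h3
    let g : f ⁻¹' {y} → P := fun s => (s1 : P)⁻¹ * (s : {s | s ∈ S ∧ s ∈ V.comap π})
    have hg : Function.Injective g := by
      intro a b hab
      exact Subtype.ext (Subtype.ext (mul_left_cancel hab))
    refine (Set.infinite_range_of_injective hg).mono ?_
    rintro _ ⟨s, rfl⟩
    refine ⟨S.mul_mem (S.inv_mem s1.1.2.1) s.1.2.1, ?_⟩
    have := h1 s
    rw [map_mul, map_inv]
    exact this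
  -- an element of infinite order
  obtain ⟨u0, hu0, k, hk, hord⟩ : ∃ u0 ∈ S, ∃ k : ℤ, π u0 = c ^ k ∧ ¬ IsOfFinOrder (c ^ k) := by
    by_contra hcon
    push Not at hcon
    apply hD
    by_cases hcf : IsOfFinOrder c
    · have hz : (Set.Finite (Subgroup.zpowers c : Set Q)) := by
        rw [← hcf.powers_eq_zpowers]
        exact hcf.finite_powers
      refine (hz.biUnion fun q _ => hfib q).subset ?_
      rintro u ⟨h1, h2⟩
      exact Set.mem_biUnion h2 ⟨h1, rfl⟩
    · refine (hfib 1).subset ?_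
      rintro u ⟨h1, h2⟩
      obtain ⟨k, hk⟩ := Subgroup.mem_zpowers_iff.1 h2
      refine ⟨h1, ?_⟩
      have h3 := hcon u h1 k hk.symm
      by_cases hk0 : k = 0
      · rw [← hk, hk0, zpow_zero]
      · exfalso
        obtain ⟨n, hn, h4⟩ := isOfFinOrder_iff_zpow_eq_one.1 h3
        rw [← _root_.zpow_mul] at h4
        exact hcf (isOfFinOrder_iff_zpow_eq_one.2 ⟨_, mul_ne_zero hk0 hn, h4⟩)
  have hk0 : k ≠ 0 := by
    rintro rfl
    exact hord (by rw [zpow_zero]; exact IsOfFinOrder.one)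
  -- the kernel
  have hN : C π.ker := hC π.ker ((hfib 1).subset fun s hs => hs)
  let F : π.ker × Multiplicative ℤ →* P := MonoidHom.noncommCoprod π.ker.subtype (zpowersHom P u0)
    (fun m n => by
      have h1 : Commute ((π.ker.subtype) m) u0 := hS u0 hu0 _
      exact h1.zpow_right n.toAdd)
  have hF : ∀ x : π.ker × Multiplicative ℤ, F x = (x.1 : P) * u0 ^ (x.2.toAdd) := fun x => rfl
  have hπF : ∀ x : π.ker × Multiplicative ℤ, π (F x) = (c ^ k) ^ (x.2.toAdd) := by
    intro x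
    have h1 : π (x.1 : P) = 1 := x.1.2
    rw [hF, map_mul, h1, one_mul, map_zpow, hk]
  have hFinj : Function.Injective F := by
    rw [injective_iff_map_eq_one]
    intro x hx
    have h1 := hπF x
    rw [hx, map_one] at h1
    have h2 : x.2.toAdd = 0 := by
      by_contra h3
      exact hord (isOfFinOrder_iff_zpow_eq_one.2 ⟨_, h3, h1.symm⟩)
    have h4 : (x.1 : P) = 1 := by
      have h5 := hF x
      rw [hx, h2, zpow_zero, mul_one] at h5
      exact h5.symm
    refine Prod.ext (Subtype.ext h4) ?_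
    exact Multiplicative.toAdd.injective h2
  have hrange : F.range = (Subgroup.zpowers (c ^ k)).comap π := by
    ext p
    rw [MonoidHom.mem_range, Subgroup.mem_comap, Subgroup.mem_zpowers_iff]
    constructor
    · rintro ⟨x, rfl⟩
      exact ⟨x.2.toAdd, (hπF x).symm⟩
    · rintro ⟨z, hz⟩
      refine ⟨(⟨p * u0 ^ (-z), ?_⟩, Multiplicative.ofAdd z), ?_⟩
      · rw [MonoidHom.mem_ker, map_mul, map_zpow, hk, ← hz, _root_.zpow_neg, mul_inv_cancel]
      · rw [hF]
        simp
  have hCF : C F.range := hE.of_injective _ _ (MonoidHom.ofInjective hFinj).symm.toMonoidHom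
    (MonoidHom.ofInjective hFinj).symm.injective (hE.prod _ _ hN hE.int)
  rw [hrange] at hCF
  -- finite index
  have hidx : ((Subgroup.zpowers (c ^ k)).comap π).relIndex (V.comap π) ≠ 0 := by
    rw [Subgroup.relIndex_comap, Subgroup.map_comap_eq_self_of_surjective hπ]
    exact Subgroup.relIndex_ne_zero_trans (zpow_relIndex c k hk0) hc
  refine hE.finiteIndex _ (((Subgroup.zpowers (c ^ k)).comap π).subgroupOf (V.comap π)) ⟨hidx⟩ ?_
  refine hE.of_injective _ _ (MonoidHom.mk' (fun x => (⟨((x : V.comap π) : P), x.2⟩ :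
    (Subgroup.zpowers (c ^ k)).comap π)) fun a b => rfl) ?_ hCF
  intro a b hab
  have := congrArg (fun x : (Subgroup.zpowers (c ^ k)).comap π => (x : P)) hab
  exact Subtype.ext (Subtype.ext this)

theorem derived_comm (A : Type) [CommGroup A] : derivedSeries A 2 = ⊥ := by
  rw [derivedSeries_succ, derivedSeries_succ, derivedSeries_zero]
  have h : ⁅(⊤ : Subgroup A), (⊤ : Subgroup A)⁆ = ⊥ := by
    rw [Subgroup.commutator_eq_bot_iff_le_centralizer]
    intro x _
    rw [Subgroup.mem_centralizer_iff]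
    intro y _
    exact mul_comm _ _
  rw [h]
  simp

section

variable {K R : Type} [Field K] [Ring R] (ι : K →+* R)

/-- the scalar matrix -/
def sc (z : Kˣ) : G R where
  val := Matrix.diagonal fun _ => ι (z : K)
  inv := Matrix.diagonal fun _ => ι ((z⁻¹ : Kˣ) : K)
  val_inv := by
    rw [Matrix.diagonal_mul_diagonal, ← map_mul, Units.mul_inv, map_one, Matrix.diagonal_one]
  inv_val := by
    rw [Matrix.diagonal_mul_diagonal, ← map_mul, Units.inv_mul, map_one, Matrix.diagonal_one]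

theorem sc_val (z : Kˣ) : (sc ι z : Matrix (Fin 2) (Fin 2) R) =
    Matrix.diagonal fun _ => ι (z : K) := rfl

theorem exists_sc (hι : Function.Injective ι) (g : G R)
    (h : ∃ z : K, (g : Matrix (Fin 2) (Fin 2) R) = Matrix.diagonal fun _ => ι z) :
    ∃ z : Kˣ, g = sc ι z := by
  obtain ⟨z, hz⟩ := h
  have hR : Nontrivial R := hι.nontrivial
  have hz0 : z ≠ 0 := by
    rintro rfl
    rw [map_zero] at hz
    have h0 : (g : Matrix (Fin 2) (Fin 2) R) = 0 := by
      rw [hz]
      exact Matrix.diagonal_zero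
    exact g.ne_zero h0
  exact ⟨Units.mk0 z hz0, Units.ext (by rw [sc_val, hz]; rfl)⟩

theorem sc_mul (z w : Kˣ) : sc ι (z * w) = sc ι z * sc ι w := by
  apply Units.ext
  rw [Units.val_mul, sc_val, sc_val, sc_val, Matrix.diagonal_mul_diagonal, Units.val_mul]
  congr 1
  funext _
  rw [map_mul]

theorem sc_one : sc ι (1 : Kˣ) = (1 : G R) := by
  apply Units.ext
  rw [sc_val, Units.val_one, Units.val_one, map_one, Matrix.diagonal_one]

theorem sc_inv (z : Kˣ) : sc ι z⁻¹ = (sc ι z)⁻¹ := by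
  rw [eq_inv_iff_mul_eq_one, ← sc_mul, inv_mul_cancel, sc_one]

theorem fib_finite (hι : Function.Injective ι) (Δ : G R →* Kˣ) (hΔ : ∀ (z : Kˣ) (g : G R),
    (g : Matrix (Fin 2) (Fin 2) R) = Matrix.diagonal (fun _ => ι z) → Δ g = z ^ 2) (q : Kˣ) :
    {g : G R | (∃ z : K, (g : Matrix (Fin 2) (Fin 2) R) = Matrix.diagonal fun _ => ι z) ∧
      Δ g = q}.Finite := by
  have h1 : {z : Kˣ | z ^ 2 = q}.Finite := by
    by_cases hne : ∃ z1 : Kˣ, z1 ^ 2 = q
    · obtain ⟨z1, hz1⟩ := hne
      refine (Set.toFinite ({z1, -z1} : Set Kˣ)).subset ?_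
      intro z hz
      have h2 : (z : K) ^ 2 = (z1 : K) ^ 2 := by
        have h3 : z ^ 2 = z1 ^ 2 := by
          rw [hz1]; exact hz
        have h4 := congrArg (fun u : Kˣ => (u : K)) h3
        simpa using h4
      rcases sq_eq_sq_iff_eq_or_eq_neg.1 h2 with h | h
      · exact Or.inl (Units.ext h)
      · exact Or.inr (Units.ext (by rw [Units.val_neg]; exact h))
    · refine Set.Finite.subset Set.finite_empty ?_
      intro z hz
      exact hne ⟨z, hz⟩
  refine (h1.image (sc ι)).subset ?_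
  rintro g ⟨h2, h3⟩
  obtain ⟨z, rfl⟩ := exists_sc ι hι g h2
  exact ⟨z, by rw [← h3]; exact (hΔ z _ rfl).symm, rfl⟩

end

/-- EXS -/
theorem t_EXS : S_EXS := by
  intro C hE hM K R _ _ ι hι Δ hΔ P hfin
  refine hE.ext P _ (Δ.comp P.subtype).rangeRestrict (Δ.comp P.subtype).rangeRestrict_surjective
    (hM _ (derived_comm _)) ?_
  rintro V ⟨c, -, hc⟩
  let S : Subgroup P :=
    { carrier := {p | (∃ z : K, ((p : G R) : Matrix (Fin 2) (Fin 2) R) =
        Matrix.diagonal fun _ => ι z) ∧ ∀ t : G R, t * (p : G R) = (p : G R) * t}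
      mul_mem' := by
        rintro a b ⟨⟨z, hz⟩, ha⟩ ⟨⟨w, hw⟩, hb⟩
        refine ⟨⟨z * w, ?_⟩, fun t => ?_⟩
        · rw [Subgroup.coe_mul, Units.val_mul, hz, hw, Matrix.diagonal_mul_diagonal, map_mul]
        · rw [Subgroup.coe_mul, ← mul_assoc, ha, mul_assoc, hb, mul_assoc]
      one_mem' := ⟨⟨1, by rw [Subgroup.coe_one, Units.val_one, map_one, Matrix.diagonal_one]⟩,
        fun t => by rw [Subgroup.coe_one, mul_one, one_mul]⟩
      inv_mem' := by
        rintro a ⟨ha, hc⟩
        obtain ⟨z, hz⟩ := exists_sc ι hι (a : G R) ha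
        refine ⟨⟨((z⁻¹ : Kˣ) : K), ?_⟩, fun t => ?_⟩
        · rw [Subgroup.coe_inv, hz, ← sc_inv, sc_val]
        · have h1 : Commute t (a : G R) := hc t
          rw [Subgroup.coe_inv]
          exact h1.inv_right.eq }
  refine key hE.base _ (Δ.comp P.subtype).rangeRestrict_surjective S ?_ ?_ ?_ V c hc
  · intro s hs t
    exact Subtype.ext (hs.2 t)
  · intro q
    have h1 := fib_finite ι hι Δ hΔ (q : Kˣ)
    refine Set.Finite.of_finite_image (f := fun p : P => (p : G R)) (h1.subset ?_)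
      (fun a _ b _ hab => Subtype.ext hab)
    rintro _ ⟨p, ⟨h2, h3⟩, rfl⟩
    exact ⟨h2.1, by rw [← h3]; rfl⟩
  · intro X hX
    have h1 : C (X.map P.subtype) := by
      refine hfin _ (by rintro _ ⟨x, -, rfl⟩; exact x.2) ?_
      refine (hX.image (fun p : P => (p : G R))).subset ?_
      rintro g ⟨⟨x, hx, rfl⟩, h2⟩
      exact ⟨x, ⟨h2, hx⟩, rfl⟩
    refine hE.base.of_injective _ _ (MonoidHom.mk' (fun x => (⟨((x : P) : G R),
      ⟨(x : P), x.2, rfl⟩⟩ : X.map P.subtype)) fun a b => rfl) ?_ h1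
    intro a b hab
    have := congrArg (fun x : X.map P.subtype => (x : G R)) hab
    exact Subtype.ext (Subtype.ext this)

end Pool.Agent.T2h61.DO.EXS
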