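import Pool.Agent.T2h61.DO.Def

/-! Task GEN (helper60). -/

set_option autoImplicit false

namespace Pool.Agent.T2h61.DO.GEN

open Pool.Agent.T2h61.DO

theorem t_GEN : S_GEN := by
  intro hDEP hZER hLWA hLWE K R _ _ ι H
  have key : ∀ (n : ℕ) (g : G R), H.LeM n g → g ∈ AA ι ⊔ JJ R := by
    intro n
    induction n with
    | zero =>
      intro g hg
      exact (le_sup_left : AA ι ≤ AA ι ⊔ JJ R) (hZER K R ι H g hg)
    | succ n ih =>
      intro g hg
      obtain ⟨h, hh, hC⟩ := (hLWA hDEP K R ι H g n hg).1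
      obtain ⟨j, hj, hM⟩ := hLWE hDEP K R ι H (g * h) n hC
      have h1 := ih _ hM
      have hh' : h ∈ AA ι ⊔ JJ R := (le_sup_left : AA ι ≤ AA ι ⊔ JJ R) hh
      have hj' : j ∈ AA ι ⊔ JJ R := (le_sup_right : JJ R ≤ AA ι ⊔ JJ R) hj
      rw [Subgroup.mul_mem_cancel_right _ hj'] at h1
      rwa [Subgroup.mul_mem_cancel_right _ hh'] at h1
  rw [eq_top_iff]
  intro g _
  choose N hN using fun r => H.fin r
  refine key (∑ i : Fin 2, ∑ j : Fin 2, N ((g : Matrix (Fin 2) (Fin 2) R) i j)) g ?_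
  intro i j k hk
  refine hN _ k (lt_of_le_of_lt ?_ hk)
  refine le_trans ?_ (Finset.single_le_sum
    (f := fun i => ∑ j : Fin 2, N ((g : Matrix (Fin 2) (Fin 2) R) i j))
    (fun _ _ => Nat.zero_le _) (Finset.mem_univ i))
  exact Finset.single_le_sum (f := fun j => N ((g : Matrix (Fin 2) (Fin 2) R) i j))
    (fun _ _ => Nat.zero_le _) (Finset.mem_univ j)

end Pool.Agent.T2h61.DO.GEN
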