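import Pool.Agent.T2h61.DO.Def

/-! # JME: the triangular group -/

set_option autoImplicit false

namespace Pool.Agent.T2h61.DO.JME

open Matrix
open scoped commutatorElement

variable {K R : Type} [Field K] [Ring R] {ι : K →+* R}

theorem top_ne (H : Cf K R ι) {r : R} (hr : r ≠ 0) {N : ℕ} (hN : ∀ n, N < n → H.c n r = 0)
    (hmin : ∀ M, M < N → ¬ ∀ n, M < n → H.c n r = 0) : H.c N r ≠ 0 := by
  intro h0
  rcases Nat.eq_zero_or_pos N with h | h
  · subst h
    apply hr
    refine H.ext0 r fun n => ?_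
    rcases Nat.eq_zero_or_pos n with h1 | h1
    · subst h1
      exact h0
    · exact hN n h1
  · refine hmin (N - 1) (by omega) fun n hn => ?_
    rcases Nat.lt_or_ge N n with h1 | h1
    · exact hN n h1
    · have h2 : n = N := by omega
      rw [h2]
      exact h0

theorem exists_top (H : Cf K R ι) {r : R} (hr : r ≠ 0) :
    ∃ N, (∀ n, N < n → H.c n r = 0) ∧ H.c N r ≠ 0 := by
  classical
  exact ⟨Nat.find (H.fin r), Nat.find_spec (H.fin r),
    top_ne H hr (Nat.find_spec (H.fin r)) fun M hM => Nat.find_min (H.fin r) hM⟩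

theorem unit_const (H : Cf K R ι) {r s : R} (h : r * s = 1) : ∃ a : K, a ≠ 0 ∧ r = ι a := by
  have h1 : H.c 0 (1 : R) = 1 := by
    have := H.c0 1
    rwa [map_one] at this
  have h10 : (1 : R) ≠ 0 := by
    intro h0
    rw [h0, map_zero] at h1
    exact zero_ne_one h1
  have hr : r ≠ 0 := by
    intro h0
    rw [h0, zero_mul] at h
    exact h10 h.symm
  have hs : s ≠ 0 := by
    intro h0
    rw [h0, mul_zero] at h
    exact h10 h.symm
  obtain ⟨m, hm, hm0⟩ := exists_top H hr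
  obtain ⟨n, hn, hn0⟩ := exists_top H hs
  have h2 := (H.mul r s m n hm hn).1
  have h3 : m + n = 0 := by
    by_contra h4
    have h5 := H.cn 1 (m + n) (Nat.pos_of_ne_zero h4)
    rw [map_one, ← h, h2] at h5
    exact (mul_ne_zero hm0 hn0) h5
  have hm1 : m = 0 := by omega
  subst hm1
  exact ⟨H.c 0 r, hm0, H.const r hm⟩

/-- the first diagonal entry -/
noncomputable def D0 (R : Type) [Ring R] : JJ R →* R where
  toFun g := ((g : G R) : Matrix (Fin 2) (Fin 2) R) 0 0
  map_one' := by simp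
  map_mul' g h := by
    have h1 : ((h : G R) : Matrix (Fin 2) (Fin 2) R) 1 0 = 0 := h.2.1
    rw [Subgroup.coe_mul, Units.val_mul, Matrix.mul_apply, Fin.sum_univ_two, h1, mul_zero, add_zero]

/-- the second diagonal entry -/
noncomputable def D1 (R : Type) [Ring R] : JJ R →* R where
  toFun g := ((g : G R) : Matrix (Fin 2) (Fin 2) R) 1 1
  map_one' := by simp
  map_mul' g h := by
    have h1 : ((g : G R) : Matrix (Fin 2) (Fin 2) R) 1 0 = 0 := g.2.1
    rw [Subgroup.coe_mul, Units.val_mul, Matrix.mul_apply, Fin.sum_univ_two, h1, zero_mul, zero_add]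

theorem D_const (H : Cf K R ι) (D : JJ R →* R) (g : JJ R) : ∃ a : K, a ≠ 0 ∧ D g = ι a := by
  refine unit_const H (s := D g⁻¹) ?_
  rw [← map_mul, mul_inv_cancel, map_one]

theorem D_comm (H : Cf K R ι) (D : JJ R →* R) (g h : JJ R) : D ⁅g, h⁆ = 1 := by
  obtain ⟨a, -, ha⟩ := D_const H D g
  obtain ⟨b, -, hb⟩ := D_const H D h
  obtain ⟨a', -, ha'⟩ := D_const H D g⁻¹
  obtain ⟨b', -, hb'⟩ := D_const H D h⁻¹
  have h1 : ι (a * a') = 1 := by
    rw [map_mul, ← ha, ← ha', ← map_mul, mul_inv_cancel, map_one]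
  have h2 : ι (b * b') = 1 := by
    rw [map_mul, ← hb, ← hb', ← map_mul, mul_inv_cancel, map_one]
  rw [commutatorElement_def, map_mul, map_mul, map_mul, ha, hb, ha', hb', ← map_mul, ← map_mul,
    ← map_mul, show a * b * a' * b' = (a * a') * (b * b') by ring, map_mul, h1, h2, mul_one]

/-- the unipotent matrices -/
noncomputable def U (R : Type) [Ring R] : Subgroup (JJ R) where
  carrier := {g | D0 R g = 1 ∧ D1 R g = 1}
  mul_mem' := by
    rintro a b ⟨h1, h2⟩ ⟨h3, h4⟩
    exact ⟨by rw [map_mul, h1, h3, mul_one], by rw [map_mul, h2, h4, mul_one]⟩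
  one_mem' := ⟨map_one _, map_one _⟩
  inv_mem' := by
    rintro a ⟨h1, h2⟩
    refine ⟨?_, ?_⟩
    · have h3 : D0 R a * D0 R a⁻¹ = 1 := by rw [← map_mul, mul_inv_cancel, map_one]
      rwa [h1, one_mul] at h3
    · have h3 : D1 R a * D1 R a⁻¹ = 1 := by rw [← map_mul, mul_inv_cancel, map_one]
      rwa [h2, one_mul] at h3

theorem U_comm {g h : JJ R} (hg : g ∈ U R) (hh : h ∈ U R) : g * h = h * g := by
  have g0 : ((g : G R) : Matrix (Fin 2) (Fin 2) R) 0 0 = 1 := hg.1
  have g1 : ((g : G R) : Matrix (Fin 2) (Fin 2) R) 1 1 = 1 := hg.2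
  have g2 : ((g : G R) : Matrix (Fin 2) (Fin 2) R) 1 0 = 0 := g.2.1
  have h0 : ((h : G R) : Matrix (Fin 2) (Fin 2) R) 0 0 = 1 := hh.1
  have h1 : ((h : G R) : Matrix (Fin 2) (Fin 2) R) 1 1 = 1 := hh.2
  have h2 : ((h : G R) : Matrix (Fin 2) (Fin 2) R) 1 0 = 0 := h.2.1
  apply Subtype.ext
  apply Units.ext
  rw [Subgroup.coe_mul, Subgroup.coe_mul, Units.val_mul, Units.val_mul]
  ext i j
  rw [Matrix.mul_apply, Matrix.mul_apply, Fin.sum_univ_two, Fin.sum_univ_two]
  fin_cases i <;> fin_cases j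
  · simp [g0, g2, h0, h2]
  · simp [g0, g1, h0, h1, add_comm]
  · simp [g0, g1, g2, h0, h1, h2]
  · simp [g1, g2, h1, h2]

theorem t_JME : S_JME := by
  intro K R _ _ ι H
  refine ⟨fun g hg => ?_, ?_⟩
  · obtain ⟨a, ha, ha'⟩ := D_const H (D0 R) ⟨g, hg⟩
    obtain ⟨d, hd, hd'⟩ := D_const H (D1 R) ⟨g, hg⟩
    exact ⟨a, d, ha, hd, ha', hd'⟩
  · have h1 : derivedSeries (JJ R) 1 ≤ U R := by
      rw [derivedSeries_succ, Subgroup.commutator_le]
      intro g _ h _
      exact ⟨D_comm H (D0 R) g h, D_comm H (D1 R) g h⟩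
    rw [eq_bot_iff, derivedSeries_succ]
    refine (Subgroup.commutator_mono h1 h1).trans ?_
    rw [Subgroup.commutator_le]
    intro g hg h hh
    rw [Subgroup.mem_bot, commutatorElement_eq_one_iff_mul_comm]
    exact U_comm hg hh

end Pool.Agent.T2h61.DO.JME
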