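import Pool.Agent.T2h61.DO.Def

set_option autoImplicit false

namespace Pool.Agent.T2h61.DO.LC

open Pool.Agent.T2h61.DO

variable {K R : Type} [Field K] [Ring R] {ι : K →+* R}

theorem lc_eq (H : Cf K R ι) (r : R) (N : ℕ) (h : ∀ n, N < n → H.c n r = 0)
    (h0 : H.c N r ≠ 0 ∨ N = 0) : H.lc r = H.c N r := by
  classical
  unfold Cf.lc
  have h1 := Nat.find_min' (H.fin r) h
  have h2 := Nat.find_spec (H.fin r)
  rcases h1.lt_or_eq with h3 | h3
  · rcases h0 with h0 | h0
    · exact absurd (h2 N (by convert h3)) h0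
    · subst h0
      exact absurd h3 (Nat.not_lt_zero _)
  · exact congrArg (fun k => H.c k r) h3

theorem find_le (H : Cf K R ι) (r : R) : ∃ N, (∀ n, N < n → H.c n r = 0) ∧
    (r ≠ 0 → H.c N r ≠ 0) ∧ H.lc r = H.c N r := by
  classical
  refine ⟨Nat.find (H.fin r), Nat.find_spec (H.fin r), ?_, ?_⟩
  · intro hr h0
    obtain ⟨M, hM⟩ : ∃ M, M = Nat.find (H.fin r) := ⟨_, rfl⟩
    have hs := Nat.find_spec (H.fin r)
    rw [← hM] at hs h0
    rcases M with _ | k
    · exact hr (H.ext0 r fun n => by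
        rcases Nat.eq_zero_or_pos n with rfl | hn
        · exact h0
        · exact hs n hn)
    · have h1 : ∀ n, k < n → H.c n r = 0 := by
        intro n hn
        rcases Nat.lt_or_ge (k + 1) n with h | h
        · exact hs n h
        · have : n = k + 1 := by omega
          rw [this]
          exact h0
      have h2 := Nat.find_min' (H.fin r) h1
      omega
  · unfold Cf.lc
    congr 1

theorem lc_zero (H : Cf K R ι) : H.lc 0 = 0 := by
  rw [lc_eq H 0 0 (fun n _ => map_zero _) (Or.inr rfl), map_zero]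

theorem t_LC : S_LC := by
  intro K R _ _ ι H
  have h1 : ∀ r, r ≠ 0 → H.lc r ≠ 0 := by
    intro r hr
    obtain ⟨N, -, h2, h3⟩ := find_le H r
    rw [h3]
    exact h2 hr
  have h2 : ∀ r s, H.lc (r * s) = H.lc r * H.lc s := by
    intro r s
    by_cases hr : r = 0
    · subst hr
      rw [zero_mul, lc_zero, zero_mul]
    by_cases hs : s = 0
    · subst hs
      rw [mul_zero, lc_zero, mul_zero]
    obtain ⟨m, a1, a2, a3⟩ := find_le H r
    obtain ⟨n, b1, b2, b3⟩ := find_le H s
    obtain ⟨c1, c2⟩ := H.mul r s m n a1 b1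
    rw [a3, b3, ← c1]
    refine lc_eq H (r * s) (m + n) c2 (Or.inl ?_)
    rw [c1]
    exact mul_ne_zero (a2 hr) (b2 hs)
  refine ⟨h1, h2, ?_, ?_, ?_⟩
  · intro a
    rw [lc_eq H (ι a) 0 (fun n hn => H.cn a n hn) (Or.inr rfl), H.c0]
  · intro r
    by_cases hr : r = 0
    · subst hr
      rw [neg_zero, lc_zero, neg_zero]
    obtain ⟨m, a1, a2, a3⟩ := find_le H r
    rw [a3, ← map_neg]
    refine lc_eq H (-r) m (fun n hn => by rw [map_neg, a1 n hn, neg_zero]) (Or.inl ?_)
    rw [map_neg]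
    exact neg_ne_zero.2 (a2 hr)
  · intro r s hrs
    by_contra hc
    push Not at hc
    have h3 := h2 r s
    rw [hrs, lc_zero] at h3
    exact mul_ne_zero (h1 r hc.1) (h1 s hc.2) h3.symm

end Pool.Agent.T2h61.DO.LC
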