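import Pool.Agent.T2h61.DO.Def

set_option autoImplicit false

namespace Pool.Agent.T2h61.DO.LWA

open Matrix Pool.Agent.T2h61.DO

variable {K R : Type} [Field K] [Ring R] {ι : K →+* R}

/-- the matrix of the coefficients at `n` -/
def mt (H : Cf K R ι) (g : G R) (n : ℕ) : Matrix (Fin 2) (Fin 2) K :=
  Matrix.of fun i j => H.c n ((g : Matrix (Fin 2) (Fin 2) R) i j)

lemma mul_entry (g : G R) (h0 : (Matrix (Fin 2) (Fin 2) K)ˣ) (i : Fin 2) :
    ((g * Units.map (ι.mapMatrix (m := Fin 2) : Matrix (Fin 2) (Fin 2) K →* Matrix (Fin 2) (Fin 2) R) h0 : G R) :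
      Matrix (Fin 2) (Fin 2) R) i 0 =
      (g : Matrix (Fin 2) (Fin 2) R) i 0 * ι ((h0 : Matrix (Fin 2) (Fin 2) K) 0 0) +
      (g : Matrix (Fin 2) (Fin 2) R) i 1 * ι ((h0 : Matrix (Fin 2) (Fin 2) K) 1 0) := by
  rw [Units.val_mul, Matrix.mul_apply, Fin.sum_univ_two]
  rfl

lemma coeff_mul (H : Cf K R ι) (n : ℕ) (r : R) (hr : H.Le n r) (a : K) :
    H.c n (r * ι a) = H.c n r * a ∧ H.Le n (r * ι a) := by
  have h := H.mul r (ι a) n 0 hr (fun i hi => H.cn a i hi)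
  rw [add_zero, H.c0] at h
  exact h

lemma leC_iff (H : Cf K R ι) (g : G R) (n : ℕ) (hg : H.LeM (n + 1) g) (h0 : (Matrix (Fin 2) (Fin 2) K)ˣ) :
    H.LeC n (g * Units.map (ι.mapMatrix (m := Fin 2) : Matrix (Fin 2) (Fin 2) K →* Matrix (Fin 2) (Fin 2) R) h0) ↔
    ∀ i, mt H g (n + 1) i 0 * (h0 : Matrix (Fin 2) (Fin 2) K) 0 0 +
      mt H g (n + 1) i 1 * (h0 : Matrix (Fin 2) (Fin 2) K) 1 0 = 0 := by
  have key : ∀ i, H.c (n + 1) (((g * Units.map (ι.mapMatrix (m := Fin 2) :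
      Matrix (Fin 2) (Fin 2) K →* Matrix (Fin 2) (Fin 2) R) h0 : G R) : Matrix (Fin 2) (Fin 2) R) i 0) =
      mt H g (n + 1) i 0 * (h0 : Matrix (Fin 2) (Fin 2) K) 0 0 +
      mt H g (n + 1) i 1 * (h0 : Matrix (Fin 2) (Fin 2) K) 1 0 := by
    intro i
    rw [mul_entry, map_add, (coeff_mul H (n + 1) _ (hg i 0) _).1, (coeff_mul H (n + 1) _ (hg i 1) _).1]
    rfl
  have key2 : ∀ i k, n + 1 < k → H.c k (((g * Units.map (ι.mapMatrix (m := Fin 2) :
      Matrix (Fin 2) (Fin 2) K →* Matrix (Fin 2) (Fin 2) R) h0 : G R) : Matrix (Fin 2) (Fin 2) R) i 0) = 0 := by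
    intro i k hk
    rw [mul_entry, map_add, (coeff_mul H (n + 1) _ (hg i 0) _).2 k hk,
      (coeff_mul H (n + 1) _ (hg i 1) _).2 k hk, add_zero]
  constructor
  · intro h i
    rw [← key i]
    exact h i (n + 1) (Nat.lt_succ_self n)
  · intro h i k hk
    rcases Nat.lt_or_ge (n + 1) k with h1 | h1
    · exact key2 i k h1
    · have : k = n + 1 := by omega
      subst this
      rw [key i]
      exact h i

lemma det_ne (h0 : (Matrix (Fin 2) (Fin 2) K)ˣ) :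
    (h0 : Matrix (Fin 2) (Fin 2) K) 0 0 * (h0 : Matrix (Fin 2) (Fin 2) K) 1 1 -
      (h0 : Matrix (Fin 2) (Fin 2) K) 0 1 * (h0 : Matrix (Fin 2) (Fin 2) K) 1 0 ≠ 0 := by
  rw [← Matrix.det_fin_two]
  exact ((Matrix.isUnit_iff_isUnit_det _).mp h0.isUnit).ne_zero

lemma inv_mul_entry (h0 h1 : (Matrix (Fin 2) (Fin 2) K)ˣ)
    (e : (h0 : Matrix (Fin 2) (Fin 2) K) 0 0 * (h1 : Matrix (Fin 2) (Fin 2) K) 1 0 =
      (h0 : Matrix (Fin 2) (Fin 2) K) 1 0 * (h1 : Matrix (Fin 2) (Fin 2) K) 0 0) :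
    ((h0⁻¹ * h1 : (Matrix (Fin 2) (Fin 2) K)ˣ) : Matrix (Fin 2) (Fin 2) K) 1 0 = 0 := by
  generalize hx : h0⁻¹ * h1 = x
  have h2 : h0 * x = h1 := by rw [← hx, mul_inv_cancel_left]
  clear hx
  have e0 : (h0 : Matrix (Fin 2) (Fin 2) K) 0 0 * (x : Matrix (Fin 2) (Fin 2) K) 0 0 +
      (h0 : Matrix (Fin 2) (Fin 2) K) 0 1 * (x : Matrix (Fin 2) (Fin 2) K) 1 0 =
      (h1 : Matrix (Fin 2) (Fin 2) K) 0 0 := by
    rw [← h2, Units.val_mul, Matrix.mul_apply, Fin.sum_univ_two]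
  have e1 : (h0 : Matrix (Fin 2) (Fin 2) K) 1 0 * (x : Matrix (Fin 2) (Fin 2) K) 0 0 +
      (h0 : Matrix (Fin 2) (Fin 2) K) 1 1 * (x : Matrix (Fin 2) (Fin 2) K) 1 0 =
      (h1 : Matrix (Fin 2) (Fin 2) K) 1 0 := by
    rw [← h2, Units.val_mul, Matrix.mul_apply, Fin.sum_univ_two]
  have hd := det_ne h0
  have : ((h0 : Matrix (Fin 2) (Fin 2) K) 0 0 * (h0 : Matrix (Fin 2) (Fin 2) K) 1 1 -
      (h0 : Matrix (Fin 2) (Fin 2) K) 0 1 * (h0 : Matrix (Fin 2) (Fin 2) K) 1 0) *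
      (x : Matrix (Fin 2) (Fin 2) K) 1 0 = 0 := by
    linear_combination (h0 : Matrix (Fin 2) (Fin 2) K) 0 0 * e1 -
      (h0 : Matrix (Fin 2) (Fin 2) K) 1 0 * e0 + e
  exact (mul_eq_zero.mp this).resolve_left hd

theorem t_LWA : S_LWA := by
  intro hDEP K R _ _ ι H g n hg
  constructor
  · have hdep := hDEP K R ι H g (n + 1) (n + 1) (by omega) (hg 0 0) (hg 1 0) (hg 0 1) (hg 1 1)
    have hdet : (mt H g (n + 1)).det = 0 := by
      rw [Matrix.det_fin_two]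
      show H.c (n + 1) _ * H.c (n + 1) _ - H.c (n + 1) _ * H.c (n + 1) _ = 0
      rw [hdep]
      ring
    obtain ⟨v, hv, hmv⟩ := Matrix.exists_mulVec_eq_zero_iff.mpr hdet
    have hrow : ∀ i, mt H g (n + 1) i 0 * v 0 + mt H g (n + 1) i 1 * v 1 = 0 := by
      intro i
      have := congrFun hmv i
      rw [Matrix.mulVec, dotProduct, Fin.sum_univ_two] at this
      exact this
    have hex : ∃ h0 : (Matrix (Fin 2) (Fin 2) K)ˣ, (h0 : Matrix (Fin 2) (Fin 2) K) 0 0 = v 0 ∧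
        (h0 : Matrix (Fin 2) (Fin 2) K) 1 0 = v 1 := by
      by_cases h0 : v 0 = 0
      · have h1 : v 1 ≠ 0 := by
          intro h1
          apply hv
          funext i
          fin_cases i
          · exact h0
          · exact h1
        refine ⟨Matrix.GeneralLinearGroup.mkOfDetNeZero !![v 0, 1; v 1, 0] ?_, ?_, ?_⟩
        · rw [Matrix.det_fin_two]
          simp [h1]
        · rfl
        · rfl
      · refine ⟨Matrix.GeneralLinearGroup.mkOfDetNeZero !![v 0, 0; v 1, 1] ?_, ?_, ?_⟩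
        · rw [Matrix.det_fin_two]
          simp [h0]
        · rfl
        · rfl
    obtain ⟨h0, e0, e1⟩ := hex
    refine ⟨Units.map (ι.mapMatrix (m := Fin 2) : Matrix (Fin 2) (Fin 2) K →* Matrix (Fin 2) (Fin 2) R) h0, ⟨h0, rfl⟩, ?_⟩
    rw [leC_iff H g n hg h0]
    intro i
    rw [e0, e1]
    exact hrow i
  · rintro hn h ⟨h0, rfl⟩ h' ⟨h1, rfl⟩ hh hh'
    rw [leC_iff H g n hg h0] at hh
    rw [leC_iff H g n hg h1] at hh'
    have hne : ∃ i j, mt H g (n + 1) i j ≠ 0 := by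
      by_contra hcon
      push Not at hcon
      apply hn
      intro i j k hk
      rcases Nat.lt_or_ge (n + 1) k with h2 | h2
      · exact hg i j k h2
      · have : k = n + 1 := by omega
        subst this
        exact hcon i j
    obtain ⟨i, j, hij⟩ := hne
    have hp : mt H g (n + 1) i 0 * ((h0 : Matrix (Fin 2) (Fin 2) K) 0 0 *
        (h1 : Matrix (Fin 2) (Fin 2) K) 1 0 - (h0 : Matrix (Fin 2) (Fin 2) K) 1 0 *
        (h1 : Matrix (Fin 2) (Fin 2) K) 0 0) = 0 := by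
      linear_combination (h1 : Matrix (Fin 2) (Fin 2) K) 1 0 * hh i -
        (h0 : Matrix (Fin 2) (Fin 2) K) 1 0 * hh' i
    have hq : mt H g (n + 1) i 1 * ((h0 : Matrix (Fin 2) (Fin 2) K) 0 0 *
        (h1 : Matrix (Fin 2) (Fin 2) K) 1 0 - (h0 : Matrix (Fin 2) (Fin 2) K) 1 0 *
        (h1 : Matrix (Fin 2) (Fin 2) K) 0 0) = 0 := by
      linear_combination (h0 : Matrix (Fin 2) (Fin 2) K) 0 0 * hh' i -
        (h1 : Matrix (Fin 2) (Fin 2) K) 0 0 * hh i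
    have e : (h0 : Matrix (Fin 2) (Fin 2) K) 0 0 * (h1 : Matrix (Fin 2) (Fin 2) K) 1 0 =
        (h0 : Matrix (Fin 2) (Fin 2) K) 1 0 * (h1 : Matrix (Fin 2) (Fin 2) K) 0 0 := by
      rw [← sub_eq_zero]
      fin_cases j
      · exact (mul_eq_zero.mp hp).resolve_left hij
      · exact (mul_eq_zero.mp hq).resolve_left hij
    have x1 := inv_mul_entry h0 h1 e
    have x2 := inv_mul_entry h1 h0 (by linear_combination -e)
    have e3 : (Units.map (ι.mapMatrix (m := Fin 2) : Matrix (Fin 2) (Fin 2) K →* Matrix (Fin 2) (Fin 2) R) h0)⁻¹ *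
        Units.map (ι.mapMatrix (m := Fin 2) : Matrix (Fin 2) (Fin 2) K →* Matrix (Fin 2) (Fin 2) R) h1 =
        Units.map (ι.mapMatrix (m := Fin 2) : Matrix (Fin 2) (Fin 2) K →* Matrix (Fin 2) (Fin 2) R) (h0⁻¹ * h1) := by
      rw [map_mul, map_inv]
    rw [e3]
    refine ⟨?_, ?_⟩
    · show ι (((h0⁻¹ * h1 : (Matrix (Fin 2) (Fin 2) K)ˣ) : Matrix (Fin 2) (Fin 2) K) 1 0) = 0
      rw [x1, map_zero]
    · rw [← map_inv, _root_.mul_inv_rev, inv_inv]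
      show ι (((h1⁻¹ * h0 : (Matrix (Fin 2) (Fin 2) K)ˣ) : Matrix (Fin 2) (Fin 2) K) 1 0) = 0
      rw [x2, map_zero]

end Pool.Agent.T2h61.DO.LWA
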