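import Pool.Agent.T2h61.DO.Def

set_option autoImplicit false

namespace Pool.Agent.T2h61.DO.LWU

open Matrix

section

variable {K R : Type} [Field K] [Ring R] {ι : K →+* R}

theorem one_ne (H : Cf K R ι) : (1 : R) ≠ 0 := by
  intro h
  have h1 := H.c0 1
  rw [map_one, h, map_zero] at h1
  exact zero_ne_one h1

theorem le_mul (H : Cf K R ι) {n : ℕ} {r : R} (hr : H.Le n r) (a : K) :
    H.Le n (r * ι a) ∧ H.c n (r * ι a) = H.c n r * a := by
  have h := H.mul r (ι a) n 0 hr (fun i hi => H.cn a i hi)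
  rw [add_zero, H.c0] at h
  exact ⟨h.2, h.1⟩

theorem le_sub (H : Cf K R ι) {n : ℕ} {r s : R} (hr : H.Le n r) (hs : H.Le n s) :
    H.Le n (r - s) := by
  intro i hi
  rw [map_sub, hr i hi, hs i hi, sub_zero]

end

theorem t_LWU : S_LWU := by
  intro hJ hZ K R _ _ ι H g n hg hmin j hj j' hj' hgj hgj'
  have hJJ : j⁻¹ * j' ∈ JJ R := (JJ R).mul_mem ((JJ R).inv_mem hj) hj'
  set J := j⁻¹ * j' with hJdef
  have hGJ : (g * j) * J = g * j' := by
    rw [hJdef, mul_assoc, mul_inv_cancel_left]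
  obtain ⟨α, β, hα, hβ, hjα, hjβ⟩ := (hJ K R ι H).1 j hj
  obtain ⟨a, d, ha, hd, hJa, hJd⟩ := (hJ K R ι H).1 J hJJ
  -- an entry of the first column of exact degree n
  have hex : ∃ i, H.c n ((g : Matrix (Fin 2) (Fin 2) R) i 0) ≠ 0 := by
    rcases Nat.eq_zero_or_pos n with hn | hn
    · subst hn
      by_contra hc
      push Not at hc
      have h0 : ∀ i, (g : Matrix (Fin 2) (Fin 2) R) i 0 = 0 := fun i => by
        apply H.ext0
        intro k
        rcases Nat.eq_zero_or_pos k with hk | hk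
        · rw [hk]; exact hc i
        · exact hg i k hk
      have h1 : (((g⁻¹ : G R) : Matrix (Fin 2) (Fin 2) R) * (g : Matrix (Fin 2) (Fin 2) R)) 0 0 = 1 := by
        rw [Units.inv_mul]; simp
      rw [Matrix.mul_apply, Fin.sum_univ_two, h0, h0, mul_zero, mul_zero, add_zero] at h1
      exact one_ne H h1.symm
    · have h1 := hmin (n - 1) (by omega)
      unfold Cf.LeC Cf.Le at h1
      push Not at h1
      obtain ⟨i, k, hk, hc⟩ := h1
      refine ⟨i, ?_⟩
      have : k = n := by
        by_contra hne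
        exact hc (hg i k (by omega))
      rw [← this]
      exact hc
  obtain ⟨i, hi⟩ := hex
  -- the first column of g j
  have hcol : ((g * j : G R) : Matrix (Fin 2) (Fin 2) R) i 0 =
      (g : Matrix (Fin 2) (Fin 2) R) i 0 * ι α := by
    rw [Units.val_mul, Matrix.mul_apply, Fin.sum_univ_two, hjα, hj.1, mul_zero, add_zero]
  have hlead : H.c n (((g * j : G R) : Matrix (Fin 2) (Fin 2) R) i 0) ≠ 0 := by
    rw [hcol, (le_mul H (hg i) α).2]
    exact mul_ne_zero hi hα
  -- the upper right entry of J has degree zero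
  have hb : H.Le n (((g * j : G R) : Matrix (Fin 2) (Fin 2) R) i 0 *
      (J : Matrix (Fin 2) (Fin 2) R) 0 1) := by
    have h1 : ((g * j' : G R) : Matrix (Fin 2) (Fin 2) R) i 1 =
        ((g * j : G R) : Matrix (Fin 2) (Fin 2) R) i 0 * (J : Matrix (Fin 2) (Fin 2) R) 0 1 +
        ((g * j : G R) : Matrix (Fin 2) (Fin 2) R) i 1 * ι d := by
      rw [← hGJ, Units.val_mul (g * j) J, Matrix.mul_apply, Fin.sum_univ_two, hJd]
    have h2 : ((g * j : G R) : Matrix (Fin 2) (Fin 2) R) i 0 * (J : Matrix (Fin 2) (Fin 2) R) 0 1 =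
        ((g * j' : G R) : Matrix (Fin 2) (Fin 2) R) i 1 -
        ((g * j : G R) : Matrix (Fin 2) (Fin 2) R) i 1 * ι d := by
      rw [h1, add_sub_cancel_right]
    rw [h2]
    exact le_sub H (hgj' i 1) (le_mul H (hgj i 1) d).1
  have hb0 : H.Le 0 ((J : Matrix (Fin 2) (Fin 2) R) 0 1) := by
    classical
    set b := (J : Matrix (Fin 2) (Fin 2) R) 0 1
    have hN := Nat.find_spec (H.fin b)
    rcases Nat.eq_zero_or_pos (Nat.find (H.fin b)) with h0 | h0
    · rw [h0] at hN
      exact hN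
    · exfalso
      have hne : H.c (Nat.find (H.fin b)) b ≠ 0 := by
        intro hz
        apply Nat.find_min (H.fin b) (m := Nat.find (H.fin b) - 1) (by omega)
        intro k hk
        by_cases hk' : k = Nat.find (H.fin b)
        · rw [hk']; exact hz
        · exact hN k (by omega)
      have h1 := (H.mul _ b n (Nat.find (H.fin b)) (hgj i 0) hN).1
      rw [hb _ (by omega)] at h1
      exact mul_ne_zero hlead hne h1.symm
  apply hZ K R ι H J
  intro p q
  fin_cases p <;> fin_cases q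
  · show H.Le 0 ((J : Matrix (Fin 2) (Fin 2) R) 0 0)
    rw [hJa]
    exact fun k hk => H.cn a k hk
  · exact hb0
  · show H.Le 0 ((J : Matrix (Fin 2) (Fin 2) R) 1 0)
    rw [hJJ.1]
    exact fun k _ => map_zero _
  · show H.Le 0 ((J : Matrix (Fin 2) (Fin 2) R) 1 1)
    rw [hJd]
    exact fun k hk => H.cn d k hk

end Pool.Agent.T2h61.DO.LWU
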