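import Pool.Agent.T2h61.DO.Def

/-!
# STB: the elements which fix a long path are scalar and constant
-/

set_option autoImplicit false

namespace Pool.Agent.T2h61.DO.STB

open Matrix Pool.Agent.T2h61.DO

lemma sw_conj {R : Type} [Ring R] (g : G R) :
    (((sw R)⁻¹ * g * sw R : G R) : Matrix (Fin 2) (Fin 2) R) 1 0 =
      (g : Matrix (Fin 2) (Fin 2) R) 0 1 := by
  have h1 : ((sw R : G R) : Matrix (Fin 2) (Fin 2) R) = !![0, 1; 1, 0] := rfl
  have h2 : (((sw R)⁻¹ : G R) : Matrix (Fin 2) (Fin 2) R) = !![0, 1; 1, 0] := rfl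
  rw [Units.val_mul, Units.val_mul, h1, h2]
  rw [Matrix.mul_apply, Fin.sum_univ_two, Matrix.mul_apply, Matrix.mul_apply, Fin.sum_univ_two,
    Fin.sum_univ_two]
  simp

lemma AA_entry {K R : Type} [Field K] [Ring R] {ι : K →+* R} {g : G R} (hg : g ∈ AA ι) :
    ∃ m : Matrix (Fin 2) (Fin 2) K, ∀ i j, (g : Matrix (Fin 2) (Fin 2) R) i j = ι (m i j) := by
  obtain ⟨u, rfl⟩ := hg
  exact ⟨u, fun i j => rfl⟩

theorem t_STB : S_STB := by
  intro hcen hjme hzer K R _ _ _ ι x δ hD H hH g j hj hjA hgA hgJ hg1 hu hu1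
  obtain ⟨m, hm⟩ := AA_entry hgA
  have g10 : (g : Matrix (Fin 2) (Fin 2) R) 1 0 = 0 := hgJ.1
  have g01 : (g : Matrix (Fin 2) (Fin 2) R) 0 1 = 0 := by
    rw [← sw_conj]
    exact hg1.1
  set a := m 0 0 with ha
  set d := m 1 1 with hd
  obtain ⟨α, β, hα, hβ, j00, j11⟩ := (hjme K R ι H).1 j hj
  have j10 : (j : Matrix (Fin 2) (Fin 2) R) 1 0 = 0 := hj.1
  set p := (j : Matrix (Fin 2) (Fin 2) R) 0 1 with hp
  set u : G R := j⁻¹ * g * j with hud
  have u01 : (u : Matrix (Fin 2) (Fin 2) R) 0 1 = 0 := by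
    rw [← sw_conj]
    exact hu1.1
  have hju : (j : Matrix (Fin 2) (Fin 2) R) * (u : Matrix (Fin 2) (Fin 2) R) =
      (g : Matrix (Fin 2) (Fin 2) R) * (j : Matrix (Fin 2) (Fin 2) R) := by
    rw [← Units.val_mul, ← Units.val_mul, hud, mul_assoc, mul_inv_cancel_left]
  have e01 := congrFun (congrFun hju 0) 1
  have e11 := congrFun (congrFun hju 1) 1
  rw [Matrix.mul_apply, Matrix.mul_apply, Fin.sum_univ_two, Fin.sum_univ_two, u01, g01, mul_zero,
    zero_mul, zero_add, add_zero, ← hp, hm 0 0, ← ha] at e01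
  rw [Matrix.mul_apply, Matrix.mul_apply, Fin.sum_univ_two, Fin.sum_univ_two, u01, g10, mul_zero,
    zero_mul, zero_add, zero_add, j11, hm 1 1, ← hd] at e11
  have hu11 : (u : Matrix (Fin 2) (Fin 2) R) 1 1 = ι d := by
    have h1 : ι β⁻¹ * (ι β * (u : Matrix (Fin 2) (Fin 2) R) 1 1) = ι β⁻¹ * (ι d * ι β) := by
      rw [e11]
    rw [← mul_assoc, ← map_mul, inv_mul_cancel₀ hβ, map_one, one_mul, ← map_mul, ← map_mul] at h1
    rw [h1]
    congr 1
    field_simp
  rw [hu11] at e01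
  -- `p * ι d = ι a * p`
  have hp0 : ¬ H.Le 0 p := by
    intro h
    refine hjA (hzer K R ι H j ?_)
    intro s t
    fin_cases s <;> fin_cases t
    · change H.Le 0 ((j : Matrix (Fin 2) (Fin 2) R) 0 0)
      rw [j00]
      exact fun i hi => H.cn _ _ hi
    · exact h
    · change H.Le 0 ((j : Matrix (Fin 2) (Fin 2) R) 1 0)
      rw [j10]
      exact fun i hi => map_zero _
    · change H.Le 0 ((j : Matrix (Fin 2) (Fin 2) R) 1 1)
      rw [j11]
      exact fun i hi => H.cn _ _ hi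
  have had : a = d := by
    classical
    have hne : ∃ i, 0 < i ∧ H.c i p ≠ 0 := by
      by_contra hcon
      push Not at hcon
      exact hp0 fun i hi => hcon i hi
    obtain ⟨i0, hi0, hi0'⟩ := hne
    let N := Nat.findGreatest (fun i => H.c i p ≠ 0) (H.fin p).choose
    have hfin := (H.fin p).choose_spec
    have hi0le : i0 ≤ (H.fin p).choose := by
      by_contra hcon
      push Not at hcon
      exact hi0' (hfin i0 hcon)
    have hN1 : H.c N p ≠ 0 := Nat.findGreatest_spec (P := fun i => H.c i p ≠ 0) hi0le hi0'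
    have hN2 : ∀ i, N < i → H.c i p = 0 := by
      intro i hi
      by_cases hle : i ≤ (H.fin p).choose
      · have := Nat.findGreatest_is_greatest (P := fun i => H.c i p ≠ 0) hi hle
        exact not_not.1 this
      · exact hfin i (not_le.1 hle)
    have m1 := (H.mul p (ι d) N 0 hN2 (fun i hi => H.cn _ _ hi)).1
    have m2 := (H.mul (ι a) p 0 N (fun i hi => H.cn _ _ hi) hN2).1
    rw [add_zero, H.c0] at m1
    rw [zero_add, H.c0] at m2
    rw [e01, m2, mul_comm] at m1
    exact mul_left_cancel₀ hN1 m1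
  rw [had] at e01
  have hδ : δ d = 0 := hcen K R ι x δ hD H hH p d hp0 e01.symm
  have hcomm : ∀ r : R, Commute (ι d) r := by
    intro r
    obtain ⟨q, rfl⟩ := hD.ex r
    have hx : Commute (ι d) x := by
      have := hD.comm d
      rw [hδ, map_zero, add_zero] at this
      exact this.symm
    rw [Polynomial.sum_def]
    refine Commute.sum_right _ _ _ fun i _ => ?_
    refine Commute.mul_right ?_ (hx.pow_right i)
    change ι d * ι _ = ι _ * ι d
    rw [← map_mul, ← map_mul, mul_comm]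
  have hgd : (g : Matrix (Fin 2) (Fin 2) R) = Matrix.diagonal fun _ => ι d := by
    ext s t
    fin_cases s <;> fin_cases t
    · change (g : Matrix (Fin 2) (Fin 2) R) 0 0 = _
      rw [hm 0 0, ← ha, had]
      simp
    · change (g : Matrix (Fin 2) (Fin 2) R) 0 1 = _
      rw [g01]
      simp
    · change (g : Matrix (Fin 2) (Fin 2) R) 1 0 = _
      rw [g10]
      simp
    · change (g : Matrix (Fin 2) (Fin 2) R) 1 1 = _
      rw [hm 1 1, ← hd]
      simp
  refine ⟨⟨d, hgd⟩, fun t => Units.ext ?_⟩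
  rw [Units.val_mul, Units.val_mul, hgd]
  ext s r
  rw [Matrix.mul_diagonal, Matrix.diagonal_mul]
  exact (hcomm _).eq.symm

end Pool.Agent.T2h61.DO.STB
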