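import Pool.Agent.T2h61.DO.Stm

/-!
# TR: the coset graph is a tree
-/

set_option autoImplicit false

namespace Pool.Agent.T2h61.DO

open Matrix
open Pool.Agent.T2h61.PL (CG S_TREE S_CON)

namespace TR

variable {K R : Type} [Field K] [Ring R] {ι : K →+* R}

theorem le_mono (H : Cf K R ι) {m n : ℕ} {r : R} (h : H.Le m r) (hmn : m ≤ n) : H.Le n r :=
  fun i hi => h i (lt_of_le_of_lt hmn hi)

theorem le_add (H : Cf K R ι) {n : ℕ} {r s : R} (h1 : H.Le n r) (h2 : H.Le n s) :
    H.Le n (r + s) := fun i hi => by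
  rw [map_add, h1 i hi, h2 i hi, add_zero]

theorem le_mul (H : Cf K R ι) {n : ℕ} {r : R} (h : H.Le n r) (a : K) : H.Le n (r * ι a) :=
  fun i hi => (H.mul r (ι a) n 0 h fun i hi => H.cn a i hi).2 i (by simpa using hi)

theorem leM_mul (H : Cf K R ι) {n : ℕ} {g a : G R} (h : H.LeM n g) (ha : a ∈ AA ι) :
    H.LeM n (g * a) := by
  obtain ⟨u, rfl⟩ := ha
  intro i j
  rw [Units.val_mul, Matrix.mul_apply, Fin.sum_univ_two]
  exact le_add H (le_mul H (h i 0) _) (le_mul H (h i 1) _)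

theorem leC_mul (hJ : S_JME) (H : Cf K R ι) {n : ℕ} {g a : G R} (h : H.LeC n g) (ha : a ∈ JJ R) :
    H.LeC n (g * a) := by
  obtain ⟨p, -, -, -, hp, -⟩ := (hJ K R ι H).1 a ha
  intro i
  rw [Units.val_mul, Matrix.mul_apply, Fin.sum_univ_two, ha.1, mul_zero, add_zero, hp]
  exact le_mul H (h i) _

theorem exM (H : Cf K R ι) (g : G R) : ∃ n, H.LeM n g := by
  choose N hN using fun i j => H.fin ((g : Matrix (Fin 2) (Fin 2) R) i j)
  refine ⟨∑ i, ∑ j, N i j, fun i j => le_mono H (hN i j) ?_⟩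
  exact (Finset.single_le_sum (f := fun j => N i j) (fun _ _ => Nat.zero_le _)
    (Finset.mem_univ j)).trans (Finset.single_le_sum (f := fun i => ∑ j, N i j)
      (fun _ _ => Nat.zero_le _) (Finset.mem_univ i))

theorem exC (H : Cf K R ι) (g : G R) : ∃ n, H.LeC n g := by
  obtain ⟨n, hn⟩ := exM H g
  exact ⟨n, fun i => hn i 0⟩

open Classical in
/-- the degree of a matrix -/
noncomputable def mM (H : Cf K R ι) (g : G R) : ℕ := Nat.find (exM H g)

open Classical in
/-- the degree of the first column -/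
noncomputable def mC (H : Cf K R ι) (g : G R) : ℕ := Nat.find (exC H g)

theorem mM_spec (H : Cf K R ι) (g : G R) : H.LeM (mM H g) g := by
  classical
  exact Nat.find_spec (exM H g)

theorem mC_spec (H : Cf K R ι) (g : G R) : H.LeC (mC H g) g := by
  classical
  exact Nat.find_spec (exC H g)

theorem mM_le (H : Cf K R ι) {g : G R} {n : ℕ} (h : H.LeM n g) : mM H g ≤ n := by
  classical
  exact Nat.find_min' (exM H g) h

theorem mC_le (H : Cf K R ι) {g : G R} {n : ℕ} (h : H.LeC n g) : mC H g ≤ n := by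
  classical
  exact Nat.find_min' (exC H g) h

theorem mM_eq (H : Cf K R ι) (g a : G R) (ha : a ∈ AA ι) : mM H (g * a) = mM H g := by
  refine le_antisymm (mM_le H (leM_mul H (mM_spec H g) ha)) ?_
  have h := leM_mul H (mM_spec H (g * a)) ((AA ι).inv_mem ha)
  rw [mul_inv_cancel_right] at h
  exact mM_le H h

theorem mC_eq (hJ : S_JME) (H : Cf K R ι) (g a : G R) (ha : a ∈ JJ R) :
    mC H (g * a) = mC H g := by
  refine le_antisymm (mC_le H (leC_mul hJ H (mC_spec H g) ha)) ?_
  have h := leC_mul hJ H (mC_spec H (g * a)) ((JJ R).inv_mem ha)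
  rw [mul_inv_cancel_right] at h
  exact mC_le H h

/-- the height -/
noncomputable def ht (H : Cf K R ι) : (G R ⧸ AA ι) ⊕ (G R ⧸ JJ R) → ℕ
  | Sum.inl q => 2 * mM H q.out
  | Sum.inr q => 2 * mC H q.out + 1

theorem ht_inl (H : Cf K R ι) (g : G R) : ht H (Sum.inl (g : G R ⧸ AA ι)) = 2 * mM H g := by
  obtain ⟨a, ha⟩ := QuotientGroup.mk_out_eq_mul (AA ι) g
  show 2 * mM H ((g : G R ⧸ AA ι).out) = _
  rw [ha, mM_eq H _ _ a.2]

theorem ht_inr (hJ : S_JME) (H : Cf K R ι) (g : G R) :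
    ht H (Sum.inr (g : G R ⧸ JJ R)) = 2 * mC H g + 1 := by
  obtain ⟨a, ha⟩ := QuotientGroup.mk_out_eq_mul (JJ R) g
  show 2 * mC H ((g : G R ⧸ JJ R).out) + 1 = _
  rw [ha, mC_eq hJ H _ _ a.2]

theorem t_TR : S_TR := by
  intro hT hC hDEP hJ hZ hLA hLU K R _ _ ι H htop
  refine hT _ _ (ht H) (hC _ _ _ htop) ?_ ?_
  · rintro u v ⟨g, ⟨rfl, rfl⟩ | ⟨rfl, rfl⟩⟩
    · rw [ht_inl, ht_inr hJ]; omega
    · rw [ht_inl, ht_inr hJ]; omega
  · rintro v u w ⟨g, ⟨hv, rfl⟩ | ⟨hv, rfl⟩⟩ ⟨g', ⟨hv', rfl⟩ | ⟨hv', rfl⟩⟩ h1 h2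
    · rw [hv] at hv' h1 h2
      have hm : ((g : G R) : G R ⧸ AA ι) = (g' : G R ⧸ AA ι) := Sum.inl_injective hv'
      rw [hm] at h2
      rw [ht_inl, ht_inr hJ] at h1 h2
      have ha : g⁻¹ * g' ∈ AA ι := QuotientGroup.eq.1 hm
      have hM : mM H g' = mM H g := by
        have := mM_eq H g _ ha
        rwa [mul_inv_cancel_left] at this
      obtain ⟨n, hn⟩ : ∃ n, mM H g = n + 1 := ⟨mM H g - 1, by omega⟩
      have hA := hLA hDEP K R ι H g n (hn ▸ mM_spec H g)
      have hnot : ¬ H.LeM n g := fun h => by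
        have := mM_le H h
        omega
      have h3 := hA.2 hnot 1 (AA ι).one_mem (g⁻¹ * g') ha
        (by
          rw [mul_one]
          exact fun i => le_mono H (mC_spec H g i) (by omega))
        (by
          rw [mul_inv_cancel_left]
          exact fun i => le_mono H (mC_spec H g' i) (by omega))
      rw [inv_one, one_mul] at h3
      exact congrArg Sum.inr (QuotientGroup.eq.2 h3)
    · exact absurd (hv.symm.trans hv') (by simp)
    · exact absurd (hv.symm.trans hv') (by simp)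
    · rw [hv] at hv' h1 h2
      have hm : ((g : G R) : G R ⧸ JJ R) = (g' : G R ⧸ JJ R) := Sum.inr_injective hv'
      rw [hm] at h2
      rw [ht_inl, ht_inr hJ] at h1 h2
      have ha : g⁻¹ * g' ∈ JJ R := QuotientGroup.eq.1 hm
      have hM : mC H g' = mC H g := by
        have := mC_eq hJ H g _ ha
        rwa [mul_inv_cancel_left] at this
      have h3 := hLU hJ hZ K R ι H g (mC H g) (mC_spec H g)
        (fun k hk h => by
          have := mC_le H h
          omega) 1 (JJ R).one_mem (g⁻¹ * g') ha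
        (by
          rw [mul_one]
          exact fun i j => le_mono H (mM_spec H g i j) (by omega))
        (by
          rw [mul_inv_cancel_left]
          exact fun i j => le_mono H (mM_spec H g' i j) (by omega))
      rw [inv_one, one_mul] at h3
      exact congrArg Sum.inl (QuotientGroup.eq.2 h3)

end TR

end Pool.Agent.T2h61.DO
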