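import Pool.Agent.T2h61.DO.Def

/-!
# DO, task UDT: the determinants are units
-/

set_option autoImplicit false

namespace Pool.Agent.T2h61.DO.UDT

open Matrix

theorem int_of_bdd {K A : Type} [Field K] [CommRing A] [IsDomain A] [IsNoetherianRing A]
    [IsIntegrallyClosed A] [Algebra A K] [IsFractionRing A K] (d : K) (t : A) (ht : t ≠ 0)
    (h : ∀ n : ℕ, ∃ r : A, algebraMap A K t * d ^ n = algebraMap A K r) :
    ∃ a : A, algebraMap A K a = d := by
  have h1 : IsAlmostIntegral A d := by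
    refine ⟨t, mem_nonZeroDivisors_of_ne_zero ht, fun n => ?_⟩
    obtain ⟨r, hr⟩ := h n
    exact ⟨r, by rw [Algebra.smul_def, hr]⟩
  have h2 : IsIntegral A d := h1.isIntegral
  exact IsIntegrallyClosed.isIntegral_iff.mp h2

theorem t_UDT : S_UDT := by
  intro K A _ _ _ _ _ _ _ P s hs hP h hh
  have key : ∀ g ∈ P, ∃ a : A, algebraMap A K a = (g : Matrix (Fin 2) (Fin 2) K).det := by
    intro g hg
    refine int_of_bdd _ (s * s) (mul_ne_zero hs hs) fun n => ?_
    have h1 : ((g : Matrix (Fin 2) (Fin 2) K).det) ^ n =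
        ((g ^ n : Matrix.GeneralLinearGroup (Fin 2) K) : Matrix (Fin 2) (Fin 2) K).det := by
      rw [Units.val_pow_eq_pow_val, Matrix.det_pow]
    obtain ⟨a, ha⟩ := hP (g ^ n) (P.pow_mem hg n) 0 0
    obtain ⟨b, hb⟩ := hP (g ^ n) (P.pow_mem hg n) 0 1
    obtain ⟨c, hc⟩ := hP (g ^ n) (P.pow_mem hg n) 1 0
    obtain ⟨e, he⟩ := hP (g ^ n) (P.pow_mem hg n) 1 1
    refine ⟨a * e - b * c, ?_⟩
    rw [h1, Matrix.det_fin_two, map_sub, map_mul, map_mul, map_mul, ← ha, ← hb, ← hc, ← he]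
    ring
  obtain ⟨a, ha⟩ := key h hh
  obtain ⟨b, hb⟩ := key h⁻¹ (P.inv_mem hh)
  have hab : a * b = 1 := by
    apply IsFractionRing.injective A K
    rw [map_mul, ha, hb, map_one, ← Matrix.det_mul, ← Units.val_mul, mul_inv_cancel, Units.val_one,
      Matrix.det_one]
  exact ⟨⟨a, b, hab, by rw [mul_comm]; exact hab⟩, ha.symm⟩

end Pool.Agent.T2h61.DO.UDT
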