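import Mathlib
import Pool.Agent.T2h61.DO.Def

/-! # VBD: bounded denominators -/

set_option autoImplicit false

namespace Pool.Agent.T2h61.DO.VBD

open Matrix

theorem t_VBD : S_VBD := by
  intro hD K R A _ _ _ _ _ _ ι x δ hdo hδ H hH g
  obtain ⟨m1, m2⟩ := hD K R A ι x δ hdo hδ H hH
  choose s hs0 hsl hsr using m2
  have hiota : ∀ a : A, ι (algebraMap A K a) ∈ AX A ι x := fun a =>
    Subring.subset_closure (Or.inl ⟨a, rfl⟩)
  set gi : Matrix (Fin 2) (Fin 2) R := ((g⁻¹ : G R) : Matrix (Fin 2) (Fin 2) R) with hgi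
  set gm : Matrix (Fin 2) (Fin 2) R := (g : Matrix (Fin 2) (Fin 2) R) with hgm
  set s1 : A := ∏ p : Fin 2 × Fin 2, s (gi p.1 p.2) with hs1
  set s2 : A := ∏ p : Fin 2 × Fin 2, s (gm p.1 p.2) with hs2
  have h1 : ∀ i j, ι (algebraMap A K s1) * gi i j ∈ AX A ι x := by
    intro i j
    have e : s1 = (∏ p ∈ Finset.univ.erase (i, j), s (gi p.1 p.2)) * s (gi i j) := by
      rw [hs1, ← Finset.prod_erase_mul Finset.univ _ (Finset.mem_univ (i, j))]
    rw [e, map_mul, map_mul, mul_assoc]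
    exact Subring.mul_mem _ (hiota _) (hsl _)
  have h2 : ∀ i j, gm i j * ι (algebraMap A K s2) ∈ AX A ι x := by
    intro i j
    have e : s2 = s (gm i j) * (∏ p ∈ Finset.univ.erase (i, j), s (gm p.1 p.2)) := by
      rw [hs2, ← Finset.mul_prod_erase Finset.univ _ (Finset.mem_univ (i, j))]
    rw [e, map_mul, map_mul, ← mul_assoc]
    exact Subring.mul_mem _ (hsr _) (hiota _)
  refine ⟨s1 * s2, mul_ne_zero (Finset.prod_ne_zero_iff.2 fun _ _ => hs0 _)
    (Finset.prod_ne_zero_iff.2 fun _ _ => hs0 _), fun h hu i j => ?_⟩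
  set hm : G R := Units.map (ι.mapMatrix (m := Fin 2) : Matrix (Fin 2) (Fin 2) K →* _) h with hhm
  set u : Matrix (Fin 2) (Fin 2) R := ((g * hm * g⁻¹ : G R) : Matrix (Fin 2) (Fin 2) R) with hu'
  have e1 : (hm : Matrix (Fin 2) (Fin 2) R) = gi * u * gm := by
    rw [hgi, hu', hgm, ← Units.val_mul, ← Units.val_mul]
    congr 1
    group
  have e2 : (hm : Matrix (Fin 2) (Fin 2) R) i j = ι ((h : Matrix (Fin 2) (Fin 2) K) i j) := rfl
  have e3 : ι (algebraMap A K s1) * ι ((h : Matrix (Fin 2) (Fin 2) K) i j) * ι (algebraMap A K s2) ∈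
      AX A ι x := by
    rw [← e2, e1, Matrix.mul_apply, Finset.mul_sum, Finset.sum_mul]
    refine Subring.sum_mem _ fun l _ => ?_
    rw [Matrix.mul_apply, Finset.sum_mul, Finset.mul_sum, Finset.sum_mul]
    refine Subring.sum_mem _ fun k _ => ?_
    have e4 : ι (algebraMap A K s1) * (gi i k * u k l * gm l j) * ι (algebraMap A K s2) =
        (ι (algebraMap A K s1) * gi i k) * u k l * (gm l j * ι (algebraMap A K s2)) := by
      simp only [mul_assoc]
    rw [e4]
    exact Subring.mul_mem _ (Subring.mul_mem _ (h1 i k) (hu k l)) (h2 l j)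
  rw [← map_mul, ← map_mul] at e3
  obtain ⟨a, ha⟩ := (m1 _).1 e3 0
  rw [H.c0] at ha
  refine ⟨a, ?_⟩
  rw [← ha, map_mul]
  ring

end Pool.Agent.T2h61.DO.VBD
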