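import Pool.Agent.T2h61.DO.Def

set_option autoImplicit false

namespace Pool.Agent.T2h61.DO.ZER

open Matrix

theorem inj {K R : Type} [Field K] [Ring R] {ι : K →+* R} (H : Cf K R ι) : Function.Injective ι := by
  intro a b h
  rw [← H.c0 a, ← H.c0 b, h]

theorem t_ZER : S_ZER := by
  intro K R _ _ ι H g hg
  set m : Matrix (Fin 2) (Fin 2) K := fun i j => H.c 0 ((g : Matrix (Fin 2) (Fin 2) R) i j) with hm
  have hgm : (g : Matrix (Fin 2) (Fin 2) R) = ι.mapMatrix m := by
    ext i j
    exact H.const _ (hg i j)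
  have hdet : m.det ≠ 0 := by
    intro h0
    obtain ⟨w, hw0, hw⟩ := (Matrix.exists_mulVec_eq_zero_iff (M := m)).2 h0
    apply hw0
    have h1 : (g : Matrix (Fin 2) (Fin 2) R) *ᵥ (fun i => ι (w i)) = 0 := by
      funext i
      rw [hgm]
      have h2 := congrFun hw i
      simp only [Matrix.mulVec, dotProduct, Pi.zero_apply] at h2
      simp only [Matrix.mulVec, dotProduct, Pi.zero_apply, RingHom.mapMatrix_apply, Matrix.map_apply]
      rw [← map_zero ι, ← h2, map_sum]
      exact Finset.sum_congr rfl fun j _ => (map_mul ι _ _).symm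
    have h3 : (fun i => ι (w i)) = (0 : Fin 2 → R) := by
      have h4 : (((g⁻¹ : G R) : Matrix (Fin 2) (Fin 2) R) * (g : Matrix (Fin 2) (Fin 2) R)) *ᵥ
          (fun i => ι (w i)) = 0 := by
        rw [← Matrix.mulVec_mulVec, h1, Matrix.mulVec_zero]
      rw [Units.inv_mul, Matrix.one_mulVec] at h4
      exact h4
    funext i
    have h5 := congrFun h3 i
    simp only [Pi.zero_apply] at h5
    have h6 : ι (w i) = ι 0 := by rw [h5, map_zero]
    exact inj H h6
  have hu : IsUnit m := (Matrix.isUnit_iff_isUnit_det m).2 (isUnit_iff_ne_zero.2 hdet)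
  obtain ⟨u, hu⟩ := hu
  refine ⟨u, ?_⟩
  apply Units.ext
  rw [hgm, ← hu]
  rfl

end Pool.Agent.T2h61.DO.ZER
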