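import Pool.Agent.T2h61.DO.Core
import Pool.Agent.T2h61.DO.T_ACT
import Pool.Agent.T2h61.DO.T_BRU
import Pool.Agent.T2h61.DO.T_CEN
import Pool.Agent.T2h61.DO.T_CF
import Pool.Agent.T2h61.DO.T_DEL
import Pool.Agent.T2h61.DO.T_DEP
import Pool.Agent.T2h61.DO.T_DLS
import Pool.Agent.T2h61.DO.T_DNM
import Pool.Agent.T2h61.DO.T_EXS
import Pool.Agent.T2h61.DO.T_GEN
import Pool.Agent.T2h61.DO.T_JME
import Pool.Agent.T2h61.DO.T_LC
import Pool.Agent.T2h61.DO.T_LWA
import Pool.Agent.T2h61.DO.T_LWE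
import Pool.Agent.T2h61.DO.T_LWU
import Pool.Agent.T2h61.DO.T_STB
import Pool.Agent.T2h61.DO.T_TR
import Pool.Agent.T2h61.DO.T_UDT
import Pool.Agent.T2h61.DO.T_VBD
import Pool.Agent.T2h61.DO.T_ZER
import Pool.Agent.T2h61.PL.NRM7
import Pool.Agent.T2h61.PL.T_TREE
import Pool.Agent.T2h61.PL.T_CON
import Pool.Agent.T2h61.PN.T_BDD
import Pool.Agent.T2h61.PN.T_STEP
import Pool.Agent.T2h61.PN.T_VTA
import Pool.Agent.T2h61.PV.T_RFO
import Pool.Agent.T2h61.PV.T_ORU
import Pool.Agent.T2h61.PV.T_UNV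
import Pool.Agent.T2h61.PV.T_BDV

/-!
# `GL_2` of rings of differential operators: polynomial rings and affine varieties with one place
-/

set_option autoImplicit false

namespace Pool.Agent.T2h61.DO

open Matrix
open Pool.Agent.Y110.FJ (ClosedE)
open Pool.Agent.N509.TX (AcylF)
open Pool.Agent.T2h61
open Pool.Agent.T2h61.PV (OnePlace)

theorem brd : Brd where
  tree := PL.TREE.t_TREE
  con := PL.CON.t_CON
  nrm := PL.t_NRM7
  cf := CF.t_CF
  cen := CEN.t_CEN
  lc := LC.t_LC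
  dep := DEP.t_DEP
  zer := ZER.t_ZER
  bru := BRU.t_BRU
  jme := JME.t_JME
  lwa := LWA.t_LWA
  lwe := LWE.t_LWE
  lwu := LWU.t_LWU
  gen := GEN.t_GEN
  dls := DLS.t_DLS
  del := DEL.t_DEL
  stb := STB.t_STB
  dnm := DNM.t_DNM
  vbd := VBD.t_VBD
  udt := UDT.t_UDT
  tr := TR.t_TR
  act := ACT.t_ACT
  exs := EXS.t_EXS

variable {C : ∀ (G : Type) [Group G], Prop}

/-- groups of matrices with bounded denominators over polynomial rings -/
theorem bdd (hC : ClosedE C) (k : Type) [Field k] [CharZero k]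
    (h2 : C (Matrix.GeneralLinearGroup (Fin 2) k)) (m : ℕ) (K : Type) [Field K]
    [Algebra (MvPolynomial (Fin m) k) K] [IsFractionRing (MvPolynomial (Fin m) k) K]
    (Q : Subgroup (Matrix.GeneralLinearGroup (Fin 2) K)) (s : MvPolynomial (Fin m) k) (hs : s ≠ 0)
    (h1 : ∀ h ∈ Q, ∀ i j, ∃ r : MvPolynomial (Fin m) k,
      algebraMap (MvPolynomial (Fin m) k) K s * (h : Matrix (Fin 2) (Fin 2) K) i j = algebraMap _ K r)
    (h3 : ∀ h ∈ Q, ∃ u : (MvPolynomial (Fin m) k)ˣ,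
      (h : Matrix (Fin 2) (Fin 2) K).det = algebraMap (MvPolynomial (Fin m) k) K u) : C Q := by
  obtain ⟨e, he⟩ : ∃ e : K →+* FractionRing (MvPolynomial (Fin m) k), ∀ a : MvPolynomial (Fin m) k,
      e (algebraMap _ K a) = algebraMap _ (FractionRing (MvPolynomial (Fin m) k)) a :=
    ⟨((FractionRing.algEquiv (MvPolynomial (Fin m) k) K).symm : K →+* _), fun a =>
      (FractionRing.algEquiv (MvPolynomial (Fin m) k) K).symm.commutes a⟩
  obtain ⟨f, hf⟩ : ∃ f : Matrix.GeneralLinearGroup (Fin 2) K →*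
      Matrix.GeneralLinearGroup (Fin 2) (FractionRing (MvPolynomial (Fin m) k)),
      ∀ h, (f h : Matrix (Fin 2) (Fin 2) (FractionRing (MvPolynomial (Fin m) k))) =
        e.mapMatrix (h : Matrix (Fin 2) (Fin 2) K) :=
    ⟨Units.map (e.mapMatrix (m := Fin 2) : Matrix (Fin 2) (Fin 2) K →* _), fun h => rfl⟩
  have hfi : Function.Injective f := by
    intro a b hab
    have e1 := congrArg (fun u : Matrix.GeneralLinearGroup (Fin 2)
      (FractionRing (MvPolynomial (Fin m) k)) => (u : Matrix (Fin 2) (Fin 2)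
      (FractionRing (MvPolynomial (Fin m) k)))) hab
    simp only [hf] at e1
    apply Units.ext
    ext i j
    exact e.injective (congrFun (congrFun e1 i) j)
  have h4 : C (Q.map f) := by
    refine PN.BDD.t_BDD PN.STEP.t_STEP C hC k h2 m (Q.map f) s hs ?_ ?_
    · rintro _ ⟨h, hh, rfl⟩ i j
      obtain ⟨r, hr⟩ := h1 h hh i j
      refine ⟨r, ?_⟩
      rw [hf, ← he, ← he, ← hr, map_mul]
      rfl
    · rintro _ ⟨h, hh, rfl⟩
      obtain ⟨u, hu⟩ := h3 h hh
      obtain ⟨c, hc0, hc⟩ := PN.VTA.unit_eq m k u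
      refine ⟨c, hc0, ?_⟩
      rw [hf, ← RingHom.map_det, hu, he, hc]
  exact Pool.Agent.R941.FJ.C_equiv hC.base (Q.equivMapOfInjective f hfi) h4

/-- polynomial rings -/
theorem poly (hC : ClosedE C) (hM : ∀ (G : Type) [Group G], derivedSeries G 2 = ⊥ → C G)
    (hA : AcylF C) (k : Type) [Field k] [CharZero k] (h2 : C (Matrix.GeneralLinearGroup (Fin 2) k))
    (m : ℕ) (K : Type) [Field K] [Algebra (MvPolynomial (Fin m) k) K]
    [IsFractionRing (MvPolynomial (Fin m) k) K] (δ : Derivation ℤ K K)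
    (hδ : ∀ a : MvPolynomial (Fin m) k, ∃ b : MvPolynomial (Fin m) k,
      δ (algebraMap _ K a) = algebraMap _ K b)
    {R : Type} [Ring R] {ι : K →+* R} {x : R} (hR : IsDO K R ι x δ) :
    C (Matrix (Fin 2) (Fin 2) (AX (MvPolynomial (Fin m) k) ι x))ˣ := by
  have : CharZero K := charZero_of_injective_ringHom
    ((algebraMap (MvPolynomial (Fin m) k) K).comp MvPolynomial.C).injective
  exact general brd hC hM hA hR (MvPolynomial (Fin m) k) hδ fun Q s hs h1 h3 =>
    bdd hC k h2 m K Q s hs h1 h3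

open WithZero in
/-- affine varieties with one place -/
theorem place (hC : ClosedE C) (hM : ∀ (G : Type) [Group G], derivedSeries G 2 = ⊥ → C G)
    (hA : AcylF C) (k A K : Type) [Field k] [CharZero k] [CommRing A] [IsDomain A]
    [IsIntegrallyClosed A] [Algebra k A] [Algebra.FiniteType k A] [Field K] [Algebra A K]
    [IsFractionRing A K] (hk : ∀ n, C (Matrix.GeneralLinearGroup (Fin n) k))
    (v : Valuation K ℤᵐ⁰) (hv : OnePlace k A K v) (δ : Derivation ℤ K K)
    (hδ : ∀ a : A, ∃ b : A, δ (algebraMap A K a) = algebraMap A K b)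
    {R : Type} [Ring R] {ι : K →+* R} {x : R} (hR : IsDO K R ι x δ) :
    C (Matrix (Fin 2) (Fin 2) (AX A ι x))ˣ := by
  have : IsNoetherianRing A := Algebra.FiniteType.isNoetherianRing k A
  have : CharZero K := charZero_of_injective_ringHom
    ((algebraMap A K).comp (algebraMap k A)).injective
  exact general brd hC hM hA hR A hδ fun Q s hs h1 h3 =>
    PV.BDV.t_BDV PV.RFO.t_RFO PV.ORU.t_ORU PV.UNV.t_UNV C hC k A K hk v hv Q s hs h1 h3

end Pool.Agent.T2h61.DO
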