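import Pool.Agent.T2h61.DO.Def
import Pool.Agent.T2h61.PL.Stm7

/-!
# `GL_2` of rings of differential operators: the tasks on trees and classes of groups

Owner helper61.
-/

set_option autoImplicit false

namespace Pool.Agent.T2h61.DO

open Matrix
open Pool.Agent.Y110.FJ (ClosedE)
open Pool.Agent.N509.TX (AcylF)
open Pool.Agent.T2h61.PL (CG S_TREE S_CON)

/-- **TR** (150 lines). The coset graph is a tree. PROOF: it is connected by `S_CON` (`AA ⊔ JJ = ⊤`).
Height: `2 m` for `g AA`, `m` minimal with `LeM m g'` for some `g'` in the coset (then `LeM m` holds for all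
`g'` in the coset, as multiplication by matrices over `K` does not raise the degree), `2 n + 1` for `g JJ`,
`n` minimal with `LeC n g'` for some, equivalently all (`JME`, `mul`) `g'` in the coset. Heights of
neighbours have different parity. Lower neighbours of `g AA` (height `2 m`, `m ≥ 1`) are `g h JJ`, `h ∈ AA`,
`LeC (m - 1) (g h)`: unique by `LWA`; for `m = 0` there are none. Lower neighbours of `g JJ` (height
`2 n + 1`) are `g j AA`, `j ∈ JJ`, with `LeM n (g j)`: unique by `LWU`. Now `S_TREE`. -/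
def S_TR : Prop := S_TREE → S_CON → S_DEP → S_JME → S_ZER → S_LWA → S_LWU →
  ∀ (K R : Type) [Field K] [Ring R] (ι : K →+* R) (_ : Cf K R ι), AA ι ⊔ JJ R = ⊤ →
  (CG (AA ι) (JJ R)).IsTree

/-- the group of the invertible matrices over the subring `S` -/
def Gam {R : Type} [Ring R] (S : Subring R) : Subgroup (G R) where
  carrier := {g | (∀ i j, (g : Matrix (Fin 2) (Fin 2) R) i j ∈ S) ∧
    ∀ i j, ((g⁻¹ : G R) : Matrix (Fin 2) (Fin 2) R) i j ∈ S}
  mul_mem' := by
    rintro a b ⟨h1, h2⟩ ⟨h3, h4⟩
    refine ⟨fun i j => ?_, fun i j => ?_⟩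
    · rw [Units.val_mul, Matrix.mul_apply]
      exact S.sum_mem fun k _ => S.mul_mem (h1 _ _) (h3 _ _)
    · rw [_root_.mul_inv_rev, Units.val_mul, Matrix.mul_apply]
      exact S.sum_mem fun k _ => S.mul_mem (h4 _ _) (h2 _ _)
  one_mem' := by
    refine ⟨fun i j => ?_, fun i j => ?_⟩
    · rw [Units.val_one, Matrix.one_apply]
      split_ifs
      exacts [S.one_mem, S.zero_mem]
    · rw [inv_one, Units.val_one, Matrix.one_apply]
      split_ifs
      exacts [S.one_mem, S.zero_mem]
  inv_mem' := by
    rintro a ⟨h1, h2⟩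
    exact ⟨h2, by rw [inv_inv]; exact h1⟩

/-- **ACT** (150 lines). Groups with finitely many central scalars. PROOF: as `PL.ACY7.t_ACY7` (copy). By
`Pool.Agent.N509.TX.of_fg` one may pass to a finitely generated subgroup `H` of `P`. It acts on the tree
`CG (AA ι) (JJ R)` (`ACY7.act`, `ACY7.noinv`), the vertex stabilizers are conjugate into `AA`: in `C` by
`hV`, or into `JJ`: in `C` by `JME` and `hM`. If `w` is a path of length at least seven then by `S_NRM7`
(with `s = sw`, `BRU`) there are `t`, `j₁` such that for all `g` which fix `w` the elements `t⁻¹ g t` and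
`j₁` satisfy the hypotheses of `STB`; so `g = t (t⁻¹ g t) t⁻¹ = t⁻¹ g t` is a central scalar matrix in
`H`; there are only `n` of them. -/
def S_ACT : Prop := Pool.Agent.T2h61.PL.S_NRM7 → S_BRU → S_JME → S_STB → S_CEN → S_ZER →
  ∀ (C : ∀ (G : Type) [Group G], Prop), ClosedE C →
  (∀ (G : Type) [Group G], derivedSeries G 2 = ⊥ → C G) → AcylF C →
  ∀ (K R : Type) [Field K] [CharZero K] [Ring R] (ι : K →+* R)
  (x : R) (δ : Derivation ℤ K K), IsDO K R ι x δ → ∀ H : Cf K R ι,
  (∀ (p : Polynomial K) (n : ℕ), H.c n (p.sum fun i a => ι a * x ^ i) = p.coeff n) →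
  (CG (AA ι) (JJ R)).IsTree → ∀ P : Subgroup (G R),
  (∀ (g : G R) (Q : Subgroup (G R)), Q ≤ P → (∀ q ∈ Q, g⁻¹ * q * g ∈ AA ι) → C Q) →
  {g : G R | g ∈ P ∧ (∃ z : K, (g : Matrix (Fin 2) (Fin 2) R) = Matrix.diagonal fun _ => ι z) ∧
    ∀ t : G R, t * g = g * t}.Finite → C P

/-- **EXS** (150 lines). All subgroups. PROOF: apply `ClosedE.ext` to `Δ : P → Δ P` (`Δ P` is abelian, so in
`C` by `hM`). Let `V` be a virtually cyclic subgroup of `Kˣ` and `P_V` the elements of `P` with `Δ g ∈ V`.
(Here and in the following 'scalar' means: scalar matrix `diag (ι z, ι z)`, `z ∈ K`, which is central in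
`G R`.) If `P_V` contains only finitely many scalars then it is in `C` by the hypothesis `hfin`.
Otherwise the set of the `z ^ 2`, `z` a scalar in `P_V`, is an infinite subgroup of `V` (the kernel of
`z ↦ z ^ 2` has two elements), so it contains an element of infinite order (`V` is virtually cyclic; if
`c` generates a finite index subgroup of `V`, a power of a scalar square is a power of `c`, and if all
these were trivial the group would be finite). So there is a scalar `g₀ ∈ P_V` such that `Δ g₀ = z₀ ^ 2` has infinite order, and `⟨z₀ ^ 2⟩` has finite index in `V`. The preimage `U` of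
`⟨z₀ ^ 2⟩` has finite index in `P_V` and is isomorphic to `(ker Δ ∩ P) × ℤ` by `(u, n) ↦ u g₀ ^ n`;
`ker Δ ∩ P` has at most two scalars (`z ^ 2 = 1`), so it is in `C` by `hfin`, `C` is closed under products
and finite index overgroups (`hC.base`). -/
def S_EXS : Prop := ∀ (C : ∀ (G : Type) [Group G], Prop), ClosedE C →
  (∀ (G : Type) [Group G], derivedSeries G 2 = ⊥ → C G) →
  ∀ (K R : Type) [Field K] [Ring R] (ι : K →+* R), Function.Injective ι →
  ∀ (Δ : G R →* Kˣ), (∀ (z : Kˣ) (g : G R),
    (g : Matrix (Fin 2) (Fin 2) R) = Matrix.diagonal (fun _ => ι z) → Δ g = z ^ 2) →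
  ∀ P : Subgroup (G R),
  (∀ Q : Subgroup (G R), Q ≤ P →
    {g : G R | g ∈ Q ∧ (∃ z : K, (g : Matrix (Fin 2) (Fin 2) R) = Matrix.diagonal fun _ => ι z) ∧
      ∀ t : G R, t * g = g * t}.Finite → C Q) → C P

end Pool.Agent.T2h61.DO
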