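import Pool.Agent.T2h61.DO.Def

/-! Existence of a lower neighbour of a vertex of type `J`. -/

set_option autoImplicit false

namespace Pool.Agent.T2h61.DO.LWE

open Matrix

variable {K R : Type} [Field K] [Ring R] {ι : K →+* R}

theorem le_mono (H : Cf K R ι) {n m : ℕ} (h : n ≤ m) {r : R} (hr : H.Le n r) : H.Le m r :=
  fun i hi => hr i (lt_of_le_of_lt h hi)

/-- the elementary matrix -/
def ej (b : R) : G R where
  val := !![1, b; 0, 1]
  inv := !![1, -b; 0, 1]
  val_inv := by ext i j; fin_cases i <;> fin_cases j <;> simp [Matrix.mul_apply]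
  inv_val := by ext i j; fin_cases i <;> fin_cases j <;> simp [Matrix.mul_apply]

theorem ej_mem (b : R) : ej b ∈ JJ R := by
  refine ⟨?_, ?_⟩
  · show (!![1, b; 0, 1] : Matrix (Fin 2) (Fin 2) R) 1 0 = 0
    simp
  · show (!![1, -b; 0, 1] : Matrix (Fin 2) (Fin 2) R) 1 0 = 0
    simp

theorem mul_ej0 (g : G R) (b : R) (i : Fin 2) :
    ((g * ej b : G R) : Matrix (Fin 2) (Fin 2) R) i 0 = (g : Matrix (Fin 2) (Fin 2) R) i 0 := by
  rw [Units.val_mul, Matrix.mul_apply, Fin.sum_univ_two]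
  show _ * (!![1, b; 0, 1] : Matrix (Fin 2) (Fin 2) R) 0 0 +
    _ * (!![1, b; 0, 1] : Matrix (Fin 2) (Fin 2) R) 1 0 = _
  simp

theorem mul_ej1 (g : G R) (b : R) (i : Fin 2) :
    ((g * ej b : G R) : Matrix (Fin 2) (Fin 2) R) i 1 =
      (g : Matrix (Fin 2) (Fin 2) R) i 0 * b + (g : Matrix (Fin 2) (Fin 2) R) i 1 := by
  rw [Units.val_mul, Matrix.mul_apply, Fin.sum_univ_two]
  show _ * (!![1, b; 0, 1] : Matrix (Fin 2) (Fin 2) R) 0 1 +
    _ * (!![1, b; 0, 1] : Matrix (Fin 2) (Fin 2) R) 1 1 = _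
  simp

theorem one_ne (H : Cf K R ι) : (1 : R) ≠ 0 := by
  intro h
  have h1 := H.c0 1
  rw [map_one, h, map_zero] at h1
  exact zero_ne_one h1

theorem col_ne (H : Cf K R ι) (g : G R) : ¬ ((g : Matrix (Fin 2) (Fin 2) R) 0 0 = 0 ∧
    (g : Matrix (Fin 2) (Fin 2) R) 1 0 = 0) := by
  rintro ⟨h0, h1⟩
  have h2 : ((g⁻¹ * g : G R) : Matrix (Fin 2) (Fin 2) R) 0 0 = 0 := by
    rw [Units.val_mul, Matrix.mul_apply, Fin.sum_univ_two, h0, h1]
    simp
  rw [inv_mul_cancel, Units.val_one, Matrix.one_apply_eq] at h2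
  exact one_ne H h2

theorem zero_of (H : Cf K R ι) {r : R} (hr : H.Le 0 r) (h0 : H.c 0 r = 0) : r = 0 := by
  refine H.ext0 r fun n => ?_
  rcases Nat.eq_zero_or_pos n with h | h
  · rw [h]
    exact h0
  · exact hr n h

theorem lead_ne (H : Cf K R ι) (g : G R) (n : ℕ) (hn : H.LeC n g)
    (hmin : ∀ k, k < n → ¬ H.LeC k g) : ¬ (H.c n ((g : Matrix (Fin 2) (Fin 2) R) 0 0) = 0 ∧
      H.c n ((g : Matrix (Fin 2) (Fin 2) R) 1 0) = 0) := by
  rintro ⟨h0, h1⟩
  rcases Nat.eq_zero_or_pos n with h | h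
  · subst h
    exact col_ne H g ⟨zero_of H (hn 0) h0, zero_of H (hn 1) h1⟩
  · refine hmin (n - 1) (by omega) fun i k hk => ?_
    by_cases hkn : k = n
    · rw [hkn]
      fin_cases i
      · exact h0
      · exact h1
    · exact hn i k (by omega)

theorem step (hD : S_DEP) (H : Cf K R ι) (n : ℕ) : ∀ (m : ℕ) (g : G R), H.LeC n g →
    (∀ k, k < n → ¬ H.LeC k g) → H.LeM m g → ∃ j ∈ JJ R, H.LeM n (g * j) := by
  intro m
  induction m with
  | zero =>
    intro g _ _ hM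
    refine ⟨1, Subgroup.one_mem _, ?_⟩
    rw [mul_one]
    exact fun i j => le_mono H (Nat.zero_le n) (hM i j)
  | succ m ih =>
    intro g hn hmin hM
    by_cases hmn : m + 1 ≤ n
    · refine ⟨1, Subgroup.one_mem _, ?_⟩
      rw [mul_one]
      exact fun i j => le_mono H hmn (hM i j)
    · have hnm : n ≤ m := by omega
      have hdep := hD K R ι H g n (m + 1) (by omega) (hn 0) (hn 1) (hM 0 1) (hM 1 1)
      have hne := lead_ne H g n hn hmin
      obtain ⟨lam, hl0, hl1⟩ : ∃ lam : K, H.c (m + 1) ((g : Matrix (Fin 2) (Fin 2) R) 0 1) =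
          H.c n ((g : Matrix (Fin 2) (Fin 2) R) 0 0) * lam ∧
          H.c (m + 1) ((g : Matrix (Fin 2) (Fin 2) R) 1 1) =
          H.c n ((g : Matrix (Fin 2) (Fin 2) R) 1 0) * lam := by
        by_cases h0 : H.c n ((g : Matrix (Fin 2) (Fin 2) R) 0 0) = 0
        · have h1 : H.c n ((g : Matrix (Fin 2) (Fin 2) R) 1 0) ≠ 0 := fun h1 => hne ⟨h0, h1⟩
          rw [h0, zero_mul] at hdep
          have h2 : H.c (m + 1) ((g : Matrix (Fin 2) (Fin 2) R) 0 1) = 0 :=
            (mul_eq_zero.1 hdep.symm).resolve_left h1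
          refine ⟨H.c (m + 1) ((g : Matrix (Fin 2) (Fin 2) R) 1 1) /
            H.c n ((g : Matrix (Fin 2) (Fin 2) R) 1 0), ?_, ?_⟩
          · rw [h0, h2, zero_mul]
          · rw [mul_div_cancel₀ _ h1]
        · refine ⟨H.c (m + 1) ((g : Matrix (Fin 2) (Fin 2) R) 0 1) /
            H.c n ((g : Matrix (Fin 2) (Fin 2) R) 0 0), ?_, ?_⟩
          · rw [mul_div_cancel₀ _ h0]
          · rw [mul_div_assoc', eq_div_iff h0, mul_comm, hdep]
      obtain ⟨b, hb1, hb2⟩ := H.mono (m + 1 - n) (-lam)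
      have hmul : ∀ i : Fin 2, H.c (m + 1) ((g : Matrix (Fin 2) (Fin 2) R) i 0 * b) =
          H.c n ((g : Matrix (Fin 2) (Fin 2) R) i 0) * (-lam) ∧
          ∀ k, m + 1 < k → H.c k ((g : Matrix (Fin 2) (Fin 2) R) i 0 * b) = 0 := by
        intro i
        have h := H.mul ((g : Matrix (Fin 2) (Fin 2) R) i 0) b n (m + 1 - n) (hn i) hb1
        have e : n + (m + 1 - n) = m + 1 := by omega
        rw [e, hb2] at h
        exact h
      have hl : ∀ i : Fin 2, H.c (m + 1) ((g : Matrix (Fin 2) (Fin 2) R) i 1) =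
          H.c n ((g : Matrix (Fin 2) (Fin 2) R) i 0) * lam := by
        intro i
        fin_cases i
        · exact hl0
        · exact hl1
      have hC : ∀ k, H.LeC k (g * ej b) ↔ H.LeC k g := fun k => by
        unfold Cf.LeC
        simp only [mul_ej0]
      have hM' : H.LeM m (g * ej b) := by
        intro i j
        fin_cases j
        · show H.Le m (((g * ej b : G R) : Matrix (Fin 2) (Fin 2) R) i 0)
          rw [mul_ej0]
          exact le_mono H hnm (hn i)
        · show H.Le m (((g * ej b : G R) : Matrix (Fin 2) (Fin 2) R) i 1)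
          rw [mul_ej1]
          intro k hk
          rw [map_add]
          by_cases hk1 : k = m + 1
          · rw [hk1, (hmul i).1, hl i]
            ring
          · rw [(hmul i).2 k (by omega), hM i 1 k (by omega), add_zero]
      obtain ⟨j, hj, hjM⟩ := ih (g * ej b) ((hC n).2 hn) (fun k hk h => hmin k hk ((hC k).1 h)) hM'
      refine ⟨ej b * j, Subgroup.mul_mem _ (ej_mem b) hj, ?_⟩
      rw [← mul_assoc]
      exact hjM

theorem t_LWE : S_LWE := by
  intro hD K R _ _ ι H g n hn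
  classical
  have hex : ∃ k, H.LeC k g := ⟨n, hn⟩
  have hfin : ∃ m, H.LeM m g := by
    obtain ⟨a, ha⟩ := H.fin ((g : Matrix (Fin 2) (Fin 2) R) 0 0)
    obtain ⟨b, hb⟩ := H.fin ((g : Matrix (Fin 2) (Fin 2) R) 0 1)
    obtain ⟨c, hc⟩ := H.fin ((g : Matrix (Fin 2) (Fin 2) R) 1 0)
    obtain ⟨e, he⟩ := H.fin ((g : Matrix (Fin 2) (Fin 2) R) 1 1)
    refine ⟨a + b + c + e, fun i j k hk => ?_⟩
    fin_cases i <;> fin_cases j
    · exact ha k (by omega)
    · exact hb k (by omega)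
    · exact hc k (by omega)
    · exact he k (by omega)
  obtain ⟨m, hm⟩ := hfin
  obtain ⟨j, hj, hjM⟩ := step hD H (Nat.find hex) m g (Nat.find_spec hex)
    (fun k hk => Nat.find_min hex hk) hm
  exact ⟨j, hj, fun i k => le_mono H (Nat.find_min' hex hn) (hjM i k)⟩

end Pool.Agent.T2h61.DO.LWE
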